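import Pool.Agent.Helper51.UG.ArithU
import Pool.Graph.R_seed8.Helper256.KM.Mertens

/-!
# Classes modulo `Q` for linear forms, uniformly in the forms; the sieve product
-/

set_option autoImplicit false

open Finset

namespace Pool.Agent.Helper51.UG

open Pool.Agent.Helper51.UD
open Pool.Agent.Helper51.UL
open Pool.Agent.Y880.RS (log_ev)
open Pool.Agent.Y677.RSZ (rt pig)

section forms

variable {κ : ℕ} (α β : Fin κ → ℤ)

/-- the product of the values of the forms -/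
def FZ (n : ℤ) : ℤ := ∏ i, (α i * n + β i)

theorem FZ_dvd {p : ℕ} (hp : p.Prime) (n : ℤ) :
    (p : ℤ) ∣ FZ α β n ↔ ∃ i, (p : ℤ) ∣ α i * n + β i := by
  unfold FZ
  rw [(Nat.prime_iff_prime_int.1 hp).dvd_finsetProd_iff]
  simp

theorem FZ_per (p : ℕ) (_hp : p.Prime) (n : ℤ) : (p : ℤ) ∣ FZ α β (n + p) - FZ α β n := by
  unfold FZ
  have key : ∀ s : Finset (Fin κ), (p : ℤ) ∣ ∏ i ∈ s, (α i * (n + p) + β i) -
      ∏ i ∈ s, (α i * n + β i) := by
    intro s
    induction s using Finset.induction_on with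
    | empty => simp
    | insert a s ha ih =>
      rw [prod_insert ha, prod_insert ha]
      obtain ⟨c, hc⟩ := ih
      refine ⟨(α a * n + β a) * c + α a * ∏ i ∈ s, (α i * (n + p) + β i), ?_⟩
      linear_combination (α a * n + β a) * hc
  exact key univ

theorem rt_leZ (p : ℕ) (hp : p.Prime) (h : ∀ i, ¬ (p : ℤ) ∣ α i) : rt (FZ α β) p ≤ κ := by
  classical
  unfold rt
  have h1 : ((range p).filter (fun r : ℕ => (p : ℤ) ∣ FZ α β r)) ⊆
      (univ : Finset (Fin κ)).biUnion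
        (fun i => (range p).filter (fun r : ℕ => (p : ℤ) ∣ α i * r + β i)) := by
    intro r hr
    rw [mem_filter, FZ_dvd α β hp] at hr
    obtain ⟨hr1, i, hi⟩ := hr
    rw [mem_biUnion]
    exact ⟨i, mem_univ i, mem_filter.2 ⟨hr1, hi⟩⟩
  refine (card_le_card h1).trans (card_biUnion_le.trans ?_)
  have h2 : ∀ i ∈ (univ : Finset (Fin κ)),
      ((range p).filter (fun r : ℕ => (p : ℤ) ∣ α i * r + β i)).card ≤ 1 := by
    intro i _
    rw [card_le_one]
    intro a ha b hb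
    rw [mem_filter, mem_range] at ha hb
    have h3 : (p : ℤ) ∣ α i * ((a : ℤ) - b) := by
      have := dvd_sub ha.2 hb.2
      have h4 : α i * (a : ℤ) + β i - (α i * b + β i) = α i * ((a : ℤ) - b) := by ring
      rwa [h4] at this
    rcases (Nat.prime_iff_prime_int.1 hp).dvd_or_dvd h3 with h4 | h4
    · exact absurd h4 (h i)
    · have h5 : (a : ℤ) - b = 0 := by
        apply Int.eq_zero_of_abs_lt_dvd h4
        rw [abs_lt]
        constructor <;> omega
      omega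
  calc ∑ i, ((range p).filter (fun r : ℕ => (p : ℤ) ∣ α i * r + β i)).card
      ≤ ∑ _i : Fin κ, 1 := sum_le_sum h2
    _ = κ := by simp

/-- the best class for tuples -/
theorem class_exU (P : Finset ℕ) (hPne : P.Nonempty) (Q : ℕ) (hQ : Squarefree Q)
    (hP : ∀ n ∈ P, ∀ i, ∀ p : ℕ, p.Prime → p ∣ Q → ¬ (p : ℤ) ∣ α i * n + β i) :
    0 < ∏ p ∈ Q.primeFactors, (1 - (rt (FZ α β) p : ℝ) / p) ∧
    ∃ a, (P.card : ℝ) / (Q * ∏ p ∈ Q.primeFactors, (1 - (rt (FZ α β) p : ℝ) / p)) ≤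
        (P.filter (fun p => p % Q = a % Q)).card := by
  classical
  have hQ0 : 0 < Q := Nat.pos_of_ne_zero hQ.ne_zero
  obtain ⟨V, hV⟩ : ∃ V, V = (range Q).filter (fun b : ℕ => ∀ p ∈ Q.primeFactors,
    ¬ (p : ℤ) ∣ FZ α β b) := ⟨_, rfl⟩
  have hVc : (V.card : ℝ) = Q * ∏ p ∈ Q.primeFactors, (1 - (rt (FZ α β) p : ℝ) / p) := by
    have h1 : V.card = ∏ p ∈ Q.primeFactors, (p - rt (FZ α β) p) := by
      have := pig (FZ α β) (FZ_per α β) Q hQ
      rw [hV]
      convert this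
    have h2 : (Q : ℝ) = ∏ p ∈ Q.primeFactors, (p : ℝ) := by
      conv_lhs => rw [← Nat.prod_primeFactors_of_squarefree hQ]
      push_cast
      rfl
    rw [h1, Nat.cast_prod]
    conv_rhs => rw [h2]
    rw [← prod_mul_distrib]
    refine prod_congr rfl fun p hp => ?_
    have hpp := Nat.prime_of_mem_primeFactors hp
    have h7 : rt (FZ α β) p ≤ p := by
      unfold rt
      exact (card_filter_le _ _).trans (card_range p).le
    have hp0 : (p : ℝ) ≠ 0 := by exact_mod_cast hpp.ne_zero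
    rw [Nat.cast_sub h7]
    field_simp
  have hmaps : ∀ p ∈ P, p % Q ∈ V := by
    intro n hn
    rw [hV, mem_filter, mem_range]
    refine ⟨Nat.mod_lt _ hQ0, fun p hp hd => ?_⟩
    have hpp := Nat.prime_of_mem_primeFactors hp
    have hpQ := Nat.dvd_of_mem_primeFactors hp
    rw [FZ_dvd α β hpp] at hd
    obtain ⟨i, hd⟩ := hd
    apply hP n hn i p hpp hpQ
    have h2 : (α i : ℤ) * n + β i = (α i * ((n % Q : ℕ) : ℤ) + β i) + Q * (α i * (n / Q : ℕ)) := by
      have h3 : ((n % Q + Q * (n / Q) : ℕ) : ℤ) = n := by exact_mod_cast Nat.mod_add_div n Q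
      push_cast at h3 ⊢
      linear_combination -(α i : ℤ) * h3
    rw [h2]
    exact dvd_add hd ((Int.natCast_dvd_natCast.2 hpQ).mul_right _)
  have hVne : V.Nonempty := by
    obtain ⟨n, hn⟩ := hPne
    exact ⟨_, hmaps n hn⟩
  have hV0 : (0 : ℝ) < V.card := by exact_mod_cast hVne.card_pos
  have hQ0r : (0 : ℝ) < Q := by exact_mod_cast hQ0
  refine ⟨?_, ?_⟩
  · rw [hVc] at hV0
    exact (mul_pos_iff_of_pos_left hQ0r).1 hV0
  by_contra hcon
  push Not at hcon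
  have h1 : (P.card : ℝ) < ∑ a ∈ V, (P.card : ℝ) / V.card := by
    have h2 : P.card = ∑ a ∈ V, (P.filter (fun p => p % Q = a)).card :=
      card_eq_sum_card_fiberwise hmaps
    have h3 : (P.card : ℝ) = ∑ a ∈ V, ((P.filter (fun p => p % Q = a)).card : ℝ) := by
      exact_mod_cast h2
    rw [h3]
    conv_rhs => rw [← h3]
    refine sum_lt_sum_of_nonempty hVne fun a ha => ?_
    have h4 := hcon a
    rw [hV, mem_filter, mem_range] at ha
    rw [Nat.mod_eq_of_lt ha.1] at h4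
    rw [hVc]
    exact h4
  rw [sum_const, nsmul_eq_mul, mul_div_cancel₀] at h1
  · exact lt_irrefl _ h1
  · exact hV0.ne'

end forms

/-- the sieve product -/
noncomputable def VV (F : ℤ → ℤ) (y : ℕ) : ℝ :=
  ∏ p ∈ (Icc 1 y).filter Nat.Prime, (1 - (rt F p : ℝ) / p)

theorem rt_le (F : ℤ → ℤ) (p : ℕ) : rt F p ≤ p := by
  unfold rt
  exact (card_filter_le _ _).trans (card_range p).le

theorem one_sub_nn (F : ℤ → ℤ) (p : ℕ) : 0 ≤ 1 - (rt F p : ℝ) / p := by
  have h1 : (rt F p : ℝ) ≤ p := by exact_mod_cast rt_le F p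
  have h2 : (rt F p : ℝ) / p ≤ 1 := div_le_one_of_le₀ h1 (Nat.cast_nonneg _)
  linarith

theorem VV_nn (F : ℤ → ℤ) (y : ℕ) : 0 ≤ VV F y := prod_nonneg fun p _ => one_sub_nn F p

theorem exp_le_one_sub {x : ℝ} (_hx : 0 ≤ x) (hx2 : x ≤ 1 / 2) :
    Real.exp (-(x + 2 * x ^ 2)) ≤ 1 - x := by
  have h1 : 0 < 1 - x := by linarith
  rw [← Real.le_log_iff_exp_le h1]
  refine le_trans ?_ (Real.one_sub_inv_le_log_of_pos h1)
  have h2 : (1 - x)⁻¹ ≤ 1 + x + 2 * x ^ 2 := by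
    rw [inv_le_iff_one_le_mul₀ h1]
    nlinarith [mul_nonneg (sq_nonneg x) (show 0 ≤ 1 - 2 * x by linarith)]
  linarith

theorem sq_sum : ∃ K : ℝ, 0 ≤ K ∧ ∀ S : Finset ℕ, ∑ p ∈ S, 1 / (p : ℝ) ^ 2 ≤ K := by
  have h1 : Summable (fun n : ℕ => 1 / (n : ℝ) ^ 2) :=
    Real.summable_one_div_nat_pow.2 (by norm_num)
  refine ⟨∑' n : ℕ, 1 / (n : ℝ) ^ 2, tsum_nonneg fun n => by positivity, fun S => ?_⟩
  exact h1.sum_le_tsum S fun n _ => by positivity

theorem starU (κ : ℕ) : ∃ c : ℝ, 0 < c ∧ ∀ (F : ℤ → ℤ) (Q y : ℕ), 1 ≤ Q → 3 ≤ y →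
    (∀ p : ℕ, p.Prime → p ∣ Q → p ≤ y) → (∀ p : ℕ, p.Prime → ¬ p ∣ Q → 2 * κ ≤ p ∧ rt F p ≤ κ) →
    c * (∏ p ∈ Q.primeFactors, (1 - (rt F p : ℝ) / p)) *
      ((Q : ℝ) / (Q.totient * Real.log y)) ^ κ ≤ VV F y := by
  classical
  obtain ⟨C, hC⟩ := Pool.Agent.Helper256.KM.mertens_inv
  obtain ⟨K, hK0, hK⟩ := sq_sum
  refine ⟨Real.exp (-(κ * C + 2 * κ ^ 2 * K + κ * (2 * K))), Real.exp_pos _, ?_⟩
  intro F Q y hQ hy hQy hrt
  have hQ0 : (0 : ℝ) < Q := by exact_mod_cast hQ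
  have hy0 : (0 : ℝ) < y := by
    have : 0 < y := by omega
    exact_mod_cast this
  have hlogy : 0 < Real.log y := Real.log_pos (by
    have : (3 : ℝ) ≤ y := by exact_mod_cast hy
    linarith)
  obtain ⟨PP, hPP⟩ : ∃ PP, PP = (Icc 1 y).filter Nat.Prime := ⟨_, rfl⟩
  have hM := hC y hy
  rw [← hPP] at hM
  obtain ⟨SQ, hSQ⟩ : ∃ SQ, SQ = PP.filter (fun p => p ∣ Q) := ⟨_, rfl⟩
  obtain ⟨SN, hSN⟩ : ∃ SN, SN = PP.filter (fun p => ¬ p ∣ Q) := ⟨_, rfl⟩
  have hSQe : SQ = Q.primeFactors := by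
    ext p
    rw [hSQ, hPP, mem_filter, mem_filter, mem_Icc, Nat.mem_primeFactors]
    constructor
    · rintro ⟨⟨_, h2⟩, h3⟩
      exact ⟨h2, h3, by omega⟩
    · rintro ⟨h1, h2, _⟩
      exact ⟨⟨⟨h1.one_lt.le, hQy p h1 h2⟩, h1⟩, h2⟩
  have hprime : ∀ p ∈ PP, p.Prime := by
    intro p hp
    rw [hPP, mem_filter] at hp
    exact hp.2
  have hVV : VV F y = (∏ p ∈ SQ, (1 - (rt F p : ℝ) / p)) * ∏ p ∈ SN, (1 - (rt F p : ℝ) / p) := by
    unfold VV
    rw [← hPP, hSQ, hSN, prod_filter_mul_prod_filter_not]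
  have hsumi : ∑ p ∈ PP, 1 / (p : ℝ) = ∑ p ∈ SQ, 1 / (p : ℝ) + ∑ p ∈ SN, 1 / (p : ℝ) := by
    rw [hSQ, hSN, sum_filter_add_sum_filter_not]
  -- the factors outside `Q`
  have hSN1 : Real.exp (-(κ * ∑ p ∈ SN, 1 / (p : ℝ) + 2 * κ ^ 2 * K)) ≤
      ∏ p ∈ SN, (1 - (rt F p : ℝ) / p) := by
    have e1 : ∀ p ∈ SN, Real.exp (-((κ : ℝ) / p + 2 * ((κ : ℝ) / p) ^ 2)) ≤
        1 - (rt F p : ℝ) / p := by
      intro p hp
      rw [hSN, mem_filter] at hp
      obtain ⟨e2, e3⟩ := hrt p (hprime p hp.1) hp.2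
      have e4 : (0 : ℝ) < p := by exact_mod_cast (hprime p hp.1).pos
      have e5 : (κ : ℝ) / p ≤ 1 / 2 := by
        rw [div_le_iff₀ e4]
        have : (2 : ℝ) * κ ≤ p := by exact_mod_cast e2
        linarith
      refine (exp_le_one_sub (by positivity) e5).trans ?_
      have e6 : (rt F p : ℝ) / p ≤ κ / p :=
        div_le_div_of_nonneg_right (by exact_mod_cast e3) e4.le
      linarith
    calc Real.exp (-(κ * ∑ p ∈ SN, 1 / (p : ℝ) + 2 * κ ^ 2 * K))
        ≤ Real.exp (∑ p ∈ SN, (-((κ : ℝ) / p + 2 * ((κ : ℝ) / p) ^ 2))) := by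
          apply Real.exp_le_exp.2
          rw [sum_neg_distrib, sum_add_distrib]
          have e7 : ∑ p ∈ SN, (κ : ℝ) / p = κ * ∑ p ∈ SN, 1 / (p : ℝ) := by
            rw [mul_sum]
            exact sum_congr rfl fun p _ => by ring
          have e8 : ∑ p ∈ SN, 2 * ((κ : ℝ) / (p : ℝ)) ^ 2 =
              2 * (κ : ℝ) ^ 2 * ∑ p ∈ SN, 1 / (p : ℝ) ^ 2 := by
            rw [mul_sum]
            exact sum_congr rfl fun p _ => by rw [div_pow]; ring
          rw [e7, e8]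
          have e9 := mul_le_mul_of_nonneg_left (hK SN) (show (0 : ℝ) ≤ 2 * κ ^ 2 by positivity)
          linarith
      _ = ∏ p ∈ SN, Real.exp (-((κ : ℝ) / p + 2 * ((κ : ℝ) / p) ^ 2)) := Real.exp_sum _ _
      _ ≤ _ := prod_le_prod (fun p _ => (Real.exp_pos _).le) e1
  -- the primes of `Q`
  have htot : (Q : ℝ) / Q.totient ≤ Real.exp (∑ p ∈ SQ, 1 / (p : ℝ) + 2 * K) := by
    have e1 : (Q.totient : ℝ) = Q * ∏ p ∈ Q.primeFactors, (1 - (p : ℝ)⁻¹) := by
      have := congrArg (fun x : ℚ => (x : ℝ)) (Nat.totient_eq_mul_prod_factors Q)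
      push_cast at this
      exact this
    have e2 : Real.exp (-(∑ p ∈ SQ, 1 / (p : ℝ) + 2 * K)) ≤
        ∏ p ∈ Q.primeFactors, (1 - (p : ℝ)⁻¹) := by
      rw [← hSQe]
      calc Real.exp (-(∑ p ∈ SQ, 1 / (p : ℝ) + 2 * K))
          ≤ Real.exp (∑ p ∈ SQ, (-(1 / (p : ℝ) + 2 * (1 / (p : ℝ)) ^ 2))) := by
            apply Real.exp_le_exp.2
            rw [sum_neg_distrib, sum_add_distrib]
            have e8 : ∑ p ∈ SQ, 2 * (1 / (p : ℝ)) ^ 2 = 2 * ∑ p ∈ SQ, 1 / (p : ℝ) ^ 2 := by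
              rw [mul_sum]
              exact sum_congr rfl fun p _ => by rw [div_pow]; ring
            rw [e8]
            have e9 := hK SQ
            linarith
        _ = ∏ p ∈ SQ, Real.exp (-(1 / (p : ℝ) + 2 * (1 / (p : ℝ)) ^ 2)) := Real.exp_sum _ _
        _ ≤ ∏ p ∈ SQ, (1 - (p : ℝ)⁻¹) := by
            apply prod_le_prod (fun p _ => (Real.exp_pos _).le)
            intro p hp
            rw [← one_div]
            apply exp_le_one_sub (by positivity)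
            rw [hSQ, mem_filter] at hp
            exact one_div_le_one_div_of_le (by norm_num)
              (by exact_mod_cast (hprime p hp.1).two_le)
    have e3 : 0 < ∏ p ∈ Q.primeFactors, (1 - (p : ℝ)⁻¹) := lt_of_lt_of_le (Real.exp_pos _) e2
    rw [e1, div_mul_cancel_left₀ hQ0.ne', inv_le_comm₀ e3 (Real.exp_pos _), ← Real.exp_neg]
    exact e2
  have hφ0 : (0 : ℝ) < Q.totient := by exact_mod_cast Nat.totient_pos.2 hQ
  rw [hVV, hSQe]
  have hP0 : 0 ≤ ∏ p ∈ Q.primeFactors, (1 - (rt F p : ℝ) / p) :=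
    prod_nonneg fun p _ => one_sub_nn F p
  have hmain : Real.exp (-(κ * C + 2 * κ ^ 2 * K + κ * (2 * K))) *
      ((Q : ℝ) / (Q.totient * Real.log y)) ^ κ ≤ ∏ p ∈ SN, (1 - (rt F p : ℝ) / p) := by
    refine le_trans ?_ hSN1
    have e1 : (Q : ℝ) / (Q.totient * Real.log y) ≤
        Real.exp (∑ p ∈ SQ, 1 / (p : ℝ) + 2 * K - Real.log (Real.log y)) := by
      rw [Real.exp_sub, Real.exp_log hlogy, ← div_div]
      exact div_le_div_of_nonneg_right htot hlogy.le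
    calc Real.exp (-(κ * C + 2 * κ ^ 2 * K + κ * (2 * K))) *
          ((Q : ℝ) / (Q.totient * Real.log y)) ^ κ
        ≤ Real.exp (-(κ * C + 2 * κ ^ 2 * K + κ * (2 * K))) *
          (Real.exp (∑ p ∈ SQ, 1 / (p : ℝ) + 2 * K - Real.log (Real.log y))) ^ κ := by
          apply mul_le_mul_of_nonneg_left _ (Real.exp_pos _).le
          exact pow_le_pow_left₀ (by positivity) e1 κ
      _ = Real.exp (-(κ * C + 2 * κ ^ 2 * K + κ * (2 * K)) +
          κ * (∑ p ∈ SQ, 1 / (p : ℝ) + 2 * K - Real.log (Real.log y))) := by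
          rw [← Real.exp_nat_mul, ← Real.exp_add]
      _ ≤ _ := by
          apply Real.exp_le_exp.2
          have e2 := (abs_le.1 hM).2
          rw [hsumi] at e2
          have e3 : (κ : ℝ) * (∑ p ∈ SQ, 1 / (p : ℝ) + ∑ p ∈ SN, 1 / (p : ℝ) -
              Real.log (Real.log y)) ≤ κ * C := mul_le_mul_of_nonneg_left e2 (Nat.cast_nonneg κ)
          nlinarith
  calc Real.exp (-(κ * C + 2 * κ ^ 2 * K + κ * (2 * K))) *
        (∏ p ∈ Q.primeFactors, (1 - (rt F p : ℝ) / p)) *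
        ((Q : ℝ) / (Q.totient * Real.log y)) ^ κ
      = (∏ p ∈ Q.primeFactors, (1 - (rt F p : ℝ) / p)) *
        (Real.exp (-(κ * C + 2 * κ ^ 2 * K + κ * (2 * K))) *
          ((Q : ℝ) / (Q.totient * Real.log y)) ^ κ) := by ring
    _ ≤ _ := mul_le_mul_of_nonneg_left hmain hP0

/-- the lower bound for the sieve product -/
theorem lowV (κ CA : ℕ) : ∃ c : ℝ, 0 < c ∧ ∃ y₀ : ℕ, 3 ≤ y₀ ∧ ∀ (α β : Fin κ → ℤ),
    (∀ i, α i ≠ 0 ∧ |α i| ≤ CA) → ∀ y : ℕ, y₀ ≤ y →
    (∃ n : ℤ, ∀ p : ℕ, p.Prime → p ≤ y → ¬ (p : ℤ) ∣ FZ α β n) →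
    c / Real.log y ^ κ ≤ VV (FZ α β) y := by
  classical
  obtain ⟨c, hc, hstar⟩ := starU κ
  obtain ⟨m, hm⟩ : ∃ m, m = 2 * κ + CA + 3 := ⟨_, rfl⟩
  obtain ⟨Q, hQ⟩ : ∃ Q, Q = primorial m := ⟨_, rfl⟩
  have hQ1 : 1 ≤ Q := by rw [hQ]; exact primorial_pos _
  have hQ0 : (0 : ℝ) < Q := by exact_mod_cast hQ1
  have hQp : ∀ p : ℕ, p.Prime → (p ∣ Q ↔ p ≤ m) := by
    intro p hp
    have h1 : p ∈ Q.primeFactors ↔ p ∣ Q := by
      rw [Nat.mem_primeFactors]
      exact ⟨fun h => h.2.1, fun h => ⟨hp, h, by omega⟩⟩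
    rw [← h1, hQ, primeFactors_primorial, Nat.mem_primesLE]
    exact ⟨fun h => h.1, fun h => ⟨h, hp⟩⟩
  refine ⟨c * ∏ p ∈ Q.primeFactors, (1 / (p : ℝ)), ?_, m, by omega, ?_⟩
  · apply mul_pos hc
    apply prod_pos
    intro p hp
    have := (Nat.prime_of_mem_primeFactors hp).pos
    positivity
  intro α β hαβ y hy hex
  obtain ⟨n, hn⟩ := hex
  have hy3 : (3 : ℝ) ≤ y := by
    have : 3 ≤ y := by omega
    exact_mod_cast this
  have hlogy : 0 < Real.log y := Real.log_pos (by linarith)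
  have h1 := hstar (FZ α β) Q y hQ1 (by omega) (fun p hp hpQ => ((hQp p hp).1 hpQ).trans hy) (by
    intro p hp hpQ
    have h2 : m < p := by
      by_contra hcon
      exact hpQ ((hQp p hp).2 (not_lt.1 hcon))
    refine ⟨by omega, rt_leZ α β p hp fun i hi => ?_⟩
    have h3 := Int.le_of_dvd (abs_pos.2 (hαβ i).1) ((dvd_abs _ _).2 hi)
    have h4 := h3.trans (hαβ i).2
    have h5 : p ≤ CA := by exact_mod_cast h4
    omega)
  refine le_trans ?_ h1
  have hφ0 : (0 : ℝ) < Q.totient := by exact_mod_cast Nat.totient_pos.2 hQ1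
  have h2 : ∏ p ∈ Q.primeFactors, (1 / (p : ℝ)) ≤
      ∏ p ∈ Q.primeFactors, (1 - (rt (FZ α β) p : ℝ) / p) := by
    apply prod_le_prod (fun p _ => by positivity)
    intro p hp
    have hpp := Nat.prime_of_mem_primeFactors hp
    have hp0 : (0 : ℝ) < p := by exact_mod_cast hpp.pos
    have h3 : rt (FZ α β) p < p := by
      unfold rt
      refine lt_of_lt_of_eq (card_lt_card ?_) (card_range p)
      refine (filter_ssubset).2 ⟨(n % p).toNat, ?_, ?_⟩
      · rw [mem_range]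
        have e1 := Int.emod_lt_of_pos n (show (0 : ℤ) < p by exact_mod_cast hpp.pos)
        have e2 := Int.emod_nonneg n (show (p : ℤ) ≠ 0 by exact_mod_cast hpp.ne_zero)
        omega
      · intro hd
        apply hn p hpp (((hQp p hpp).1 (Nat.dvd_of_mem_primeFactors hp)).trans hy)
        rw [FZ_dvd α β hpp] at hd ⊢
        obtain ⟨i, hi⟩ := hd
        refine ⟨i, ?_⟩
        rw [Int.toNat_of_nonneg (Int.emod_nonneg n (by exact_mod_cast hpp.ne_zero))] at hi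
        have e3 : α i * n + β i = (α i * (n % p) + β i) + p * (α i * (n / p)) := by
          have := Int.emod_add_mul_ediv n p
          linear_combination -(α i) * this
        rw [e3]
        exact dvd_add hi (dvd_mul_right _ _)
    have h4 : (rt (FZ α β) p : ℝ) + 1 ≤ p := by exact_mod_cast h3
    have h5 : 1 / (p : ℝ) + (rt (FZ α β) p : ℝ) / p ≤ 1 := by
      rw [← add_div, div_le_one hp0]
      linarith
    linarith
  have h3 : 1 / Real.log y ^ κ ≤ ((Q : ℝ) / (Q.totient * Real.log y)) ^ κ := by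
    rw [← one_div_pow]
    apply pow_le_pow_left₀ (by positivity)
    rw [div_le_div_iff₀ hlogy (by positivity)]
    have : (Q.totient : ℝ) ≤ Q := by exact_mod_cast Nat.totient_le Q
    nlinarith
  calc c * (∏ p ∈ Q.primeFactors, (1 / (p : ℝ))) / Real.log y ^ κ
      = c * (∏ p ∈ Q.primeFactors, (1 / (p : ℝ))) * (1 / Real.log y ^ κ) := by ring
    _ ≤ _ := by
        apply mul_le_mul (mul_le_mul_of_nonneg_left h2 hc.le) h3 (by positivity)
        exact mul_nonneg hc.le (prod_nonneg fun p _ => one_sub_nn _ p)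

/-- a prime which does not divide `M` -/
theorem exPr : ∃ n₀ : ℕ, ∀ (n M : ℕ) (s : ℝ), n₀ ≤ n → 0 ≤ s → M ≠ 0 →
    Real.log M + 2 * s ≤ n / 3 → ∃ p : ℕ, p.Prime ∧ s < p ∧ p ≤ n ∧ ¬ p ∣ M := by
  classical
  have hev : ∀ᶠ n : ℕ in Filter.atTop, (n : ℝ) / 2 ≤ Chebyshev.theta n := by
    have h1 : ∀ᶠ x : ℝ in Filter.atTop, Real.log (x + 1) ≤ 0.01 * x := by
      have h2 := (isLittleO_log_rpow_atTop (show (0 : ℝ) < 1 by norm_num)).bound
        (c := 0.001) (by norm_num)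
      have h3 : Filter.Tendsto (fun x : ℝ => x + 1) Filter.atTop Filter.atTop :=
        Filter.tendsto_atTop_add_const_right _ _ Filter.tendsto_id
      filter_upwards [h3.eventually h2, Filter.eventually_ge_atTop 1] with x hx hx1
      rw [Real.rpow_one, Real.norm_of_nonneg (Real.log_nonneg (by linarith)),
        Real.norm_of_nonneg (by linarith)] at hx
      linarith
    have h4 : ∀ᶠ x : ℝ in Filter.atTop, 2 * Real.sqrt x * Real.log x ≤ 0.1 * x := by
      have h2 := (isLittleO_log_rpow_atTop (show (0 : ℝ) < 1 / 2 by norm_num)).bound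
        (c := 0.01) (by norm_num)
      filter_upwards [h2, Filter.eventually_ge_atTop 1] with x hx hx1
      rw [Real.norm_of_nonneg (Real.log_nonneg hx1), Real.norm_of_nonneg (by positivity),
        ← Real.sqrt_eq_rpow] at hx
      have h5 : Real.sqrt x * Real.sqrt x = x := Real.mul_self_sqrt (by linarith)
      nlinarith [Real.sqrt_nonneg x]
    have h1' := tendsto_natCast_atTop_atTop.eventually h1
    have h4' := tendsto_natCast_atTop_atTop.eventually h4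
    filter_upwards [h1', h4'] with n hn1 hn2
    have h5 := Chebyshev.theta_ge n
    have h6 : (0.6931471803 : ℝ) < Real.log 2 := Real.log_two_gt_d9
    have h7 : (0 : ℝ) ≤ n := Nat.cast_nonneg n
    nlinarith
  obtain ⟨n₀, hn₀⟩ := Filter.eventually_atTop.1 hev
  refine ⟨max n₀ 1, fun n M s hn hs hM h => ?_⟩
  have hth := hn₀ n ((le_max_left _ _).trans hn)
  have hn1 : 1 ≤ n := (le_max_right _ _).trans hn
  have hn1r : (1 : ℝ) ≤ n := by exact_mod_cast hn1
  by_contra hcon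
  push Not at hcon
  obtain ⟨S, hS⟩ : ∃ S : Finset ℕ, S = (Ioc 0 n).filter (fun p : ℕ => p.Prime ∧ s < p) := ⟨_, rfl⟩
  have hSp : ∀ p ∈ S, p.Prime ∧ s < p ∧ p ≤ n := by
    intro p hp
    rw [hS, mem_filter, mem_Ioc] at hp
    exact ⟨hp.2.1, hp.2.2, hp.1.2⟩
  have hdvd : ∏ p ∈ S, p ∣ M := by
    apply Finset.prod_dvd_of_isRelPrime
    · intro p hp q hq hpq
      exact Nat.coprime_iff_isRelPrime.1 ((Nat.coprime_primes (hSp p hp).1 (hSp q hq).1).2 hpq)
    · intro p hp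
      obtain ⟨h1, h2, h3⟩ := hSp p hp
      exact hcon p h1 h2 h3
  have h1 : ∑ p ∈ S, Real.log p ≤ Real.log M := by
    rw [← Real.log_prod (s := S) (f := fun p => (p : ℝ)) (fun p hp => by
      have := (hSp p hp).1.pos
      positivity)]
    have h2 : ((∏ p ∈ S, p : ℕ) : ℝ) ≤ M := by
      exact_mod_cast Nat.le_of_dvd (Nat.pos_of_ne_zero hM) hdvd
    rw [Nat.cast_prod] at h2
    refine Real.log_le_log ?_ h2
    exact prod_pos fun p hp => by exact_mod_cast (hSp p hp).1.pos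
  have h2 : Chebyshev.theta n ≤ Chebyshev.theta s + ∑ p ∈ S, Real.log p := by
    unfold Chebyshev.theta
    rw [Nat.floor_natCast]
    have h3 : (Ioc 0 n).filter Nat.Prime ⊆ (Ioc 0 ⌊s⌋₊).filter Nat.Prime ∪ S := by
      intro p hp
      rw [mem_filter, mem_Ioc] at hp
      rw [mem_union, mem_filter, mem_Ioc, hS, mem_filter, mem_Ioc]
      by_cases h4 : s < p
      · exact Or.inr ⟨hp.1, hp.2, h4⟩
      · exact Or.inl ⟨⟨hp.1.1, Nat.le_floor (not_lt.1 h4)⟩, hp.2⟩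
    refine (sum_le_sum_of_subset_of_nonneg h3 fun p hp _ => Real.log_natCast_nonneg p).trans ?_
    have h5 := sum_union_inter (s₁ := (Ioc 0 ⌊s⌋₊).filter Nat.Prime) (s₂ := S)
      (f := fun p : ℕ => Real.log (p : ℝ))
    have h6 : 0 ≤ ∑ p ∈ (Ioc 0 ⌊s⌋₊).filter Nat.Prime ∩ S, Real.log (p : ℝ) :=
      sum_nonneg fun p _ => Real.log_natCast_nonneg p
    linarith
  have h3 := Chebyshev.theta_le_log4_mul_x hs
  have h4 : Real.log 4 ≤ 2 := by
    rw [Real.log_le_iff_le_exp (by norm_num)]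
    have := Real.quadratic_le_exp_of_nonneg (show (0 : ℝ) ≤ 2 by norm_num)
    linarith
  nlinarith

end Pool.Agent.Helper51.UG
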