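import Pool.Agent.Helper51.UG.Win

set_option autoImplicit false

/-!
Almost all members of products of families of nearly minimal additive energy: asymptotic formulas in all windows and
homothetic copies of all patterns inside arbitrary sets.
-/

namespace Pool.Agent.Helper51.UG

open Finset Filter
open Pool.Agent.TH935.TF (Gz om Adm Dist cn consA consB HW fam_sys sys_lam)
open Pool.Agent.H373R2.T7 (energy)

theorem energy_shift (h x : ℕ) (s : ℕ → ℤ) (c : ℤ) : energy h x (fun j => s j + c) = energy h x s := by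
  unfold energy
  congr 1
  apply filter_congr
  intro q _
  simp only [sum_add_distrib, sum_const, card_univ, Fintype.card_fin]
  constructor <;> intro h <;> linarith

/-- asymptotic formulas in all windows and homothetic copies inside arbitrary sets, for the forms `n, α_i n + β_i` -/
def Rich {k : ℕ} (K B A m : ℕ) (ε δ : ℝ) (N : ℕ) (β : Fin k → ℤ) : Prop :=
  ∀ α : Fin k → ℤ, (∀ i, α i ≠ 0 ∧ |α i| ≤ K) → Adm (consA α) (consB β) → Dist (consA α) (consB β) →
    ∃ S : ℝ, 0 < S ∧ Tendsto (fun z => Gz (om (consA α) (consB β)) (k + 1) z) atTop (nhds S) ∧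
    ∀ u X : ℕ, u + X ≤ B * N → (N : ℝ) / Real.log N ^ A ≤ X →
      |(cn (consA α) (consB β) u (u + X) : ℝ) - S * X / Real.log N ^ (k + 1)| ≤
        ε * (S * X / Real.log N ^ (k + 1)) ∧
      ((∀ i, ∀ n : ℕ, u < n → n ≤ u + 2 * X → α i * n + β i ≠ 0) →
       ∀ H D : ℕ, 1 ≤ H → (X : ℝ) ^ ε ≤ D → (D : ℝ) * H ≤ (X : ℝ) ^ (1 - ε) →
       ∀ P : Set ℕ, (∀ n ∈ P, u < n ∧ n ≤ u + X ∧ n.Prime ∧ ∀ i, (α i * (n : ℤ) + β i).natAbs.Prime) →
       ∀ T : Finset ℤ, T.card ≤ m → (∀ t ∈ T, |t| ≤ H) →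
        ({n : ℕ | n ∈ P ∧ (cps P T D n : ℝ) < (D : ℝ) ^ (1 - ε)}.ncard : ℝ) ≤
          δ * (cn (consA α) (consB β) u (u + X) : ℝ))

theorem rich_of (k K B A m : ℕ) (ε δ : ℝ) (hε : 0 < ε) (hε1 : ε < 1) (hδ : 0 < δ) :
    ∃ N₀ : ℕ, ∀ N : ℕ, N₀ ≤ N → ∀ β : Fin k → ℤ, (∀ i, |β i| ≤ B * N) → HW consA consB ε A B 1 N β →
      Rich K B A m ε δ N β := by
  obtain ⟨N₀, h0⟩ := typW (k + 1) (max K 1) B A m ε (1 - ε) δ (Nat.succ_pos k) hε hε1 (by linarith) hδ
  obtain ⟨N₁, h1⟩ := Pool.Agent.H373R2.T7.ev_L' K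
  refine ⟨max (max N₀ N₁) 3, fun N hN β hβ hHW α hα hadm hdist => ?_⟩
  have g0 : N₀ ≤ N := ((le_max_left _ _).trans (le_max_left _ _)).trans hN
  have g1 := h1 N (((le_max_right _ _).trans (le_max_left _ _)).trans hN)
  have g2 : 3 ≤ N := (le_max_right _ _).trans hN
  have hN3 : (3 : ℝ) ≤ N := by exact_mod_cast g2
  have hL : 0 < Real.log N := Real.log_pos (by linarith)
  obtain ⟨S, hS0, hS, hw⟩ := hHW α (fun i => (hα i).1) (fun i => by
    rw [pow_one]
    refine le_trans ?_ g1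
    have h2 := (hα i).2
    rw [Int.abs_eq_natAbs] at h2
    have h3 : (α i).natAbs ≤ K := by omega
    exact_mod_cast h3) hadm hdist
  refine ⟨S, hS0, hS, fun u X huX hX => ?_⟩
  have hc := hw u (u + X) (Nat.le_add_right _ _) huX (by
    push_cast
    linarith)
  have e1 : ((u + X : ℕ) : ℝ) - u = X := by
    push_cast
    ring
  rw [e1] at hc
  refine ⟨hc, fun hne H D hH hD hDH P hP T hTm hT => ?_⟩
  have b1 : ∀ i : Fin (k + 1), consA α i ≠ 0 ∧ |consA α i| ≤ (max K 1 : ℕ) ∧ |consB β i| ≤ B * N := by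
    intro i
    refine Fin.cases ?_ (fun j => ?_) i
    · unfold consA consB
      rw [Fin.cons_zero, Fin.cons_zero]
      refine ⟨one_ne_zero, ?_, ?_⟩
      · rw [abs_one]
        exact_mod_cast le_max_right K 1
      · rw [abs_zero]
        positivity
    · unfold consA consB
      rw [Fin.cons_succ, Fin.cons_succ]
      refine ⟨(hα j).1, (hα j).2.trans ?_, hβ j⟩
      exact_mod_cast le_max_left K 1
  have b2 : ∀ i : Fin (k + 1), ∀ n : ℕ, u < n → n ≤ u + 2 * X → consA α i * n + consB β i ≠ 0 := by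
    intro i
    refine Fin.cases ?_ (fun j => ?_) i
    · intro n hn _
      unfold consA consB
      rw [Fin.cons_zero, Fin.cons_zero, one_mul, add_zero]
      have : 0 < n := by omega
      exact_mod_cast this.ne'
    · unfold consA consB
      rw [Fin.cons_succ, Fin.cons_succ]
      exact hne j
  have b3 : ∀ n ∈ P, u < n ∧ n ≤ u + X ∧ ∀ i : Fin (k + 1), (consA α i * (n : ℤ) + consB β i).natAbs.Prime := by
    intro n hn
    refine ⟨(hP n hn).1, (hP n hn).2.1, fun i => ?_⟩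
    refine Fin.cases ?_ (fun j => ?_) i
    · unfold consA consB
      rw [Fin.cons_zero, Fin.cons_zero, one_mul, add_zero, Int.natAbs_natCast]
      exact (hP n hn).2.2.1
    · unfold consA consB
      rw [Fin.cons_succ, Fin.cons_succ]
      exact (hP n hn).2.2.2 j
  have b4 : (1 - ε) * (S * X / Real.log N ^ (k + 1)) ≤ (cn (consA α) (consB β) u (u + X) : ℝ) := by
    have h2 := (abs_le.1 hc).1
    linarith
  exact h0 N g0 (consA α) (consB β) b1 hadm hdist S hS u X huX hX b2 b4 H D hH hD hDH P b3 T hTm hT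

/-- **All but few vectors of constant terms near families of small energy are rich.** -/
theorem famW (k h K A B C D U m : ℕ) (hk : 1 ≤ k) (ε δ : ℝ) (hε : 0 < ε) (hε1 : ε < 1) (hδ : 0 < δ) :
    ∃ N₀ : ℕ, ∀ N : ℕ, N₀ ≤ N → ∀ (x : Fin k → ℕ) (s : Fin k → ℕ → ℤ),
      (∀ i, ∀ j ∈ Icc 1 (x i), |s i j| ≤ B * N) →
      (∀ i, (energy h (x i) (s i) : ℝ) * N ≤ Real.log N ^ C * (x i : ℝ) ^ (2 * h)) →
      ∀ 𝒮 : Finset (Fin k → ℕ), 𝒮 ⊆ Fintype.piFinset (fun i => Icc 1 (x i)) →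
      (∀ q ∈ 𝒮, ∃ β : Fin k → ℤ, (∀ i, |((β i - s i (q i) : ℤ) : ℝ)| ≤ Real.log N ^ D) ∧
        ¬ Rich K (B + 1) A m ε δ N β) →
      (𝒮.card : ℝ) ≤ (∏ i, (x i : ℝ)) / Real.log N ^ U := by
  classical
  obtain ⟨N₀, h0⟩ := fam_sys (sys_lam k hk) hk h A (B + 1) C 1 (U + (D + 1) * k) ε hε
  obtain ⟨N₁, h1⟩ := rich_of k K (B + 1) A m ε δ hε hε1 hδ
  obtain ⟨N₂, h2⟩ := Pool.Agent.H373R2.T7.ev_L' 3
  obtain ⟨N₃, h3⟩ := ev_logpow 1 D 1 (by norm_num)
  refine ⟨max (max N₀ N₁) (max N₂ N₃), fun N hN x s hs hE 𝒮 hSx hS => ?_⟩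
  have g0 : N₀ ≤ N := ((le_max_left _ _).trans (le_max_left _ _)).trans hN
  have g1 : N₁ ≤ N := ((le_max_right _ _).trans (le_max_left _ _)).trans hN
  have g2 := h2 N (((le_max_left _ _).trans (le_max_right _ _)).trans hN)
  have g3 := h3 N (((le_max_right _ _).trans (le_max_right _ _)).trans hN)
  rw [one_mul, Real.rpow_one] at g3
  set L : ℝ := Real.log N with hL
  have hL0 : 0 < L := by linarith
  set M : ℕ := ⌊L ^ D⌋₊ with hM
  have hMle : (M : ℝ) ≤ L ^ D := Nat.floor_le (by positivity)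
  have hMN : (M : ℤ) ≤ N := by
    have : (M : ℝ) ≤ N := hMle.trans g3
    exact_mod_cast this
  set J : Finset (Fin k → ℤ) := Fintype.piFinset (fun _ => Icc (-(M : ℤ)) M) with hJ
  have hJc : (J.card : ℝ) ≤ L ^ ((D + 1) * k) := by
    rw [hJ, Fintype.card_piFinset, prod_const, card_univ, Fintype.card_fin, Int.card_Icc]
    have e1 : ((M : ℤ) + 1 - -(M : ℤ)).toNat = 2 * M + 1 := by omega
    rw [e1, pow_mul]
    push_cast
    apply pow_le_pow_left₀ (by positivity)
    have e2 : (1 : ℝ) ≤ L ^ D := one_le_pow₀ (by linarith)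
    have e3 : L ^ (D + 1) = L * L ^ D := by ring
    nlinarith
  set E : (Fin k → ℤ) → Finset (Fin k → ℕ) := fun c =>
    𝒮.filter (fun q => ¬ HW consA consB ε A (B + 1) 1 N (fun i => s i (q i) + c i)) with hEdef
  have hEc : ∀ c ∈ J, ((E c).card : ℝ) ≤ (∏ i, (x i : ℝ)) / L ^ (U + (D + 1) * k) := by
    intro c hc
    rw [hJ, Fintype.mem_piFinset] at hc
    refine h0 N g0 x (fun i j => s i j + c i) (fun i j hj => ?_) (fun i => ?_) (E c)
      ((filter_subset _ _).trans hSx) (fun q hq => (mem_filter.1 hq).2)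
    · have e1 := hs i j hj
      have e2 := mem_Icc.1 (hc i)
      have e3 : |c i| ≤ N := by
        rw [abs_le]
        constructor <;> omega
      have e4 := abs_add_le (s i j) (c i)
      push_cast
      calc |s i j + c i| ≤ |s i j| + |c i| := e4
        _ ≤ B * N + N := add_le_add e1 e3
        _ = (B + 1) * N := by ring
    · rw [energy_shift]
      exact hE i
  have hcov : 𝒮 ⊆ J.biUnion E := by
    intro q hq
    obtain ⟨β, hβ, hnot⟩ := hS q hq
    have hcJ : (fun i => β i - s i (q i)) ∈ J := by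
      rw [hJ, Fintype.mem_piFinset]
      intro i
      have e1 := hβ i
      have e2 : ((β i - s i (q i)).natAbs : ℝ) ≤ L ^ D := by
        rw [Nat.cast_natAbs]
        exact_mod_cast e1
      have e3 : (β i - s i (q i)).natAbs ≤ M := Nat.le_floor e2
      show β i - s i (q i) ∈ Icc (-(M : ℤ)) M
      rw [mem_Icc]
      constructor <;> omega
    rw [mem_biUnion]
    refine ⟨fun i => β i - s i (q i), hcJ, ?_⟩
    rw [hEdef]
    refine mem_filter.2 ⟨hq, fun hHW => hnot ?_⟩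
    have e0 : (fun i => s i (q i) + (β i - s i (q i))) = β := by
      funext i
      ring
    rw [e0] at hHW
    refine h1 N g1 β (fun i => ?_) hHW
    have e1 := hs i (q i) (Fintype.mem_piFinset.1 (hSx hq) i)
    have e2 := mem_Icc.1 (Fintype.mem_piFinset.1 hcJ i)
    have e3 : |β i - s i (q i)| ≤ N := by
      rw [abs_le]
      constructor <;> omega
    have e4 := abs_add_le (s i (q i)) (β i - s i (q i))
    have e5 : s i (q i) + (β i - s i (q i)) = β i := by ring
    rw [e5] at e4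
    push_cast
    calc |β i| ≤ |s i (q i)| + |β i - s i (q i)| := e4
      _ ≤ B * N + N := add_le_add e1 e3
      _ = (B + 1) * N := by ring
  have hp0 : 0 ≤ ∏ i, (x i : ℝ) := prod_nonneg fun i _ => Nat.cast_nonneg _
  calc (𝒮.card : ℝ) ≤ ((J.biUnion E).card : ℝ) := by exact_mod_cast card_le_card hcov
    _ ≤ ∑ c ∈ J, ((E c).card : ℝ) := by exact_mod_cast card_biUnion_le
    _ ≤ ∑ _c ∈ J, (∏ i, (x i : ℝ)) / L ^ (U + (D + 1) * k) := sum_le_sum hEc
    _ = J.card * ((∏ i, (x i : ℝ)) / L ^ (U + (D + 1) * k)) := by rw [sum_const, nsmul_eq_mul]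
    _ ≤ L ^ ((D + 1) * k) * ((∏ i, (x i : ℝ)) / L ^ (U + (D + 1) * k)) :=
        mul_le_mul_of_nonneg_right hJc (by positivity)
    _ = (∏ i, (x i : ℝ)) / L ^ U := by
        rw [pow_add]
        field_simp

end Pool.Agent.Helper51.UG
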