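import Pool.Agent.Helper51.UG.Gold
import Pool.Graph.R_pool_sql_team_seeded_1acbe0a2.Y987.SZ.Low

/-!
# Positive proportions: forms `± n + b`
-/

set_option autoImplicit false

open Finset

namespace Pool.Agent.Helper51.UG

open Pool.Agent.Helper51.UD
open Pool.Agent.Helper51.UL
open Pool.Agent.Y880.RS (log_ev)
open Pool.Agent.Y677.RSZ (rt pig)

/-- the `n ∈ (u, u + X]` for which no prime `q ≤ z` divides one of the numbers `α_i n + β_i` -/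
def RG {κ : ℕ} (α β : Fin κ → ℤ) (z : ℝ) (u X : ℕ) : Set ℕ :=
  {n | u < n ∧ n ≤ u + X ∧ ∀ i, ∀ q : ℕ, q.Prime → (q : ℤ) ∣ α i * n + β i → z < q}

theorem per_mod {κ : ℕ} (α β : Fin κ → ℤ) {p : ℕ} (_hp : p.Prime) (n : ℕ) (i : Fin κ) :
    (p : ℤ) ∣ α i * n + β i ↔ (p : ℤ) ∣ α i * ((n % p : ℕ) : ℤ) + β i := by
  have h2 : α i * n + β i = (α i * ((n % p : ℕ) : ℤ) + β i) + p * (α i * (n / p : ℕ)) := by
    have h3 : ((n % p + p * (n / p) : ℕ) : ℤ) = n := by exact_mod_cast Nat.mod_add_div n p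
    push_cast at h3 ⊢
    linear_combination -(α i : ℤ) * h3
  rw [h2]
  exact (dvd_add_left (dvd_mul_right _ _))

theorem lowU (κ : ℕ) : ∃ (ϑ c : ℝ) (X₀ : ℕ), 0 < ϑ ∧ ϑ ≤ 1 ∧ 0 < c ∧ ∀ X u : ℕ, X₀ ≤ X →
    ∀ α β : Fin κ → ℤ, (∀ i, α i = 1 ∨ α i = -1) →
    (∀ p : ℕ, p.Prime → ∃ n : ℕ, ∀ i, ¬ (p : ℤ) ∣ α i * n + β i) →
    c * (X * VV (FZ α β) ⌊(X : ℝ) ^ ϑ⌋₊) ≤ ((RG α β ((X : ℝ) ^ ϑ) u X).ncard : ℝ) := by
  classical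
  obtain ⟨ϑ, c, X₀, hϑ0, hϑ1, hc, h⟩ := Pool.Agent.Y987.SZ.low κ
  refine ⟨ϑ, c, X₀, hϑ0, hϑ1, hc, fun X u hX α β hα hadm => ?_⟩
  obtain ⟨Z, hZ⟩ : ∃ Z : ℕ → Finset ℕ, ∀ p, Z p = (range p).filter (fun r : ℕ => (p : ℤ) ∣ FZ α β r) :=
    ⟨_, fun _ => rfl⟩
  have hZc : ∀ p, (Z p).card = rt (FZ α β) p := by
    intro p
    rw [hZ]
    rfl
  have hmem : ∀ p : ℕ, p.Prime → ∀ n : ℕ, (n % p ∈ Z p ↔ ∃ i, (p : ℤ) ∣ α i * n + β i) := by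
    intro p hp n
    rw [hZ, mem_filter, mem_range, FZ_dvd α β hp]
    constructor
    · rintro ⟨_, i, hi⟩
      exact ⟨i, (per_mod α β hp n i).2 hi⟩
    · rintro ⟨i, hi⟩
      exact ⟨Nat.mod_lt _ hp.pos, i, (per_mod α β hp n i).1 hi⟩
  have h1 := h X u hX Z (by
    intro p hp _
    refine ⟨?_, ?_, ?_⟩
    · rw [hZc]
      apply rt_leZ α β p hp
      intro i hi
      have h2 : (p : ℤ) ∣ 1 := by
        rcases hα i with h3 | h3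
        · rw [h3] at hi
          exact hi
        · rw [h3] at hi
          exact (dvd_neg).1 hi
      have h3 := Int.le_of_dvd one_pos h2
      have := hp.two_le
      omega
    · obtain ⟨n, hn⟩ := hadm p hp
      rw [hZ]
      refine lt_of_lt_of_eq (card_lt_card ?_) (card_range p)
      refine (filter_ssubset).2 ⟨n % p, mem_range.2 (Nat.mod_lt _ hp.pos), fun hd => ?_⟩
      rw [FZ_dvd α β hp] at hd
      obtain ⟨i, hi⟩ := hd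
      exact hn i ((per_mod α β hp n i).2 hi)
    · intro c hc
      rw [hZ, mem_filter, mem_range] at hc
      exact hc.1)
  have h2 : Pool.Agent.Y843.HS.VV Z 0 ⌊(X : ℝ) ^ ϑ⌋₊ = VV (FZ α β) ⌊(X : ℝ) ^ ϑ⌋₊ := by
    unfold Pool.Agent.Y843.HS.VV VV
    have h3 : Pool.Agent.Y843.HS.Pr 0 ⌊(X : ℝ) ^ ϑ⌋₊ =
        (Icc 1 ⌊(X : ℝ) ^ ϑ⌋₊).filter Nat.Prime := by
      unfold Pool.Agent.Y843.HS.Pr
      rfl
    rw [h3]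
    exact prod_congr rfl fun p _ => by rw [hZc]
  rw [h2] at h1
  refine h1.trans ?_
  rw [← Set.ncard_coe_finset]
  apply Nat.cast_le.2
  apply Set.ncard_le_ncard
  · intro n hn
    rw [coe_filter, Set.mem_ofPred_eq, mem_Ioc] at hn
    refine ⟨hn.1.1, hn.1.2, fun i q hq hqd => ?_⟩
    by_contra hcon
    push Not at hcon
    exact hn.2 q hq hcon ((hmem q hq n).2 ⟨i, hqd⟩)
  · exact (Set.finite_Icc 0 (u + X)).subset fun n hn => ⟨Nat.zero_le _, hn.2.1⟩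

/-- dense sets and positive proportions, for forms `± n + b` -/
theorem genU (κ : ℕ) : ∃ (ϑ c : ℝ), 0 < ϑ ∧ ϑ ≤ 1 ∧ 0 < c ∧ ∀ (C₀ k : ℕ) (ε : ℝ), 0 < ε → ε < 1 →
    ∃ X₀ : ℕ, ∀ X H D u : ℕ, X₀ ≤ X → u ≤ X ^ C₀ → 1 ≤ H → (X : ℝ) ^ ε ≤ D →
      (D : ℝ) * H ≤ (X : ℝ) ^ (1 - ε) → ∀ α β : Fin κ → ℤ, FormsOK 1 C₀ X u α β →
      (∀ p : ℕ, p.Prime → ∃ n : ℕ, ∀ i, ¬ (p : ℤ) ∣ α i * n + β i) →
      c * (X * VV (FZ α β) ⌊(X : ℝ) ^ ϑ⌋₊) ≤ ((RG α β ((X : ℝ) ^ ϑ) u X).ncard : ℝ) ∧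
      ∀ T : Finset ℤ, T.card ≤ k → (∀ t ∈ T, |t| ≤ H) →
        c * (X * VV (FZ α β) ⌊(X : ℝ) ^ ϑ⌋₊) ≤
          ({n : ℕ | n ∈ RG α β ((X : ℝ) ^ ϑ) u X ∧
            (D : ℝ) ^ (1 - ε) ≤ (cps (RG α β ((X : ℝ) ^ ϑ) u X) T D n : ℝ)}.ncard : ℝ) := by
  classical
  obtain ⟨ϑ, c, X₁, hϑ0, hϑ1, hc, hlow⟩ := lowU κ
  refine ⟨ϑ, c / 2, hϑ0, hϑ1, by positivity, fun C₀ k ε hε hε1 => ?_⟩
  obtain ⟨X₂, hX₂⟩ := ptSetU κ 1 (C₀ + 1) k ε (ϑ / 2) (c / 2) hε hε1 (by positivity) (by positivity)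
  obtain ⟨X₃, hX₃⟩ := ev_rpow 2 (ϑ / 2) (by positivity)
  refine ⟨max (max X₁ X₂) (max X₃ 1), fun X H D u hX huX hH hD hDH α β hf hadm => ?_⟩
  have g1 : X₁ ≤ X := ((le_max_left _ _).trans (le_max_left _ _)).trans hX
  have g2 : X₂ ≤ X := ((le_max_right _ _).trans (le_max_left _ _)).trans hX
  have g3 := hX₃ X (((le_max_left _ _).trans (le_max_right _ _)).trans hX)
  have g4 : 1 ≤ X := ((le_max_right _ _).trans (le_max_right _ _)).trans hX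
  have hX1 : (1 : ℝ) ≤ X := by exact_mod_cast g4
  have hX0 : (0 : ℝ) < X := by linarith
  have hα : ∀ i, α i = 1 ∨ α i = -1 := by
    intro i
    obtain ⟨h1, h2, _⟩ := hf.1 i
    have h3 := abs_le.1 h2
    push_cast at h3
    omega
  have h1 := hlow X u g1 α β hα hadm
  have hVnn := VV_nn (FZ α β) ⌊(X : ℝ) ^ ϑ⌋₊
  have hle : c / 2 * (X * VV (FZ α β) ⌊(X : ℝ) ^ ϑ⌋₊) ≤ c * (X * VV (FZ α β) ⌊(X : ℝ) ^ ϑ⌋₊) :=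
    mul_le_mul_of_nonneg_right (by linarith) (by positivity)
  refine ⟨hle.trans h1, fun T hTk hT => ?_⟩
  have hmono : ∀ a b : ℕ, a ≤ b → X ^ a ≤ X ^ b := fun a b h => Nat.pow_le_pow_right g4 h
  have h2 := hX₂ X H D u ⌊(X : ℝ) ^ ϑ⌋₊ g2 (huX.trans (hmono _ _ (Nat.le_succ _))) (by
      have e1 : (X : ℝ) ^ ϑ = (X : ℝ) ^ (ϑ / 2) * (X : ℝ) ^ (ϑ / 2) := by
        rw [← Real.rpow_add hX0]
        congr 1
        ring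
      have e2 : (X : ℝ) ^ ϑ < (⌊(X : ℝ) ^ ϑ⌋₊ : ℝ) + 1 := Nat.lt_floor_add_one _
      nlinarith)
    (by
      have e1 : (⌊(X : ℝ) ^ ϑ⌋₊ : ℝ) ≤ X := by
        refine (Nat.floor_le (by positivity)).trans ?_
        calc (X : ℝ) ^ ϑ ≤ (X : ℝ) ^ (1 : ℝ) := Real.rpow_le_rpow_of_exponent_le hX1 hϑ1
          _ = X := Real.rpow_one _
      have e2 : ⌊(X : ℝ) ^ ϑ⌋₊ ≤ X := by exact_mod_cast e1
      exact e2.trans (Nat.le_self_pow (Nat.succ_ne_zero _) X))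
    hH hD hDH α β (by
      refine ⟨fun i => ⟨(hf.1 i).1, (hf.1 i).2.1, (hf.1 i).2.2.trans ?_⟩, hf.2.1, hf.2.2⟩
      exact_mod_cast hmono _ _ (Nat.le_succ C₀))
    (RG α β ((X : ℝ) ^ ϑ) u X) (by
      intro n hn
      refine ⟨hn.1, hn.2.1, fun i q hq hqd => ?_⟩
      exact (Nat.floor_lt (by positivity)).2 (hn.2.2 i q hq hqd)) T hTk hT
  obtain ⟨G, hG⟩ : ∃ G, G = RG α β ((X : ℝ) ^ ϑ) u X := ⟨_, rfl⟩
  rw [← hG] at h1 h2 ⊢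
  have hGfin : G.Finite := by
    rw [hG]
    exact (Set.finite_Icc 0 (u + X)).subset fun n hn => ⟨Nat.zero_le _, hn.2.1⟩
  have hsub : G ⊆ {m : ℕ | m ∈ G ∧ (D : ℝ) ^ (1 - ε) ≤ (cps G T D m : ℝ)} ∪
      {m : ℕ | m ∈ G ∧ (cps G T D m : ℝ) < (D : ℝ) ^ (1 - ε)} := by
    intro m hm
    by_cases h5 : (D : ℝ) ^ (1 - ε) ≤ (cps G T D m : ℝ)
    · exact Or.inl ⟨hm, h5⟩
    · exact Or.inr ⟨hm, not_le.1 h5⟩
  have hc3 := (Set.ncard_le_ncard hsub ((hGfin.subset fun m hm => hm.1).union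
    (hGfin.subset fun m hm => hm.1))).trans (Set.ncard_union_le _ _)
  have hc4 : (G.ncard : ℝ) ≤ ({m : ℕ | m ∈ G ∧ (D : ℝ) ^ (1 - ε) ≤ (cps G T D m : ℝ)}.ncard : ℝ) +
      ({m : ℕ | m ∈ G ∧ (cps G T D m : ℝ) < (D : ℝ) ^ (1 - ε)}.ncard : ℝ) := by
    exact_mod_cast hc3
  have h6 : c * (X * VV (FZ α β) ⌊(X : ℝ) ^ ϑ⌋₊) = c / 2 * (X * VV (FZ α β) ⌊(X : ℝ) ^ ϑ⌋₊) +
      c / 2 * (X * VV (FZ α β) ⌊(X : ℝ) ^ ϑ⌋₊) := by ring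
  linarith

end Pool.Agent.Helper51.UG
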