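import Pool.Agent.Helper51.UG.ManyU

/-!
# Goldbach representations: homothetic copies
-/

set_option autoImplicit false

open Finset

namespace Pool.Agent.Helper51.UG

open Pool.Agent.Helper51.UD
open Pool.Agent.Helper51.UL
open Pool.Agent.Y880.RS (log_ev)
open Pool.Agent.Y677.RSZ (rt pig)

theorem mert_up : ∃ C : ℝ, 0 < C ∧ ∀ y : ℕ, 3 ≤ y →
    ∏ p ∈ (Icc 1 y).filter Nat.Prime, (1 - 1 / (p : ℝ)) ≤ C / Real.log y := by
  obtain ⟨C, hC⟩ := Pool.Agent.Helper256.KM.mertens_inv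
  refine ⟨Real.exp C, Real.exp_pos _, fun y hy => ?_⟩
  have hy3 : (3 : ℝ) ≤ y := by exact_mod_cast hy
  have hlog : 0 < Real.log y := Real.log_pos (by linarith)
  have h1 := (abs_le.1 (hC y hy)).1
  calc ∏ p ∈ (Icc 1 y).filter Nat.Prime, (1 - 1 / (p : ℝ))
      ≤ ∏ p ∈ (Icc 1 y).filter Nat.Prime, Real.exp (-(1 / (p : ℝ))) := by
        apply prod_le_prod
        · intro p hp
          rw [mem_filter] at hp
          have h2 : (2 : ℝ) ≤ p := by exact_mod_cast hp.2.two_le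
          have : 1 / (p : ℝ) ≤ 1 / 2 := one_div_le_one_div_of_le (by norm_num) h2
          linarith
        · intro p _
          have := Real.add_one_le_exp (-(1 / (p : ℝ)))
          linarith
    _ = Real.exp (-∑ p ∈ (Icc 1 y).filter Nat.Prime, 1 / (p : ℝ)) := by
        rw [← Real.exp_sum, sum_neg_distrib]
    _ ≤ Real.exp (C - Real.log (Real.log y)) := by
        apply Real.exp_le_exp.2
        linarith
    _ = Real.exp C / Real.log y := by rw [Real.exp_sub, Real.exp_log hlog]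

theorem one_le_prodR {ι : Type} (s : Finset ι) (f : ι → ℝ) (h : ∀ i ∈ s, 1 ≤ f i) :
    1 ≤ ∏ i ∈ s, f i :=
  prod_induction f (fun x => 1 ≤ x) (fun _ _ ha hb => one_le_mul_of_one_le_of_one_le ha hb) le_rfl h

/-- the variable part of the singular series -/
noncomputable def sgN (N : ℕ) : ℝ :=
  ∏ p ∈ N.primeFactors.erase 2, (((p : ℝ) - 1) / ((p : ℝ) - 2))

theorem fac_ge {p : ℕ} (hp : p.Prime) (h2 : p ≠ 2) : 1 ≤ ((p : ℝ) - 1) / ((p : ℝ) - 2) := by
  have h3 : (3 : ℝ) ≤ p := by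
    have := hp.two_le
    have : 3 ≤ p := by omega
    exact_mod_cast this
  rw [one_le_div (by linarith)]
  linarith

theorem sgN_ge (N : ℕ) : 1 ≤ sgN N := by
  unfold sgN
  apply one_le_prodR
  intro p hp
  rw [mem_erase] at hp
  exact fac_ge (Nat.prime_of_mem_primeFactors hp.2) hp.1

/-- an upper bound for a sieve product of two forms -/
theorem VV_two : ∃ C : ℝ, 0 < C ∧ ∀ (F : ℤ → ℤ) (M y : ℕ), M ≠ 0 → 3 ≤ y → 2 ∣ M →
    (∀ p : ℕ, p.Prime → p ∣ M → 1 ≤ rt F p) → (∀ p : ℕ, p.Prime → ¬ p ∣ M → 2 ≤ rt F p) →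
    VV F y ≤ C * (sgN M / Real.log y ^ 2) := by
  classical
  obtain ⟨C, hC, hm⟩ := mert_up
  refine ⟨2 * C ^ 2, by positivity, ?_⟩
  intro F M y hM hy h2M h1 h2
  have hy3 : (3 : ℝ) ≤ y := by exact_mod_cast hy
  have hlog : 0 < Real.log y := Real.log_pos (by linarith)
  obtain ⟨PP, hPP⟩ : ∃ PP, PP = (Icc 1 y).filter Nat.Prime := ⟨_, rfl⟩
  have hmy := hm y hy
  rw [← hPP] at hmy
  have hprime : ∀ p ∈ PP, p.Prime := by
    intro p hp
    rw [hPP, mem_filter] at hp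
    exact hp.2
  let w : ℕ → ℝ := fun p => if p = 2 then 2 else if p ∣ M then ((p : ℝ) - 1) / ((p : ℝ) - 2) else 1
  have hw1 : ∀ p : ℕ, p.Prime → 1 ≤ w p := by
    intro p hp
    simp only [w]
    split_ifs with e1 e2
    · norm_num
    · exact fac_ge hp e1
    · exact le_rfl
  have hfac : ∀ p ∈ PP, 1 - (rt F p : ℝ) / p ≤ (1 - 1 / (p : ℝ)) ^ 2 * w p := by
    intro p hp
    have hpp := hprime p hp
    have hp0 : (0 : ℝ) < p := by exact_mod_cast hpp.pos
    simp only [w]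
    split_ifs with e1 e2
    · have h3 : (1 : ℝ) ≤ rt F p := by
        exact_mod_cast h1 p hpp (by rw [e1]; exact h2M)
      subst e1
      push_cast
      have : (1 : ℝ) / 2 ≤ (rt F 2 : ℝ) / 2 := div_le_div_of_nonneg_right h3 (by norm_num)
      linarith
    · have h3 : (1 : ℝ) ≤ rt F p := by exact_mod_cast h1 p hpp e2
      have h4 : (3 : ℝ) ≤ p := by
        have := hpp.two_le
        have : 3 ≤ p := by omega
        exact_mod_cast this
      have h5 : 1 / (p : ℝ) ≤ (rt F p : ℝ) / p := div_le_div_of_nonneg_right h3 hp0.le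
      have h6 : (1 - 1 / (p : ℝ)) ≤ (1 - 1 / (p : ℝ)) ^ 2 * (((p : ℝ) - 1) / ((p : ℝ) - 2)) := by
        have h7 : (0 : ℝ) < (p : ℝ) - 2 := by linarith
        have h8 : (1 - 1 / (p : ℝ)) ^ 2 * (((p : ℝ) - 1) / ((p : ℝ) - 2)) - (1 - 1 / (p : ℝ)) =
            ((p : ℝ) - 1) / (p ^ 2 * ((p : ℝ) - 2)) := by
          field_simp
          ring
        have h9 : 0 ≤ ((p : ℝ) - 1) / (p ^ 2 * ((p : ℝ) - 2)) := by
          have : (0 : ℝ) ≤ (p : ℝ) - 1 := by linarith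
          positivity
        linarith
      linarith
    · have h3 : (2 : ℝ) ≤ rt F p := by exact_mod_cast h2 p hpp e2
      have h5 : 2 / (p : ℝ) ≤ (rt F p : ℝ) / p := div_le_div_of_nonneg_right h3 hp0.le
      have h6 : (1 - 1 / (p : ℝ)) ^ 2 = 1 - 2 / p + 1 / p ^ 2 := by ring
      have h7 : (0 : ℝ) ≤ 1 / p ^ 2 := by positivity
      rw [mul_one, h6]
      linarith
  have hstep : VV F y ≤ (∏ p ∈ PP, (1 - 1 / (p : ℝ))) ^ 2 * ∏ p ∈ PP, w p := by
    rw [← prod_pow, ← prod_mul_distrib]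
    unfold VV
    rw [← hPP]
    exact prod_le_prod (fun p _ => one_sub_nn F p) hfac
  have hw : ∏ p ∈ PP, w p ≤ 2 * sgN M := by
    obtain ⟨S, hS⟩ : ∃ S, S = insert 2 (M.primeFactors.erase 2) := ⟨_, rfl⟩
    have hSM : ∀ p, p.Prime → (p ∈ S ↔ p ∣ M) := by
      intro p hp
      rw [hS, mem_insert, mem_erase, Nat.mem_primeFactors]
      constructor
      · rintro (h | ⟨_, _, h, _⟩)
        · rw [h]; exact h2M
        · exact h
      · intro h
        by_cases e : p = 2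
        · exact Or.inl e
        · exact Or.inr ⟨e, hp, h, hM⟩
    have hSw : ∏ p ∈ S, w p = 2 * sgN M := by
      rw [hS, prod_insert (notMem_erase _ _)]
      unfold sgN
      congr 1
      refine prod_congr rfl fun p hp => ?_
      rw [mem_erase, Nat.mem_primeFactors] at hp
      simp only [w]
      rw [if_neg hp.1, if_pos hp.2.2.1]
    have hSp : ∀ p ∈ S, p.Prime := by
      intro p hp
      rw [hS, mem_insert, mem_erase] at hp
      rcases hp with rfl | h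
      · exact Nat.prime_two
      · exact Nat.prime_of_mem_primeFactors h.2
    have e1 : ∏ p ∈ PP, w p = ∏ p ∈ PP.filter (· ∈ S), w p := by
      rw [← prod_filter_mul_prod_filter_not PP (· ∈ S)]
      rw [prod_eq_one (s := PP.filter (fun p => ¬ p ∈ S)), mul_one]
      intro p hp
      rw [mem_filter] at hp
      have hpp := hprime p hp.1
      have h3 : ¬ p ∣ M := fun h => hp.2 ((hSM p hpp).2 h)
      have h4 : p ≠ 2 := fun h => h3 (by rw [h]; exact h2M)
      simp only [w]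
      rw [if_neg h4, if_neg h3]
    have e2 : ∏ p ∈ S, w p = (∏ p ∈ S.filter (· ∈ PP), w p) * ∏ p ∈ S.filter (¬ · ∈ PP), w p :=
      (prod_filter_mul_prod_filter_not S (· ∈ PP) w).symm
    have e3 : PP.filter (· ∈ S) = S.filter (· ∈ PP) := by
      ext p
      simp only [mem_filter]
      tauto
    rw [e1, e3, ← hSw, e2]
    have e4 : 1 ≤ ∏ p ∈ S.filter (¬ · ∈ PP), w p := by
      apply one_le_prodR
      intro p hp
      rw [mem_filter] at hp
      exact hw1 p (hSp p hp.1)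
    have e5 : 0 ≤ ∏ p ∈ S.filter (· ∈ PP), w p := by
      apply prod_nonneg
      intro p hp
      rw [mem_filter] at hp
      have := hw1 p (hSp p hp.1)
      linarith
    exact le_mul_of_one_le_right e5 e4
  have hprodnn : 0 ≤ ∏ p ∈ PP, (1 - 1 / (p : ℝ)) := by
    apply prod_nonneg
    intro p hp
    have h2 : (2 : ℝ) ≤ p := by exact_mod_cast (hprime p hp).two_le
    have : 1 / (p : ℝ) ≤ 1 / 2 := one_div_le_one_div_of_le (by norm_num) h2
    linarith
  have hwnn : 0 ≤ ∏ p ∈ PP, w p := by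
    apply prod_nonneg
    intro p hp
    have := hw1 p (hprime p hp)
    linarith
  calc VV F y ≤ (∏ p ∈ PP, (1 - 1 / (p : ℝ))) ^ 2 * ∏ p ∈ PP, w p := hstep
    _ ≤ (C / Real.log y) ^ 2 * (2 * sgN M) :=
        mul_le_mul (pow_le_pow_left₀ hprodnn hmy 2) hw hwnn (by positivity)
    _ = 2 * C ^ 2 * (sgN M / Real.log y ^ 2) := by
        rw [div_pow]
        ring

theorem FZ_gold (N : ℕ) (n : ℤ) : FZ ![1, -1] ![0, (N : ℤ)] n = n * (N - n) := by
  unfold FZ
  rw [Fin.prod_univ_two]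
  simp only [Matrix.cons_val_zero, Matrix.cons_val_one]
  ring

theorem rt_gold (N p : ℕ) (hp : p.Prime) :
    1 ≤ rt (FZ ![1, -1] ![0, (N : ℤ)]) p ∧ (¬ p ∣ N → 2 ≤ rt (FZ ![1, -1] ![0, (N : ℤ)]) p) := by
  classical
  unfold rt
  have h0 : 0 ∈ (range p).filter (fun r : ℕ => (p : ℤ) ∣ FZ ![1, -1] ![0, (N : ℤ)] r) := by
    rw [mem_filter, mem_range, FZ_gold]
    exact ⟨hp.pos, by simp⟩
  refine ⟨card_pos.2 ⟨0, h0⟩, fun hpN => ?_⟩
  have h1 : N % p ∈ (range p).filter (fun r : ℕ => (p : ℤ) ∣ FZ ![1, -1] ![0, (N : ℤ)] r) := by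
    rw [mem_filter, mem_range, FZ_gold]
    refine ⟨Nat.mod_lt _ hp.pos, ?_⟩
    have h2 : (p : ℤ) ∣ (N : ℤ) - ((N % p : ℕ) : ℤ) := by
      refine ⟨((N / p : ℕ) : ℤ), ?_⟩
      have := Nat.mod_add_div N p
      have h3 : ((N % p + p * (N / p) : ℕ) : ℤ) = N := by exact_mod_cast this
      push_cast at h3 ⊢
      linarith
    exact h2.mul_left _
  have h2 : (0 : ℕ) ≠ N % p := fun h => hpN (Nat.dvd_of_mod_eq_zero h.symm)
  have h3 : ({0, N % p} : Finset ℕ) ⊆
      (range p).filter (fun r : ℕ => (p : ℤ) ∣ FZ ![1, -1] ![0, (N : ℤ)] r) := by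
    intro r hr
    rw [mem_insert, mem_singleton] at hr
    rcases hr with rfl | rfl
    · exact h0
    · exact h1
  have h4 := card_le_card h3
  rwa [card_pair h2] at h4

theorem goldPt (k : ℕ) (ε θ ζ δ : ℝ) (hε : 0 < ε) (hε1 : ε < 1) (hθ : 0 < θ) (hζ : 0 < ζ)
    (hδ : 0 < δ) :
    ∃ N₀ : ℕ, ∀ N : ℕ, N₀ ≤ N → Even N → ∀ X u : ℕ, (N : ℝ) ^ θ ≤ X → u + 2 * X < N →
      ∀ H D : ℕ, 1 ≤ H → (X : ℝ) ^ ε ≤ D → (D : ℝ) * H ≤ (X : ℝ) ^ (1 - ε) →
      ∀ A : Set ℕ, (∀ m ∈ A, u < m ∧ m ≤ u + X ∧ ∀ q : ℕ, q.Prime → (q ∣ m ∨ q ∣ N - m) →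
        (N : ℝ) ^ ζ < q) →
      ∀ T : Finset ℤ, T.card ≤ k → (∀ t ∈ T, |t| ≤ H) →
        ({m : ℕ | m ∈ A ∧ (cps A T D m : ℝ) < (D : ℝ) ^ (1 - ε)}.ncard : ℝ) ≤
          δ * (sgN N * (X / Real.log N ^ 2)) := by
  classical
  obtain ⟨ζ', hζ'⟩ : ∃ ζ', ζ' = min ζ 1 := ⟨_, rfl⟩
  have hζ'0 : 0 < ζ' := by rw [hζ']; exact lt_min hζ one_pos
  have hζ'1 : ζ' ≤ 1 := by rw [hζ']; exact min_le_right _ _
  have hζ'ζ : ζ' ≤ ζ := by rw [hζ']; exact min_le_left _ _
  obtain ⟨C, hC, hV⟩ := VV_two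
  obtain ⟨C₀, hC₀⟩ : ∃ C₀, C₀ = ⌈1 / θ⌉₊ := ⟨_, rfl⟩
  have hC₀1 : 1 / θ ≤ (C₀ : ℝ) := by rw [hC₀]; exact Nat.le_ceil _
  obtain ⟨X₀, hX₀⟩ := ptSetU 2 1 C₀ k ε (ζ' / 2) (δ * ζ' ^ 2 / (4 * C)) hε hε1 (by positivity)
    (by positivity)
  obtain ⟨N₁, hN₁⟩ := ev_rpow X₀ θ hθ
  obtain ⟨N₂, hN₂⟩ := ev_rpow 4 (ζ' / 2) (by positivity)
  refine ⟨max (max N₁ N₂) 3, fun N hN hev X u hX hu H D hH hD hDH A hA T hTk hT => ?_⟩
  have h1 := hN₁ N (((le_max_left _ _).trans (le_max_left _ _)).trans hN)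
  have h2 := hN₂ N (((le_max_right _ _).trans (le_max_left _ _)).trans hN)
  have hN3 : 3 ≤ N := (le_max_right _ _).trans hN
  have hN1r : (1 : ℝ) ≤ N := by
    have : 1 ≤ N := by omega
    exact_mod_cast this
  have hN0r : (0 : ℝ) < N := by linarith
  have hXX₀ : X₀ ≤ X := by exact_mod_cast h1.trans hX
  have hXN : X ≤ N := by omega
  have hXNr : (X : ℝ) ≤ N := by exact_mod_cast hXN
  have hX0 : (0 : ℝ) < X := lt_of_lt_of_le (by positivity) hX
  -- `N` is at most a power of `X`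
  have hX1 : (1 : ℝ) ≤ X := (Real.one_le_rpow hN1r hθ.le).trans hX
  have hNX : (N : ℝ) ≤ (X : ℝ) ^ C₀ := by
    calc (N : ℝ) = ((N : ℝ) ^ θ) ^ (1 / θ) := by
          rw [← Real.rpow_mul hN0r.le, mul_one_div_cancel hθ.ne', Real.rpow_one]
      _ ≤ (X : ℝ) ^ (1 / θ) := Real.rpow_le_rpow (by positivity) hX (by positivity)
      _ ≤ (X : ℝ) ^ (C₀ : ℝ) := Real.rpow_le_rpow_of_exponent_le hX1 hC₀1
      _ = (X : ℝ) ^ C₀ := Real.rpow_natCast _ _
  have hNX' : N ≤ X ^ C₀ := by exact_mod_cast hNX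
  -- the number `y`
  obtain ⟨y, hy⟩ : ∃ y, y = ⌊(N : ℝ) ^ ζ'⌋₊ := ⟨_, rfl⟩
  have hyle : (y : ℝ) ≤ (N : ℝ) ^ ζ' := by rw [hy]; exact Nat.floor_le (by positivity)
  have hyge : (N : ℝ) ^ (ζ' / 2) ≤ y := by
    have e1 : (N : ℝ) ^ ζ' = (N : ℝ) ^ (ζ' / 2) * (N : ℝ) ^ (ζ' / 2) := by
      rw [← Real.rpow_add hN0r]
      congr 1
      ring
    have e2 : (N : ℝ) ^ ζ' < y + 1 := by rw [hy]; exact Nat.lt_floor_add_one _
    nlinarith
  have hy3 : 3 ≤ y := by
    have : (3 : ℝ) ≤ y := by linarith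
    exact_mod_cast this
  have hyX : y ≤ X ^ C₀ := by
    refine le_trans ?_ hNX'
    have e1 : (y : ℝ) ≤ N := by
      refine hyle.trans ?_
      calc (N : ℝ) ^ ζ' ≤ (N : ℝ) ^ (1 : ℝ) := Real.rpow_le_rpow_of_exponent_le hN1r hζ'1
        _ = N := Real.rpow_one _
    exact_mod_cast e1
  have hXy : (X : ℝ) ^ (ζ' / 2) ≤ y :=
    (Real.rpow_le_rpow hX0.le hXNr (by positivity)).trans hyge
  have hf : FormsOK 1 C₀ X u ![1, -1] ![0, (N : ℤ)] := by
    refine ⟨?_, ?_, ?_⟩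
    · have e1 : (N : ℤ) ≤ (X : ℤ) ^ C₀ := by exact_mod_cast hNX'
      intro i
      fin_cases i
      · simp
      · simp
        exact_mod_cast e1
    · have e1 : (N : ℤ) ≠ 0 := by
        have : N ≠ 0 := by omega
        exact_mod_cast this
      intro i j hij
      fin_cases i <;> fin_cases j
      · exact absurd rfl hij
      · simpa using e1.symm
      · simpa using e1
      · exact absurd rfl hij
    · intro i n hn1 hn2
      fin_cases i
      · simp
        omega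
      · simp
        omega
  have hmain := hX₀ X H D u y hXX₀ (by omega) hXy hyX hH hD hDH _ _ hf A (by
    intro n hn
    obtain ⟨e1, e2, e3⟩ := hA n hn
    refine ⟨e1, e2, fun i q hq hqd => ?_⟩
    have e4 : (q : ℝ) > (N : ℝ) ^ ζ := by
      apply e3 q hq
      fin_cases i
      · left
        simp at hqd
        exact_mod_cast hqd
      · right
        simp at hqd
        have e5 : ((N - n : ℕ) : ℤ) = -(n : ℤ) + N := by
          rw [Nat.cast_sub (by omega)]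
          ring
        rw [← e5] at hqd
        exact Int.natCast_dvd_natCast.1 hqd
    have e5 : (y : ℝ) < q := by
      refine lt_of_le_of_lt (hyle.trans ?_) e4
      exact Real.rpow_le_rpow_of_exponent_le hN1r hζ'ζ
    exact_mod_cast e5) T hTk hT
  refine hmain.trans ?_
  have hVy := hV (FZ ![1, -1] ![0, (N : ℤ)]) N y (by omega) hy3 hev.two_dvd
    (fun p hp _ => (rt_gold N p hp).1) (fun p hp hpN => (rt_gold N p hp).2 hpN)
  have hlogN : 0 < Real.log N := Real.log_pos (by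
    have : (3 : ℝ) ≤ N := by exact_mod_cast hN3
    linarith)
  have hlogy : ζ' / 2 * Real.log N ≤ Real.log y := by
    rw [← Real.log_rpow hN0r]
    exact Real.log_le_log (by positivity) hyge
  have hsg := sgN_ge N
  calc δ * ζ' ^ 2 / (4 * C) * (X * VV (FZ ![1, -1] ![0, (N : ℤ)]) y)
      ≤ δ * ζ' ^ 2 / (4 * C) * (X * (C * (sgN N / (ζ' / 2 * Real.log N) ^ 2))) := by
        apply mul_le_mul_of_nonneg_left _ (by positivity)
        apply mul_le_mul_of_nonneg_left _ hX0.le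
        refine hVy.trans ?_
        apply mul_le_mul_of_nonneg_left _ hC.le
        apply div_le_div_of_nonneg_left (by linarith) (by positivity)
        exact pow_le_pow_left₀ (by positivity) hlogy 2
    _ = δ * (sgN N * (X / Real.log N ^ 2)) := by
        field_simp
        ring

end Pool.Agent.Helper51.UG
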