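import Pool.Agent.Helper51.UG.Pair

set_option autoImplicit false

/-!
The Goldbach problem for the even multiples of the moduli near the members of families of small energy.
-/

namespace Pool.Agent.Helper51.UG

open Finset Filter
open Pool.Agent.TH935.TF (consA consB)
open Pool.Agent.H373R2.T7 (energy)

/-- the primes `p` of the window `(u, u + X]` for which `n - p` is a prime -/
def GW (n u X : ℕ) : Set ℕ := {p | u < p ∧ p ≤ u + X ∧ p.Prime ∧ (n - p).Prime}

/-- lower bounds in the windows and homothetic copies inside arbitrary sets of Goldbach representations -/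
def GoldReg (c : ℝ) (A m : ℕ) (ε δ : ℝ) (n : ℕ) : Prop :=
  ∀ u X : ℕ, (n : ℝ) / Real.log n ^ A ≤ X → u + 2 * X < n →
    c * (X / Real.log n ^ 2) ≤ ((GW n u X).ncard : ℝ) ∧
    ∀ H D : ℕ, 1 ≤ H → (X : ℝ) ^ ε ≤ D → (D : ℝ) * H ≤ (X : ℝ) ^ (1 - ε) →
      ∀ P ⊆ GW n u X, ∀ T : Finset ℤ, T.card ≤ m → (∀ t ∈ T, |t| ≤ H) →
        ({p : ℕ | p ∈ P ∧ (cps P T D p : ℝ) < (D : ℝ) ^ (1 - ε)}.ncard : ℝ) ≤
          δ * ((GW n u X).ncard : ℝ)

theorem GoldReg.mono {c : ℝ} {A A' m : ℕ} {ε δ : ℝ} {n : ℕ} (h : GoldReg c A' m ε δ n) (hA : A ≤ A')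
    (hn : 1 ≤ Real.log n) : GoldReg c A m ε δ n := by
  intro u X hX huX
  refine h u X (le_trans ?_ hX) huX
  gcongr

theorem pv_gold (n u X : ℕ) (h : u + X < n) :
    PV (fun _ : Fin 1 => (-1 : ℤ)) (fun _ => (n : ℤ)) u X = GW n u X := by
  ext p
  unfold PV GW
  constructor
  · rintro ⟨h1, h2, h3, h4⟩
    have h5 := h4 0
    have e1 : (-1 : ℤ) * (p : ℤ) + n = ((n - p : ℕ) : ℤ) := by
      rw [Nat.cast_sub (by omega)]
      ring
    rw [e1, Int.natAbs_natCast] at h5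
    exact ⟨h1, h2, h3, h5⟩
  · rintro ⟨h1, h2, h3, h4⟩
    refine ⟨h1, h2, h3, fun _ => ?_⟩
    have e1 : (-1 : ℤ) * (p : ℤ) + n = ((n - p : ℕ) : ℤ) := by
      rw [Nat.cast_sub (by omega)]
      ring
    rw [e1, Int.natAbs_natCast]
    exact h4

theorem energy_mul (h x : ℕ) (v : ℕ → ℤ) (w : ℤ) (hw : w ≠ 0) : energy h x (fun j => w * v j) = energy h x v := by
  unfold energy
  congr 1
  apply filter_congr
  intro q _
  simp only [← mul_sum]
  constructor
  · intro h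
    exact mul_left_cancel₀ hw h
  · intro h
    rw [h]

/-- from `Rich` to the Goldbach representations -/
theorem gold_of : ∃ c : ℝ, 0 < c ∧ ∀ (A m : ℕ) (ε δ : ℝ), 0 < ε → ε ≤ 1 / 2 → ∃ N₁ : ℕ, ∀ N n : ℕ, N₁ ≤ N →
    Even n → n ≤ 2 * N → (N : ℝ) ≤ n * Real.log N ^ (2 * A + 1) → Rich 1 2 (3 * A + 2) m ε δ N (fun _ : Fin 1 => (n : ℤ)) →
    GoldReg c A m ε δ n := by
  obtain ⟨c, hc, hpair⟩ := pair
  refine ⟨c / 4, by positivity, fun A m ε δ hε hε1 => ?_⟩
  obtain ⟨N₀, h0⟩ := ev_logpow 1 (2 * A + 1) (1 / 2) (by norm_num)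
  obtain ⟨N₂, h2⟩ := Pool.Agent.H373R2.T7.ev_L' (2 ^ A + 2)
  refine ⟨max (max N₀ N₂) 4, fun N n hN hev hnN hNn hR u X hX huX => ?_⟩
  have g0 := h0 N (((le_max_left _ _).trans (le_max_left _ _)).trans hN)
  have g2 := h2 N (((le_max_right _ _).trans (le_max_left _ _)).trans hN)
  have g4 : 4 ≤ N := (le_max_right _ _).trans hN
  have hN4 : (4 : ℝ) ≤ N := by exact_mod_cast g4
  have hN0 : (0 : ℝ) < N := by linarith
  rw [one_mul] at g0
  set L : ℝ := Real.log N with hL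
  have hL2 : 2 ≤ L := by
    have : (0 : ℝ) < 2 ^ A := by positivity
    linarith
  have hLA : (2 : ℝ) ^ A ≤ L := by linarith
  have hL0 : 0 < L := by linarith
  have hn0 : 0 < n := by
    rcases Nat.eq_zero_or_pos n with h | h
    · rw [h] at hNn
      simp at hNn
      linarith
    · exact h
  have hnr : (1 : ℝ) ≤ n := by exact_mod_cast hn0
  -- logarithms
  have hln1 : Real.log n ≤ 2 * L := by
    have h3 : (n : ℝ) ≤ (N : ℝ) ^ 2 := by
      have : (n : ℝ) ≤ 2 * N := by exact_mod_cast hnN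
      nlinarith
    have h4 := Real.log_le_log (by linarith) h3
    rw [Real.log_pow] at h4
    push_cast at h4
    exact h4
  have hln2 : L ≤ 2 * Real.log n := by
    have hs : (N : ℝ) ^ (1 / 2 : ℝ) * (N : ℝ) ^ (1 / 2 : ℝ) = N := by
      rw [← Real.rpow_add hN0]
      norm_num
    have hs0 : 0 < (N : ℝ) ^ (1 / 2 : ℝ) := by positivity
    have h3 : (N : ℝ) ^ (1 / 2 : ℝ) ≤ n := by
      have h4 : (N : ℝ) ≤ n * (N : ℝ) ^ (1 / 2 : ℝ) := hNn.trans (mul_le_mul_of_nonneg_left g0 (by linarith))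
      by_contra hcon
      push Not at hcon
      nlinarith
    have h4 : (N : ℝ) ≤ (n : ℝ) ^ 2 := by nlinarith
    have h5 := Real.log_le_log (by linarith) h4
    rw [Real.log_pow] at h5
    push_cast at h5
    exact h5
  have hln0 : 0 < Real.log n := by linarith
  have hX0 : (0 : ℝ) < X := lt_of_lt_of_le (by positivity) hX
  have hXn : (N : ℝ) / L ^ (3 * A + 2) ≤ X := by
    refine le_trans ?_ hX
    rw [div_le_div_iff₀ (by positivity) (by positivity)]
    have h3 : Real.log n ^ A ≤ L ^ (A + 1) := by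
      calc Real.log n ^ A ≤ (2 * L) ^ A := pow_le_pow_left₀ hln0.le hln1 A
        _ = 2 ^ A * L ^ A := mul_pow _ _ _
        _ ≤ L * L ^ A := mul_le_mul_of_nonneg_right hLA (by positivity)
        _ = L ^ (A + 1) := by ring
    calc (N : ℝ) * Real.log n ^ A ≤ (n * L ^ (2 * A + 1)) * L ^ (A + 1) :=
          mul_le_mul hNn h3 (by positivity) (by positivity)
      _ = n * L ^ (3 * A + 2) := by ring
  obtain ⟨e1, e2⟩ := hpair 1 2 (3 * A + 2) m ε δ le_rfl hε hε1 N (by omega) _ hR (fun _ => -1)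
    (Or.inr rfl) (by exact_mod_cast hev) (by exact_mod_cast hn0.ne') u X (by omega) hXn
  rw [pv_gold n u X (by omega)] at e1 e2
  refine ⟨?_, fun H D hH hD hDH P hP T hTm hT => e2 (fun p _ hp => ?_) H D hH hD hDH P hP T hTm hT⟩
  · refine le_trans ?_ e1
    rw [← hL]
    have h3 : L ^ 2 ≤ 4 * Real.log n ^ 2 := by nlinarith
    have h4 : X / (4 * Real.log n ^ 2) ≤ X / L ^ 2 := div_le_div_of_nonneg_left hX0.le (by positivity) h3
    calc c / 4 * (X / Real.log n ^ 2) = c * (X / (4 * Real.log n ^ 2)) := by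
          field_simp
      _ ≤ c * (X / L ^ 2) := mul_le_mul_of_nonneg_left h4 hc.le
  · have : p < n := by omega
    have h5 : (p : ℤ) < n := by exact_mod_cast this
    omega

/-- **Multiples of the moduli near families of small energy.** -/
theorem goldFam : ∃ c : ℝ, 0 < c ∧ ∀ (h A C U m : ℕ) (ε δ : ℝ), 0 < ε → ε ≤ 1 / 2 → 0 < δ →
    ∃ N₀ : ℕ, ∀ N : ℕ, N₀ ≤ N → ∀ (x : ℕ) (v : ℕ → ℤ), (∀ j ∈ Icc 1 x, |v j| ≤ N) →
      (energy h x v : ℝ) * N ≤ Real.log N ^ C * (x : ℝ) ^ (2 * h) →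
      ∃ E : Finset ℕ, (E.card : ℝ) ≤ x / Real.log N ^ U ∧ ∀ j ∈ Icc 1 x, j ∉ E →
        ∀ q : ℕ, 1 ≤ q → |((q - v j : ℤ) : ℝ)| ≤ Real.log N ^ A → ∀ n : ℕ, Even n → q ∣ n →
          (N : ℝ) / Real.log N ^ A ≤ n → (n : ℝ) ≤ q * Real.log N ^ A → GoldReg c A m ε δ n := by
  classical
  obtain ⟨c, hc, hgold⟩ := gold_of
  refine ⟨c, hc, fun h A C U m ε δ hε hε1 hδ => ?_⟩
  obtain ⟨N₁, h1⟩ := hgold A m ε δ hε hε1
  obtain ⟨N₂, h2⟩ := famW 1 h 1 (3 * A + 2) 1 (C + A + 1) (2 * A + 1) (U + A + 1) m le_rfl ε δ hε (by linarith) hδ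
  obtain ⟨N₃, h3⟩ := Pool.Agent.H373R2.T7.ev_L' 2
  obtain ⟨N₄, h4⟩ := ev_logpow 1 A 1 (by norm_num)
  refine ⟨max (max N₁ N₂) (max (max N₃ N₄) 3), fun N hN x v hv hE => ?_⟩
  have g1 : N₁ ≤ N := ((le_max_left _ _).trans (le_max_left _ _)).trans hN
  have g2 : N₂ ≤ N := ((le_max_right _ _).trans (le_max_left _ _)).trans hN
  have g3 := h3 N (((le_max_left _ _).trans ((le_max_left _ _).trans (le_max_right _ _))).trans hN)
  have g4 := h4 N (((le_max_right _ _).trans ((le_max_left _ _).trans (le_max_right _ _))).trans hN)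
  have g5 : 3 ≤ N := (le_max_right _ _).trans ((le_max_right _ _).trans hN)
  rw [one_mul, Real.rpow_one] at g4
  have hN3 : (3 : ℝ) ≤ N := by exact_mod_cast g5
  have hN0 : (0 : ℝ) < N := by linarith
  set L : ℝ := Real.log N with hL
  have hL0 : 0 < L := by linarith
  have hL1 : 1 ≤ L := by linarith
  have hLA1 : 1 ≤ L ^ A := one_le_pow₀ hL1
  set M : ℕ := ⌊L ^ A⌋₊ + 1 with hM
  have hM1 : 1 ≤ M := by omega
  have hMle : (M : ℝ) ≤ L ^ (A + 1) := by
    rw [hM]
    push_cast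
    have e1 : ((⌊L ^ A⌋₊ : ℕ) : ℝ) ≤ L ^ A := Nat.floor_le (by positivity)
    have e2 : L ^ (A + 1) = L * L ^ A := by ring
    nlinarith
  have hMge : L ^ A ≤ M := by
    rw [hM]
    push_cast
    exact (Nat.lt_floor_add_one _).le
  set N' : ℕ := M * N with hN'
  have hNN' : N ≤ N' := Nat.le_mul_of_pos_left N hM1
  have hN'r : (N' : ℝ) = M * N := by rw [hN']; push_cast; ring
  set L' : ℝ := Real.log N' with hL'
  have hLL' : L ≤ L' := Real.log_le_log hN0 (by exact_mod_cast hNN')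
  have hL'0 : 0 < L' := by linarith
  set 𝒮 : ℕ → Finset (Fin 1 → ℕ) := fun w => (Fintype.piFinset (fun _ : Fin 1 => Icc 1 x)).filter (fun q =>
    ∃ β : Fin 1 → ℤ, (∀ i, |((β i - (w : ℤ) * v (q i) : ℤ) : ℝ)| ≤ L' ^ (2 * A + 1)) ∧
      ¬ Rich 1 2 (3 * A + 2) m ε δ N' β) with h𝒮
  have hSc : ∀ w ∈ Icc 1 M, ((𝒮 w).card : ℝ) ≤ x / L ^ (U + A + 1) := by
    intro w hw
    rw [mem_Icc] at hw
    have hw0 : (w : ℤ) ≠ 0 := by
      have : w ≠ 0 := by omega
      exact_mod_cast this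
    have h5 := h2 N' (g2.trans hNN') (fun _ => x) (fun _ j => (w : ℤ) * v j) (fun i j hj => ?_) (fun i => ?_) (𝒮 w)
      (filter_subset _ _) (fun q hq => (mem_filter.1 hq).2)
    · refine h5.trans ?_
      rw [Fin.prod_univ_one]
      gcongr
    · have e1 := hv j hj
      rw [abs_mul, Nat.abs_cast]
      push_cast
      rw [hN', one_mul]
      push_cast
      have e2 : (w : ℤ) ≤ M := by exact_mod_cast hw.2
      exact mul_le_mul e2 e1 (abs_nonneg _) (by positivity)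
    · show ((energy h x (fun j => (w : ℤ) * v j) : ℕ) : ℝ) * N' ≤ L' ^ (C + A + 1) * (x : ℝ) ^ (2 * h)
      rw [energy_mul h x v w hw0, hN'r]
      have hx0 : (0 : ℝ) ≤ (x : ℝ) ^ (2 * h) := by positivity
      calc (energy h x v : ℝ) * (M * N) = M * ((energy h x v : ℝ) * N) := by ring
        _ ≤ L ^ (A + 1) * (L ^ C * (x : ℝ) ^ (2 * h)) := mul_le_mul hMle hE (by positivity) (by positivity)
        _ = L ^ (C + A + 1) * (x : ℝ) ^ (2 * h) := by ring
        _ ≤ L' ^ (C + A + 1) * (x : ℝ) ^ (2 * h) := by gcongr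
  refine ⟨(Icc 1 M).biUnion (fun w => (𝒮 w).image (fun q => q 0)), ?_, ?_⟩
  · have e1 : (((Icc 1 M).biUnion (fun w => (𝒮 w).image (fun q => q 0))).card : ℝ) ≤
        ∑ w ∈ Icc 1 M, (((𝒮 w).image (fun q => q 0)).card : ℝ) := by exact_mod_cast card_biUnion_le
    refine e1.trans ?_
    have e2 : ∀ w ∈ Icc 1 M, (((𝒮 w).image (fun q => q 0)).card : ℝ) ≤ x / L ^ (U + A + 1) := fun w hw =>
      le_trans (by exact_mod_cast card_image_le) (hSc w hw)
    refine (sum_le_sum e2).trans ?_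
    rw [sum_const, Nat.card_Icc, Nat.add_sub_cancel, nsmul_eq_mul]
    calc (M : ℝ) * (x / L ^ (U + A + 1)) ≤ L ^ (A + 1) * (x / L ^ (U + A + 1)) :=
          mul_le_mul_of_nonneg_right hMle (by positivity)
      _ = x / L ^ U := by
          rw [show U + A + 1 = U + (A + 1) by ring, pow_add L U]
          field_simp
  · intro j hj hjE q hq hqv n hev hqn hnN hnq
    obtain ⟨w, rfl⟩ := hqn
    have hqr : (1 : ℝ) ≤ q := by exact_mod_cast hq
    have hn0 : 0 < q * w := by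
      rcases Nat.eq_zero_or_pos (q * w) with h | h
      · rw [h] at hnN
        have : 0 < (N : ℝ) / L ^ A := by positivity
        simp at hnN
        linarith
      · exact h
    have hw0 : 0 < w := Nat.pos_of_mul_pos_left hn0
    have hwL : (w : ℝ) ≤ L ^ A := by
      have e1 : (q : ℝ) * w ≤ q * L ^ A := by
        push_cast at hnq
        exact hnq
      exact le_of_mul_le_mul_left e1 (by linarith)
    have hwM : w ≤ M := by
      have : (w : ℝ) ≤ M := hwL.trans hMge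
      exact_mod_cast this
    have hR : Rich 1 2 (3 * A + 2) m ε δ N' (fun _ : Fin 1 => ((q * w : ℕ) : ℤ)) := by
      by_contra hcon
      apply hjE
      rw [mem_biUnion]
      refine ⟨w, mem_Icc.2 ⟨hw0, hwM⟩, ?_⟩
      rw [mem_image]
      refine ⟨fun _ => j, mem_filter.2 ⟨Fintype.mem_piFinset.2 fun _ => hj, fun _ => ((q * w : ℕ) : ℤ), fun i => ?_,
        hcon⟩, rfl⟩
      have e1 : (((q * w : ℕ) : ℤ) - (w : ℤ) * v j : ℤ) = w * (q - v j) := by
        push_cast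
        ring
      rw [e1]
      push_cast
      rw [abs_mul, Nat.abs_cast]
      have e2 : |((q : ℝ) - v j)| ≤ L ^ A := by
        have := hqv
        push_cast at this
        exact this
      calc (w : ℝ) * |(q : ℝ) - v j| ≤ L ^ A * L ^ A := mul_le_mul hwL e2 (abs_nonneg _) (by positivity)
        _ = L ^ (2 * A) := by ring
        _ ≤ L ^ (2 * A + 1) := pow_le_pow_right₀ hL1 (by omega)
        _ ≤ L' ^ (2 * A + 1) := by gcongr
    refine h1 N' (q * w) (g1.trans hNN') hev ?_ ?_ hR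
    · -- `n ≤ 2 N'`
      have e1 : (q : ℝ) ≤ N + L ^ A := by
        have e2 := (abs_le.1 hqv).2
        push_cast at e2
        have e3 : (v j : ℝ) ≤ N := by
          have := (abs_le.1 (hv j hj)).2
          exact_mod_cast this
        linarith
      have e4 : (q : ℝ) ≤ 2 * N := by linarith
      have e5 : ((q * w : ℕ) : ℝ) ≤ (2 * N' : ℕ) := by
        push_cast
        rw [hN'r]
        have e6 : (w : ℝ) ≤ M := by exact_mod_cast hwM
        calc (q : ℝ) * w ≤ (2 * N) * M := mul_le_mul e4 e6 (by positivity) (by positivity)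
          _ = 2 * (M * N) := by ring
      exact_mod_cast e5
    · have e1 : (N : ℝ) ≤ (q * w : ℕ) * L ^ A := by
        rw [div_le_iff₀ (by positivity)] at hnN
        exact hnN
      calc (N' : ℝ) = (M : ℝ) * N := hN'r
        _ ≤ L ^ (A + 1) * ((q * w : ℕ) * L ^ A) := mul_le_mul hMle e1 hN0.le (by positivity)
        _ = (q * w : ℕ) * L ^ (2 * A + 1) := by ring
        _ ≤ (q * w : ℕ) * L' ^ (2 * A + 1) := by gcongr

end Pool.Agent.Helper51.UG
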