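import Pool.Agent.Helper51.UG.Pair

set_option autoImplicit false

/-!
Common shifts of the pairs of a family of pairs with different differences.
-/

namespace Pool.Agent.Helper51.UG

open Finset Filter
open Pool.Agent.TH935.TF (consA consB)
open Pool.Agent.H373R2.T7 (energy)

/-- the common shifts `h` of the window `(v, v + X]` which make `a + h` and `b + h` primes -/
def CS (a b v X : ℕ) : Set ℕ := {h | v < h ∧ h ≤ v + X ∧ (a + h).Prime ∧ (b + h).Prime}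

theorem energy_one {x : ℕ} {s : ℕ → ℤ} (hs : Set.InjOn s (Icc 1 x : Finset ℕ)) : energy 1 x s = x := by
  classical
  unfold energy
  have h1 : ((Fintype.piFinset fun _ : Fin 1 => Icc 1 x) ×ˢ (Fintype.piFinset fun _ : Fin 1 => Icc 1 x)).filter
      (fun q => ∑ i, s (q.1 i) = ∑ i, s (q.2 i)) =
      (Icc 1 x).image (fun j : ℕ => ((fun _ : Fin 1 => j), (fun _ : Fin 1 => j))) := by
    ext ⟨v, w⟩
    simp only [mem_filter, mem_product, Fintype.mem_piFinset, mem_image, Prod.mk.injEq]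
    constructor
    · rintro ⟨⟨hv, hw⟩, he⟩
      rw [Fin.sum_univ_one, Fin.sum_univ_one] at he
      have h2 := hs (by exact_mod_cast hv 0) (by exact_mod_cast hw 0) he
      refine ⟨v 0, hv 0, ?_, ?_⟩
      · funext i
        rw [Subsingleton.elim i 0]
      · funext i
        rw [Subsingleton.elim i 0]
        exact h2
    · rintro ⟨j, hj, rfl, rfl⟩
      exact ⟨⟨fun _ => hj, fun _ => hj⟩, rfl⟩
  rw [h1, card_image_of_injective, Nat.card_Icc, Nat.add_sub_cancel]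
  intro a b hab
  exact congrFun (Prod.mk.inj hab).1 0

theorem cps_shift (P : Set ℕ) (T : Finset ℤ) (D a h : ℕ) (P' : Set ℕ) (hP' : ∀ n : ℕ, n ∈ P' ↔ ∃ g ∈ P, n = a + g) :
    cps P' T D (a + h) = cps P T D h := by
  unfold cps
  congr 1
  ext d
  constructor
  · rintro ⟨h1, h2, h3⟩
    refine ⟨h1, h2, fun t ht => ?_⟩
    obtain ⟨m, hm, he⟩ := h3 t ht
    obtain ⟨g, hg, rfl⟩ := (hP' m).1 hm
    refine ⟨g, hg, ?_⟩
    push_cast at he
    linarith
  · rintro ⟨h1, h2, h3⟩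
    refine ⟨h1, h2, fun t ht => ?_⟩
    obtain ⟨g, hg, he⟩ := h3 t ht
    refine ⟨a + g, (hP' _).2 ⟨g, hg, rfl⟩, ?_⟩
    push_cast
    linarith

/-- the property of the pair `a, b` -/
def GoodPair (c : ℝ) (A m : ℕ) (ε δ : ℝ) (N a b : ℕ) : Prop :=
  ∀ v X : ℕ, v + X ≤ N → (N : ℝ) / Real.log N ^ A ≤ X →
    c * (X / Real.log N ^ 2) ≤ ((CS a b v X).ncard : ℝ) ∧
    ∀ H D : ℕ, 1 ≤ H → (X : ℝ) ^ ε ≤ D → (D : ℝ) * H ≤ (X : ℝ) ^ (1 - ε) →
      ∀ P ⊆ CS a b v X, ∀ T : Finset ℤ, T.card ≤ m → (∀ t ∈ T, |t| ≤ H) →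
        ({h : ℕ | h ∈ P ∧ (cps P T D h : ℝ) < (D : ℝ) ^ (1 - ε)}.ncard : ℝ) ≤
          δ * ((CS a b v X).ncard : ℝ)

theorem goodPair_of : ∃ c : ℝ, 0 < c ∧ ∀ (A m : ℕ) (ε δ : ℝ), 0 < ε → ε ≤ 1 / 2 → ∀ N : ℕ, 3 ≤ N →
    ∀ a b : ℕ, a ≤ N → b ≤ N → a ≠ b → Even ((b : ℤ) - a) →
    Rich 1 2 A m ε δ N (fun _ : Fin 1 => (b : ℤ) - a) → GoodPair c A m ε δ N a b := by
  classical
  obtain ⟨c, hc, hpair⟩ := pair
  refine ⟨c, hc, fun A m ε δ hε hε1 N hN a b ha hb hab heven hR v X hvX hX => ?_⟩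
  obtain ⟨h1, h2⟩ := hpair 1 2 A m ε δ le_rfl hε hε1 N hN _ hR (fun _ => 1) (Or.inl rfl) heven (by
    intro h0
    apply hab
    have : (b : ℤ) = a := by linarith
    exact_mod_cast this.symm) (a + v) X (by omega) hX
  have hmem : ∀ n : ℕ, n ∈ PV (fun _ : Fin 1 => (1 : ℤ)) (fun _ => (b : ℤ) - a) (a + v) X ↔
      ∃ g ∈ CS a b v X, n = a + g := by
    intro n
    constructor
    · rintro ⟨e1, e2, e3, e4⟩
      have e5 := e4 0
      obtain ⟨g, rfl⟩ : ∃ g, n = a + g := ⟨n - a, by omega⟩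
      have e6 : ((1 : ℤ) * ((a + g : ℕ) : ℤ) + ((b : ℤ) - a)).natAbs = b + g := by
        push_cast
        have : (1 : ℤ) * ((a : ℤ) + g) + ((b : ℤ) - a) = ((b + g : ℕ) : ℤ) := by
          push_cast
          ring
        rw [this, Int.natAbs_natCast]
      rw [e6] at e5
      exact ⟨g, ⟨by omega, by omega, e3, e5⟩, rfl⟩
    · rintro ⟨g, ⟨e1, e2, e3, e4⟩, rfl⟩
      refine ⟨by omega, by omega, e3, fun i => ?_⟩
      have e6 : ((1 : ℤ) * ((a + g : ℕ) : ℤ) + ((b : ℤ) - a)).natAbs = b + g := by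
        push_cast
        have : (1 : ℤ) * ((a : ℤ) + g) + ((b : ℤ) - a) = ((b + g : ℕ) : ℤ) := by
          push_cast
          ring
        rw [this, Int.natAbs_natCast]
      rw [e6]
      exact e4
  have himg : ∀ Q : Set ℕ, (∃ Q' : Set ℕ, ∀ n, n ∈ Q' ↔ ∃ g ∈ Q, n = a + g) := fun Q =>
    ⟨{n | ∃ g ∈ Q, n = a + g}, fun n => Iff.rfl⟩
  have hcard : ∀ Q Q' : Set ℕ, (∀ n, n ∈ Q' ↔ ∃ g ∈ Q, n = a + g) → Q'.ncard = Q.ncard := by
    intro Q Q' hQ
    have : Q' = (fun g => a + g) '' Q := by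
      ext n
      rw [hQ]
      constructor
      · rintro ⟨g, hg, rfl⟩
        exact ⟨g, hg, rfl⟩
      · rintro ⟨g, hg, rfl⟩
        exact ⟨g, hg, rfl⟩
    rw [this, Set.ncard_image_of_injective _ (fun x y h => Nat.add_left_cancel h)]
  rw [hcard _ _ hmem] at h1 h2
  refine ⟨h1, fun H D hH hD hDH P hP T hTm hT => ?_⟩
  obtain ⟨P', hP'⟩ := himg P
  have h3 := h2 (fun n hn _ => by
    have : (1 : ℤ) * (n : ℤ) + ((b : ℤ) - a) = (n : ℤ) - a + b := by ring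
    rw [this]
    have h4 : (a : ℤ) < n := by
      have : a < n := by omega
      exact_mod_cast this
    have h5 : (0 : ℤ) ≤ b := Int.natCast_nonneg b
    omega) H D hH hD hDH P' (fun n hn => by
      obtain ⟨g, hg, rfl⟩ := (hP' n).1 hn
      exact (hmem _).2 ⟨g, hP hg, rfl⟩) T hTm hT
  have h4 : {n : ℕ | n ∈ P' ∧ (cps P' T D n : ℝ) < (D : ℝ) ^ (1 - ε)}.ncard =
      {h : ℕ | h ∈ P ∧ (cps P T D h : ℝ) < (D : ℝ) ^ (1 - ε)}.ncard := by
    apply hcard
    intro n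
    constructor
    · rintro ⟨e1, e2⟩
      obtain ⟨g, hg, rfl⟩ := (hP' n).1 e1
      rw [cps_shift P T D a g P' hP'] at e2
      exact ⟨g, ⟨hg, e2⟩, rfl⟩
    · rintro ⟨g, ⟨hg, e2⟩, rfl⟩
      refine ⟨(hP' _).2 ⟨g, hg, rfl⟩, ?_⟩
      rw [cps_shift P T D a g P' hP']
      exact e2
  rw [h4] at h3
  exact h3

/-- **Families of pairs with different differences.** -/
theorem shiftFam : ∃ c : ℝ, 0 < c ∧ ∀ (A C U m : ℕ) (ε δ : ℝ), 0 < ε → ε ≤ 1 / 2 → 0 < δ →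
    ∃ N₀ : ℕ, ∀ N : ℕ, N₀ ≤ N → ∀ (K : Finset ℕ) (a b : ℕ → ℕ),
      (∀ k ∈ K, a k ≤ N ∧ b k ≤ N ∧ a k ≠ b k ∧ Even ((b k : ℤ) - a k)) →
      Set.InjOn (fun k => (b k : ℤ) - a k) K → (N : ℝ) ≤ Real.log N ^ C * K.card →
      ∀ E ⊆ K, (∀ k ∈ E, ¬ GoodPair c A m ε δ N (a k) (b k)) → (E.card : ℝ) ≤ K.card / Real.log N ^ U := by
  classical
  obtain ⟨c, hc, hg⟩ := goodPair_of
  refine ⟨c, hc, fun A C U m ε δ hε hε1 hδ => ?_⟩
  obtain ⟨N₀, h0⟩ := famW 1 1 1 A 1 C 0 U m le_rfl ε δ hε (by linarith) hδ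
  refine ⟨max N₀ 3, fun N hN K a b hK hinj hNK E hEK hE => ?_⟩
  have g0 : N₀ ≤ N := (le_max_left _ _).trans hN
  have g1 : 3 ≤ N := (le_max_right _ _).trans hN
  -- an enumeration of `K`
  set e : Fin K.card ↪o ℕ := K.orderEmbOfFin rfl with he
  set en : ℕ → ℕ := fun j => if h : j - 1 < K.card then e ⟨j - 1, h⟩ else 0 with hen
  have henK : ∀ j ∈ Icc 1 K.card, en j ∈ K := by
    intro j hj
    rw [mem_Icc] at hj
    have h1 : j - 1 < K.card := by omega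
    rw [hen]
    simp only [h1, dif_pos]
    exact K.orderEmbOfFin_mem rfl _
  have heninj : Set.InjOn en (Icc 1 K.card : Finset ℕ) := by
    intro i hi j hj hij
    rw [coe_Icc, Set.mem_Icc] at hi hj
    have h1 : i - 1 < K.card := by omega
    have h2 : j - 1 < K.card := by omega
    rw [hen] at hij
    simp only [h1, h2, dif_pos] at hij
    have h3 := e.injective hij
    have h4 := congrArg Fin.val h3
    simp only at h4
    omega
  have hensurj : ∀ k ∈ K, ∃ j ∈ Icc 1 K.card, en j = k := by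
    intro k hk
    have h1 : k ∈ Set.range e := by
      rw [he, K.range_orderEmbOfFin rfl]
      exact_mod_cast hk
    obtain ⟨i, hi⟩ := h1
    refine ⟨i.1 + 1, ?_, ?_⟩
    · rw [mem_Icc]
      have := i.2
      omega
    · rw [hen]
      have h2 : (i : ℕ) + 1 - 1 < K.card := by
        have := i.2
        omega
      simp only [h2, dif_pos]
      rw [← hi]
      congr 1
  set s : Fin 1 → ℕ → ℤ := fun _ j => (b (en j) : ℤ) - a (en j) with hs
  set 𝒮 : Finset (Fin 1 → ℕ) := (Fintype.piFinset (fun _ : Fin 1 => Icc 1 K.card)).filter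
    (fun q => en (q 0) ∈ E) with h𝒮
  have h1 := h0 N g0 (fun _ => K.card) s (fun i j hj => ?_) (fun i => ?_) 𝒮 (filter_subset _ _) (fun q hq => ?_)
  · have h2 : E.card ≤ 𝒮.card := by
      have h3 : E ⊆ 𝒮.image (fun q => en (q 0)) := by
        intro k hk
        obtain ⟨j, hj, hjk⟩ := hensurj k (hEK hk)
        rw [mem_image]
        refine ⟨fun _ => j, ?_, hjk⟩
        rw [h𝒮, mem_filter]
        exact ⟨Fintype.mem_piFinset.2 fun _ => hj, by
          show en j ∈ E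
          rw [hjk]
          exact hk⟩
      exact (card_le_card h3).trans card_image_le
    have h3 : (E.card : ℝ) ≤ 𝒮.card := by exact_mod_cast h2
    refine h3.trans (h1.trans (le_of_eq ?_))
    simp
  · obtain ⟨e1, e2, -, -⟩ := hK _ (henK j hj)
    show |(b (en j) : ℤ) - a (en j)| ≤ ((1 : ℕ) : ℤ) * N
    have e1' : (a (en j) : ℤ) ≤ N := by exact_mod_cast e1
    have e2' : (b (en j) : ℤ) ≤ N := by exact_mod_cast e2
    have e3 : (0 : ℤ) ≤ a (en j) := Int.natCast_nonneg _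
    have e4 : (0 : ℤ) ≤ b (en j) := Int.natCast_nonneg _
    rw [abs_le]
    push_cast
    constructor <;> omega
  · have e1 : energy 1 K.card (s i) = K.card := by
      apply energy_one
      intro j hj j' hj' hjj
      exact heninj hj hj' (hinj (by exact_mod_cast henK j (by exact_mod_cast hj))
        (by exact_mod_cast henK j' (by exact_mod_cast hj')) hjj)
    show ((energy 1 K.card (s i) : ℕ) : ℝ) * N ≤ Real.log N ^ C * (K.card : ℝ) ^ (2 * 1)
    rw [e1]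
    have e2 : (0 : ℝ) ≤ K.card := Nat.cast_nonneg _
    calc (K.card : ℝ) * N ≤ K.card * (Real.log N ^ C * K.card) := mul_le_mul_of_nonneg_left hNK e2
      _ = Real.log N ^ C * (K.card : ℝ) ^ (2 * 1) := by ring
  · obtain ⟨hq1, hq2⟩ := mem_filter.1 hq
    refine ⟨fun _ => s 0 (q 0), fun i => ?_, fun hR => hE _ hq2 ?_⟩
    · rw [Subsingleton.elim i 0, sub_self]
      simp
    · obtain ⟨e1, e2, e3, e4⟩ := hK _ (hEK hq2)
      exact hg A m ε δ hε hε1 N g1 _ _ e1 e2 e3 e4 hR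

end Pool.Agent.Helper51.UG
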