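import Pool.Agent.Helper51.UG.OutU

/-!
# Many dilates, for linear forms, uniformly in the forms, and the pointwise form
-/

set_option autoImplicit false

open Finset

namespace Pool.Agent.Helper51.UG

open Pool.Agent.Helper51.UD
open Pool.Agent.Helper51.UL
open Pool.Agent.Y880.RS (log_ev)

/-- the conditions for the forms -/
def FormsOK {κ : ℕ} (CA C₀ X u : ℕ) (α β : Fin κ → ℤ) : Prop :=
  (∀ i, α i ≠ 0 ∧ |α i| ≤ CA ∧ |β i| ≤ (X : ℤ) ^ C₀) ∧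
  (∀ i j, i ≠ j → α j * β i ≠ α i * β j) ∧
  ∀ i, ∀ n : ℕ, u < n → n ≤ u + 2 * X → α i * n + β i ≠ 0

/-- general `θ` -/
theorem dilU (κ CA C₀ k : ℕ) (hk : 1 ≤ k) (ε θ δ : ℝ) (hε : 0 < ε) (hε1 : ε < 1) (hθ : 0 < θ)
    (hδ : 0 < δ) :
    ∃ X₀ : ℕ, ∀ X H u y : ℕ, X₀ ≤ X → u ≤ X ^ C₀ → (X : ℝ) ^ θ ≤ y → y ≤ X ^ C₀ →
      (H : ℝ) ≤ (X : ℝ) ^ (1 - ε) → ∀ α β : Fin κ → ℤ, FormsOK CA C₀ X u α β →
      ∀ P ⊆ Ioc u (u + X), P.Nonempty →
      (∀ n ∈ P, ∀ i, ∀ q : ℕ, q.Prime → (q : ℤ) ∣ α i * n + β i → y < q) →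
      δ * (X * VV (FZ α β) y) ≤ P.card →
      ∀ a : Fin k → ℕ, Function.Injective a → (∀ i, a i ≤ H) →
        ∃ d : ℕ, 1 ≤ d ∧ (d : ℝ) ≤ (X : ℝ) ^ ε ∧ (X : ℝ) ^ (1 - ε) ≤
          (((Ioc u (u + X)).filter (fun n => ∀ i, n + d * a i ∈ P)).card : ℝ) := by
  obtain ⟨X₀, h⟩ := dil0U κ CA C₀ k hk (min ε θ) θ δ (lt_min hε hθ)
    ((min_le_left _ _).trans_lt hε1) (min_le_right _ _) hδ
  refine ⟨max X₀ 1, fun X H u y hX huX hyθ hyX hHX α β hf P hP hPne hPp hPc a ha haH => ?_⟩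
  have hX1 : (1 : ℝ) ≤ X := by
    have : 1 ≤ X := (le_max_right _ _).trans hX
    exact_mod_cast this
  obtain ⟨d, hd1, hd2, hd3⟩ := h X H u y ((le_max_left _ _).trans hX) huX hyθ hyX (hHX.trans (by
    apply Real.rpow_le_rpow_of_exponent_le hX1
    have := min_le_left ε θ
    linarith)) α β hf.1 hf.2.1 hf.2.2 P hP hPne hPp hPc a ha haH
  refine ⟨d, hd1, hd2.trans (Real.rpow_le_rpow_of_exponent_le hX1 (min_le_left _ _)),
    le_trans ?_ hd3⟩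
  apply Real.rpow_le_rpow_of_exponent_le hX1
  have := min_le_left ε θ
  linarith

/-- the form with sets -/
theorem dilTU (κ CA C₀ k : ℕ) (ε θ δ : ℝ) (hε : 0 < ε) (hε1 : ε < 1) (hθ : 0 < θ)
    (hδ : 0 < δ) :
    ∃ X₀ : ℕ, ∀ X H u y : ℕ, X₀ ≤ X → u ≤ X ^ C₀ → (X : ℝ) ^ θ ≤ y → y ≤ X ^ C₀ → k ≤ H →
      (H : ℝ) ≤ (X : ℝ) ^ (1 - ε) → ∀ α β : Fin κ → ℤ, FormsOK CA C₀ X u α β →
      ∀ P ⊆ Ioc u (u + X), P.Nonempty →
      (∀ n ∈ P, ∀ i, ∀ q : ℕ, q.Prime → (q : ℤ) ∣ α i * n + β i → y < q) →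
      δ * (X * VV (FZ α β) y) ≤ P.card →
      ∀ T : Finset ℕ, T.card ≤ k → (∀ t ∈ T, t ≤ H) →
        ∃ d : ℕ, 1 ≤ d ∧ (d : ℝ) ≤ (X : ℝ) ^ ε ∧ (X : ℝ) ^ (1 - ε) ≤
          (((Ioc u (u + X)).filter (fun n => ∀ t ∈ T, n + d * t ∈ P)).card : ℝ) := by
  classical
  obtain ⟨X₀, h⟩ := dilU κ CA C₀ (k + 1) (by omega) ε θ δ hε hε1 hθ hδ
  refine ⟨X₀, fun X H u y hX huX hyθ hyX hkH hHX α β hf P hP hPne hPp hPc T hTk hT => ?_⟩
  obtain ⟨T', hT1, hT2, hT3⟩ := exists_subsuperset_card_eq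
    (show T ⊆ range (H + 1) from fun t ht => mem_range.2 (Nat.lt_succ_of_le (hT t ht)))
    (show T.card ≤ k + 1 by omega) (show k + 1 ≤ (range (H + 1)).card by rw [card_range]; omega)
  let e := T'.equivFinOfCardEq hT3
  obtain ⟨d, hd1, hd2, hd3⟩ := h X H u y hX huX hyθ hyX hHX α β hf P hP hPne hPp hPc
    (fun i => (e.symm i : ℕ))
    (fun i j hij => e.symm.injective (Subtype.ext hij))
    (fun i => Nat.lt_succ_iff.1 (mem_range.1 (hT2 (e.symm i).2)))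
  refine ⟨d, hd1, hd2, hd3.trans ?_⟩
  have h2 : (Ioc u (u + X)).filter (fun n => ∀ i, n + d * ((e.symm i : T') : ℕ) ∈ P) ⊆
      (Ioc u (u + X)).filter (fun n => ∀ t ∈ T, n + d * t ∈ P) := by
    intro n hn
    rw [mem_filter] at hn ⊢
    refine ⟨hn.1, fun t ht => ?_⟩
    have h3 := hn.2 (e ⟨t, hT1 ht⟩)
    simpa using h3
  exact_mod_cast card_le_card h2

/-- many dilates -/
theorem manyU (κ CA C₀ k : ℕ) (ε θ δ : ℝ) (hε : 0 < ε) (hε1 : ε < 1) (hθ : 0 < θ)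
    (hδ : 0 < δ) :
    ∃ X₀ : ℕ, ∀ X H D u y : ℕ, X₀ ≤ X → u ≤ X ^ C₀ → (X : ℝ) ^ θ ≤ y → y ≤ X ^ C₀ →
      1 ≤ H → (X : ℝ) ^ ε ≤ D →
      (D : ℝ) * H ≤ (X : ℝ) ^ (1 - ε) → ∀ α β : Fin κ → ℤ, FormsOK CA C₀ X u α β →
      ∀ P ⊆ Ioc u (u + X), P.Nonempty →
      (∀ n ∈ P, ∀ i, ∀ q : ℕ, q.Prime → (q : ℤ) ∣ α i * n + β i → y < q) →
      δ * (X * VV (FZ α β) y) ≤ P.card →
      ∀ T : Finset ℕ, T.card ≤ k → (∀ t ∈ T, t ≤ H) →
        (D : ℝ) ^ (1 - ε) ≤ (((Icc 1 D).filter (fun d => (X : ℝ) / (D : ℝ) ^ ε ≤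
          (((Ioc u (u + X)).filter (fun n => ∀ t ∈ T, n + d * t ∈ P)).card : ℝ))).card : ℝ) := by
  classical
  obtain ⟨ε', hε'⟩ : ∃ ε', ε' = ε ^ 2 / 8 := ⟨_, rfl⟩
  have hε'0 : 0 < ε' := by rw [hε']; positivity
  have hε'ε : ε' ≤ ε := by rw [hε']; nlinarith
  obtain ⟨X₀, h⟩ := dilTU κ CA C₀ k ε' θ δ hε'0 (by linarith) hθ hδ
  obtain ⟨X₁, hX₁⟩ := ev_rpow k ε hε
  obtain ⟨X₂, hX₂⟩ := ev_rpow 2 (ε ^ 2 / 2) (by positivity)
  refine ⟨max (max X₀ X₁) (max X₂ 1), fun X H D u y hX huX hyθ hyX hH hDX₁ hDX α β hf P hP hPne hPp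
    hPc T hTk hT => ?_⟩
  have hX0 := h X (D * H) u y (((le_max_left _ _).trans (le_max_left _ _)).trans hX) huX hyθ hyX
  have hXk := hX₁ X (((le_max_right _ _).trans (le_max_left _ _)).trans hX)
  have hX2' := hX₂ X (((le_max_left _ _).trans (le_max_right _ _)).trans hX)
  have hX1 : 1 ≤ X := ((le_max_right _ _).trans (le_max_right _ _)).trans hX
  have hX1r : (1 : ℝ) ≤ X := by exact_mod_cast hX1
  have hHr : (1 : ℝ) ≤ H := by exact_mod_cast hH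
  obtain ⟨w, hw⟩ : ∃ w : ℝ, w = D := ⟨_, rfl⟩
  have hkDH : k ≤ D * H := by
    have h1 : (k : ℝ) ≤ ((D * H : ℕ) : ℝ) := by
      push_cast
      have h2 : (k : ℝ) ≤ D := hXk.trans hDX₁
      have h3 : (0 : ℝ) ≤ D := Nat.cast_nonneg _
      nlinarith
    exact_mod_cast h1
  rw [← hw] at hDX₁ hDX ⊢
  have hD1 : 1 ≤ w := (Real.one_le_rpow hX1r hε.le).trans hDX₁
  have hD0 : 0 < w := by linarith
  have hDpos : 1 ≤ D := by
    rw [hw] at hD1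
    exact_mod_cast hD1
  have h2y : 2 ≤ w ^ (ε / 2) := by
    refine hX2'.trans ?_
    calc (X : ℝ) ^ (ε ^ 2 / 2) = ((X : ℝ) ^ ε) ^ (ε / 2) := by
          rw [← Real.rpow_mul (by linarith)]
          congr 1
          ring
      _ ≤ w ^ (ε / 2) := Real.rpow_le_rpow (by positivity) hDX₁ (by positivity)
  -- the size of the dilations
  have hXe : (X : ℝ) ^ ε' ≤ w ^ (ε / 4) := by
    calc (X : ℝ) ^ ε' ≤ ((X : ℝ) ^ ε) ^ (ε / 4) := by
          rw [← Real.rpow_mul (by linarith)]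
          apply Real.rpow_le_rpow_of_exponent_le hX1r
          rw [hε']
          nlinarith
      _ ≤ w ^ (ε / 4) := Real.rpow_le_rpow (by positivity) hDX₁ (by positivity)
  have hXlow : (X : ℝ) / w ^ ε ≤ (X : ℝ) ^ (1 - ε') := by
    rw [div_le_iff₀ (by positivity)]
    have h1 : (X : ℝ) = (X : ℝ) ^ (1 - ε') * (X : ℝ) ^ ε' := by
      rw [← Real.rpow_add (by linarith)]
      simp
    calc (X : ℝ) = (X : ℝ) ^ (1 - ε') * (X : ℝ) ^ ε' := h1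
      _ ≤ (X : ℝ) ^ (1 - ε') * w ^ ε := by
          apply mul_le_mul_of_nonneg_left _ (by positivity)
          exact hXe.trans (Real.rpow_le_rpow_of_exponent_le hD1 (by linarith))
  obtain ⟨M, hM⟩ : ∃ M, M = ⌊w ^ (1 - ε / 4)⌋₊ := ⟨_, rfl⟩
  have hMy : (M : ℝ) ≤ w ^ (1 - ε / 4) := by rw [hM]; exact Nat.floor_le (by positivity)
  have hMD : M ≤ D := by
    have h1 : (M : ℝ) ≤ w := by
      refine hMy.trans ?_
      calc w ^ (1 - ε / 4) ≤ w ^ (1 : ℝ) := Real.rpow_le_rpow_of_exponent_le hD1 (by linarith)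
        _ = w := Real.rpow_one w
    rw [hw] at h1
    exact_mod_cast h1
  have hdil : ∀ m ∈ Icc 1 M, ∃ d : ℕ, 1 ≤ d ∧ (d : ℝ) ≤ w ^ (ε / 4) ∧ (X : ℝ) / w ^ ε ≤
      (((Ioc u (u + X)).filter (fun n => ∀ t ∈ T, n + (m * d) * t ∈ P)).card : ℝ) := by
    intro m hm
    rw [mem_Icc] at hm
    obtain ⟨d, hd1, hd2, hd3⟩ := hX0 hkDH (by
        push_cast
        rw [← hw]
        refine hDX.trans ?_
        apply Real.rpow_le_rpow_of_exponent_le hX1r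
        linarith) α β hf P hP hPne hPp hPc (T.image (fun t => m * t)) (card_image_le.trans hTk) (by
        intro t ht
        rw [mem_image] at ht
        obtain ⟨t', ht', rfl⟩ := ht
        exact Nat.mul_le_mul (hm.2.trans hMD) (hT t' ht'))
    refine ⟨d, hd1, hd2.trans hXe, hXlow.trans (hd3.trans ?_)⟩
    have h2 : (Ioc u (u + X)).filter (fun n => ∀ t ∈ T.image (fun t => m * t), n + d * t ∈ P) ⊆
        (Ioc u (u + X)).filter (fun n => ∀ t ∈ T, n + (m * d) * t ∈ P) := by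
      intro n hn
      rw [mem_filter] at hn ⊢
      refine ⟨hn.1, fun t ht => ?_⟩
      have h3 := hn.2 (m * t) (mem_image_of_mem _ ht)
      have h4 : m * d * t = d * (m * t) := by ring
      rw [h4]
      exact h3
    exact_mod_cast card_le_card h2
  choose! dd hdd using hdil
  obtain ⟨G, hG⟩ : ∃ G, G = (Icc 1 D).filter (fun d => (X : ℝ) / w ^ ε ≤
    (((Ioc u (u + X)).filter (fun n => ∀ t ∈ T, n + d * t ∈ P)).card : ℝ)) := ⟨_, rfl⟩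
  rw [← hG]
  have hmaps : ∀ m ∈ Icc 1 M, m * dd m ∈ G := by
    intro m hm
    obtain ⟨h1, h2, h3⟩ := hdd m hm
    rw [hG, mem_filter, mem_Icc]
    refine ⟨⟨Nat.mul_pos (mem_Icc.1 hm).1 h1, ?_⟩, h3⟩
    have h4 : ((m * dd m : ℕ) : ℝ) ≤ w := by
      push_cast
      have h5 : (m : ℝ) ≤ M := by exact_mod_cast (mem_Icc.1 hm).2
      calc (m : ℝ) * dd m ≤ w ^ (1 - ε / 4) * w ^ (ε / 4) :=
            mul_le_mul (h5.trans hMy) h2 (by positivity) (by positivity)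
        _ = w ^ (1 : ℝ) := by
            rw [← Real.rpow_add hD0]
            congr 1
            ring
        _ = w := Real.rpow_one w
    rw [hw] at h4
    exact_mod_cast h4
  have hcard := card_le_mul_card_image_of_maps_to hmaps ⌊w ^ (ε / 4)⌋₊ (by
    intro v _
    have h1 : ((Icc 1 M).filter (fun m => m * dd m = v)).card ≤ (Icc 1 ⌊w ^ (ε / 4)⌋₊).card := by
      refine card_le_card_of_injOn dd ?_ ?_
      · intro m hm
        rw [mem_coe, mem_filter] at hm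
        obtain ⟨h1, h2, h3⟩ := hdd m hm.1
        rw [mem_coe, mem_Icc]
        exact ⟨h1, Nat.le_floor h2⟩
      · intro m hm m' hm' hmm
        rw [mem_coe, mem_filter] at hm hm'
        obtain ⟨h1, _, _⟩ := hdd m hm.1
        have h4 : m * dd m = m' * dd m := by rw [hm.2]; rw [hmm]; exact hm'.2.symm
        exact Nat.eq_of_mul_eq_mul_right h1 h4
    rw [Nat.card_Icc, Nat.add_sub_cancel] at h1
    exact h1)
  rw [Nat.card_Icc, Nat.add_sub_cancel] at hcard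
  have h1 : (M : ℝ) ≤ w ^ (ε / 4) * G.card := by
    have h2 : (M : ℝ) ≤ (⌊w ^ (ε / 4)⌋₊ : ℝ) * G.card := by exact_mod_cast hcard
    have h3 := Nat.floor_le (show 0 ≤ w ^ (ε / 4) by positivity)
    have h4 : (⌊w ^ (ε / 4)⌋₊ : ℝ) * G.card ≤ w ^ (ε / 4) * G.card :=
      mul_le_mul_of_nonneg_right h3 (Nat.cast_nonneg _)
    linarith
  have h2 : w ^ (1 - ε / 4) < M + 1 := by rw [hM]; exact Nat.lt_floor_add_one _
  have h3 : 1 ≤ w ^ (1 - ε / 4) := Real.one_le_rpow hD1 (by linarith)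
  have h4 : 1 ≤ (M : ℝ) := by
    have : 1 ≤ M := by rw [hM]; exact Nat.le_floor (by simpa using h3)
    exact_mod_cast this
  have h5 : w ^ (1 - ε / 4) ≤ 2 * (w ^ (ε / 4) * G.card) := by linarith
  have h6 : w ^ (1 - ε / 4) = w ^ (ε / 4) * (w ^ (ε / 2) * w ^ (1 - ε)) := by
    rw [← Real.rpow_add hD0, ← Real.rpow_add hD0]
    congr 1
    ring
  rw [h6] at h5
  have h7 : 0 < w ^ (ε / 4) := by positivity
  have h8 : w ^ (ε / 2) * w ^ (1 - ε) ≤ 2 * G.card := by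
    have : w ^ (ε / 4) * (w ^ (ε / 2) * w ^ (1 - ε)) ≤ w ^ (ε / 4) * (2 * G.card) := by linarith
    exact le_of_mul_le_mul_left this h7
  have h9 : 2 * w ^ (1 - ε) ≤ w ^ (ε / 2) * w ^ (1 - ε) :=
    mul_le_mul_of_nonneg_right h2y (by positivity)
  linarith

/-- the pointwise form -/
theorem ptU (κ CA C₀ k : ℕ) (ε θ δ : ℝ) (hε : 0 < ε) (hε1 : ε < 1) (hθ : 0 < θ) (hδ : 0 < δ) :
    ∃ X₀ : ℕ, ∀ X H D u y : ℕ, X₀ ≤ X → u ≤ X ^ C₀ → (X : ℝ) ^ θ ≤ y → y ≤ X ^ C₀ →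
      1 ≤ H → (X : ℝ) ^ ε ≤ D →
      (D : ℝ) * H ≤ (X : ℝ) ^ (1 - ε) → ∀ α β : Fin κ → ℤ, FormsOK CA C₀ X u α β →
      ∀ A ⊆ Ioc u (u + X),
      (∀ n ∈ A, ∀ i, ∀ q : ℕ, q.Prime → (q : ℤ) ∣ α i * n + β i → y < q) →
      ∀ T : Finset ℤ, T.card ≤ k → (∀ t ∈ T, |t| ≤ H) →
        ((A.filter (fun n : ℕ => (((Icc 1 D).filter (fun d : ℕ => ∀ t ∈ T, ∃ m ∈ A,
          (m : ℤ) = n + d * t)).card : ℝ) < (D : ℝ) ^ (1 - ε))).card : ℝ) ≤
          δ * (X * VV (FZ α β) y) := by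
  classical
  obtain ⟨X₀, h⟩ := manyU κ CA C₀ (k + 1) (ε / 3) θ δ (by positivity) (by linarith) hθ hδ
  obtain ⟨X₂, hX₂⟩ := ev_rpow 2 (2 * ε / 3) (by positivity)
  refine ⟨max X₀ (max X₂ 1), fun X H D u y hX huX hyθ hyX hH hDX₁ hDX α β hf A hA hAr T hTk hT => ?_⟩
  have hX0 := h X (2 * H) D u y ((le_max_left _ _).trans hX) huX hyθ hyX (by omega)
  have hX2 := hX₂ X (((le_max_left _ _).trans (le_max_right _ _)).trans hX)
  have hX1 : (1 : ℝ) ≤ X := by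
    have : 1 ≤ X := ((le_max_right _ _).trans (le_max_right _ _)).trans hX
    exact_mod_cast this
  have hD1' : (1 : ℝ) < D := by
    have h1 : (X : ℝ) ^ ε = ((X : ℝ) ^ (2 * ε / 3)) ^ ((3 : ℝ) / 2) := by
      rw [← Real.rpow_mul (by linarith)]
      congr 1
      ring
    have h2 : (1 : ℝ) < ((X : ℝ) ^ (2 * ε / 3)) ^ ((3 : ℝ) / 2) :=
      Real.one_lt_rpow (by linarith) (by norm_num)
    rw [← h1] at h2
    linarith
  have hD0 : (0 : ℝ) < D := by linarith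
  have hHr : (1 : ℝ) ≤ H := by exact_mod_cast hH
  by_contra hcon
  push Not at hcon
  obtain ⟨E, hE⟩ : ∃ E, E = A.filter (fun n : ℕ => (((Icc 1 D).filter (fun d : ℕ => ∀ t ∈ T,
    ∃ m ∈ A, (m : ℤ) = n + d * t)).card : ℝ) < (D : ℝ) ^ (1 - ε)) := ⟨_, rfl⟩
  rw [← hE] at hcon
  have hEA : E ⊆ A := by rw [hE]; exact filter_subset _ _
  have hEne : E.Nonempty := by
    rw [← card_pos]
    have h1 : (0 : ℝ) < E.card := by
      refine lt_of_le_of_lt ?_ hcon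
      exact mul_nonneg hδ.le (mul_nonneg (Nat.cast_nonneg _) (VV_nn _ _))
    exact_mod_cast h1
  -- the shifted set
  obtain ⟨T', hT'⟩ : ∃ T' : Finset ℕ, T' = insert H (T.image (fun t : ℤ => (t + H).toNat)) := ⟨_, rfl⟩
  have hT't : ∀ t ∈ T, (t + H).toNat ∈ T' := fun t ht => by
    rw [hT']
    exact mem_insert_of_mem (mem_image_of_mem _ ht)
  have hHT' : H ∈ T' := by rw [hT']; exact mem_insert_self _ _
  have hDX₁' : (X : ℝ) ^ (ε / 3) ≤ D :=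
    (Real.rpow_le_rpow_of_exponent_le hX1 (by linarith)).trans hDX₁
  have hD2H : (D : ℝ) * ((2 * H : ℕ) : ℝ) ≤ (X : ℝ) ^ (1 - ε / 3) := by
    push_cast
    calc (D : ℝ) * (2 * H) = 2 * (D * H) := by ring
      _ ≤ (X : ℝ) ^ (2 * ε / 3) * (X : ℝ) ^ (1 - ε) :=
          mul_le_mul hX2 hDX (by positivity) (by positivity)
      _ = (X : ℝ) ^ (1 - ε / 3) := by
          rw [← Real.rpow_add (by linarith)]
          congr 1
          ring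
  have hmain := hX0 hDX₁' hD2H α β hf E (hEA.trans hA) hEne (fun n hn => hAr n (hEA hn)) hcon.le T'
    (by
      rw [hT']
      exact (card_insert_le _ _).trans (Nat.succ_le_succ (card_image_le.trans hTk)))
    (by
      intro t ht
      rw [hT', mem_insert, mem_image] at ht
      rcases ht with rfl | ⟨t', ht', rfl⟩
      · omega
      · have := abs_le.1 (hT t' ht')
        omega)
  -- counting the pairs
  obtain ⟨G, hG⟩ : ∃ G, G = (Icc 1 D).filter (fun d => (X : ℝ) / (D : ℝ) ^ (ε / 3) ≤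
    (((Ioc u (u + X)).filter (fun n => ∀ t ∈ T', n + d * t ∈ E)).card : ℝ)) := ⟨_, rfl⟩
  rw [← hG] at hmain
  have hone : ∀ d ∈ G, (X : ℝ) / (D : ℝ) ^ (ε / 3) ≤
      ((E.filter (fun n : ℕ => ∀ t ∈ T, ∃ m ∈ A, (m : ℤ) = n + d * t)).card : ℝ) := by
    intro d hd
    rw [hG, mem_filter] at hd
    refine hd.2.trans ?_
    have h1 : ((Ioc u (u + X)).filter (fun n => ∀ t ∈ T', n + d * t ∈ E)).card ≤
        (E.filter (fun n : ℕ => ∀ t ∈ T, ∃ m ∈ A, (m : ℤ) = n + d * t)).card := by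
      refine card_le_card_of_injOn (fun n => n + d * H) ?_ ?_
      · intro n hn
        rw [mem_coe, mem_filter] at hn
        rw [mem_coe, mem_filter]
        refine ⟨hn.2 H hHT', fun t ht => ⟨_, hEA (hn.2 _ (hT't t ht)), ?_⟩⟩
        have h2 : ((t + H).toNat : ℤ) = t + H := Int.toNat_of_nonneg (by
          have := (abs_le.1 (hT t ht)).1
          linarith)
        push_cast
        rw [h2]
        ring
      · intro n _ n' _ hnn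
        simpa using hnn
    exact_mod_cast h1
  have hsum1 : (D : ℝ) ^ (1 - ε / 3) * ((X : ℝ) / (D : ℝ) ^ (ε / 3)) ≤
      ∑ d ∈ Icc 1 D, ((E.filter (fun n : ℕ => ∀ t ∈ T, ∃ m ∈ A, (m : ℤ) = n + d * t)).card : ℝ) := by
    calc (D : ℝ) ^ (1 - ε / 3) * ((X : ℝ) / (D : ℝ) ^ (ε / 3))
        ≤ G.card * ((X : ℝ) / (D : ℝ) ^ (ε / 3)) := mul_le_mul_of_nonneg_right hmain (by positivity)
      _ = ∑ _d ∈ G, (X : ℝ) / (D : ℝ) ^ (ε / 3) := by rw [sum_const, nsmul_eq_mul]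
      _ ≤ ∑ d ∈ G, ((E.filter (fun n : ℕ => ∀ t ∈ T, ∃ m ∈ A, (m : ℤ) = n + d * t)).card : ℝ) :=
          sum_le_sum hone
      _ ≤ _ := sum_le_sum_of_subset_of_nonneg (by rw [hG]; exact filter_subset _ _)
          (fun _ _ _ => Nat.cast_nonneg _)
  have hsum2 : ∑ d ∈ Icc 1 D, ((E.filter (fun n : ℕ => ∀ t ∈ T, ∃ m ∈ A,
      (m : ℤ) = n + d * t)).card : ℝ) =
      ∑ n ∈ E, (((Icc 1 D).filter (fun d : ℕ => ∀ t ∈ T, ∃ m ∈ A,
        (m : ℤ) = n + d * t)).card : ℝ) := by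
    simp only [card_filter, Nat.cast_sum]
    exact sum_comm
  have hsum3 : ∑ n ∈ E, (((Icc 1 D).filter (fun d : ℕ => ∀ t ∈ T, ∃ m ∈ A,
        (m : ℤ) = n + d * t)).card : ℝ) ≤ X * (D : ℝ) ^ (1 - ε) := by
    have h1 : ∀ n ∈ E, (((Icc 1 D).filter (fun d : ℕ => ∀ t ∈ T, ∃ m ∈ A,
        (m : ℤ) = n + d * t)).card : ℝ) ≤ (D : ℝ) ^ (1 - ε) := by
      intro n hn
      rw [hE, mem_filter] at hn
      exact hn.2.le
    refine (sum_le_sum h1).trans ?_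
    rw [sum_const, nsmul_eq_mul]
    apply mul_le_mul_of_nonneg_right _ (by positivity)
    have h2 : E.card ≤ X := by
      refine (card_le_card (hEA.trans hA)).trans ?_
      rw [Nat.card_Ioc]
      omega
    exact_mod_cast h2
  rw [hsum2] at hsum1
  have hfin := hsum1.trans hsum3
  have h1 : (D : ℝ) ^ (1 - ε / 3) * ((X : ℝ) / (D : ℝ) ^ (ε / 3)) =
      X * ((D : ℝ) ^ (1 - ε) * (D : ℝ) ^ (ε / 3)) := by
    have e1 : (D : ℝ) ^ (1 - ε / 3) = (D : ℝ) ^ (1 - ε) * (D : ℝ) ^ (ε / 3) * (D : ℝ) ^ (ε / 3) := by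
      rw [← Real.rpow_add hD0, ← Real.rpow_add hD0]
      congr 1
      ring
    have e2 : (D : ℝ) ^ (ε / 3) ≠ 0 := by positivity
    rw [e1]
    field_simp
  rw [h1] at hfin
  have h2 : 1 < (D : ℝ) ^ (ε / 3) := Real.one_lt_rpow hD1' (by positivity)
  have h3 : 0 < (D : ℝ) ^ (1 - ε) := by positivity
  have h4 : (D : ℝ) ^ (1 - ε) < (D : ℝ) ^ (1 - ε) * (D : ℝ) ^ (ε / 3) := by
    have := mul_lt_mul_of_pos_left h2 h3
    linarith
  have h5 : (X : ℝ) * (D : ℝ) ^ (1 - ε) < X * ((D : ℝ) ^ (1 - ε) * (D : ℝ) ^ (ε / 3)) :=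
    mul_lt_mul_of_pos_left h4 (by linarith)
  linarith

/-- the number of the dilations `1 ≤ d ≤ D` for which all the numbers `n + d t`, `t ∈ T`, belong to `A` -/
noncomputable def cps (A : Set ℕ) (T : Finset ℤ) (D n : ℕ) : ℕ :=
  {d : ℕ | 1 ≤ d ∧ d ≤ D ∧ ∀ t ∈ T, ∃ m ∈ A, (m : ℤ) = n + d * t}.ncard

/-- the form for sets -/
theorem ptSetU (κ CA C₀ k : ℕ) (ε θ δ : ℝ) (hε : 0 < ε) (hε1 : ε < 1) (hθ : 0 < θ) (hδ : 0 < δ) :
    ∃ X₀ : ℕ, ∀ X H D u y : ℕ, X₀ ≤ X → u ≤ X ^ C₀ → (X : ℝ) ^ θ ≤ y → y ≤ X ^ C₀ →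
      1 ≤ H → (X : ℝ) ^ ε ≤ D →
      (D : ℝ) * H ≤ (X : ℝ) ^ (1 - ε) → ∀ α β : Fin κ → ℤ, FormsOK CA C₀ X u α β →
      ∀ A : Set ℕ, (∀ n ∈ A, u < n ∧ n ≤ u + X ∧
        ∀ i, ∀ q : ℕ, q.Prime → (q : ℤ) ∣ α i * n + β i → y < q) →
      ∀ T : Finset ℤ, T.card ≤ k → (∀ t ∈ T, |t| ≤ H) →
        ({n : ℕ | n ∈ A ∧ (cps A T D n : ℝ) < (D : ℝ) ^ (1 - ε)}.ncard : ℝ) ≤
          δ * (X * VV (FZ α β) y) := by
  classical
  obtain ⟨X₀, h⟩ := ptU κ CA C₀ k ε θ δ hε hε1 hθ hδ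
  refine ⟨X₀, fun X H D u y hX huX hyθ hyX hH hDX₁ hDX α β hf A hA T hTk hT => ?_⟩
  obtain ⟨A', hA'⟩ : ∃ A' : Finset ℕ, ∀ p, p ∈ A' ↔ p ∈ A := by
    refine ⟨(Ioc u (u + X)).filter (fun p => p ∈ A), fun p => ?_⟩
    rw [mem_filter, mem_Ioc]
    exact ⟨fun h => h.2, fun h => ⟨⟨(hA p h).1, (hA p h).2.1⟩, h⟩⟩
  have h1 := h X H D u y hX huX hyθ hyX hH hDX₁ hDX α β hf A' (by
    intro p hp
    rw [mem_Ioc]
    have := hA p ((hA' p).1 hp)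
    exact ⟨this.1, this.2.1⟩) (fun n hn i q hq hqd => (hA n ((hA' n).1 hn)).2.2 i q hq hqd) T hTk hT
  have hcop : ∀ n : ℕ, cps A T D n = ((Icc 1 D).filter (fun d : ℕ => ∀ t ∈ T, ∃ m ∈ A',
          (m : ℤ) = n + d * t)).card := by
    intro n
    unfold cps
    rw [← Set.ncard_coe_finset]
    congr 1
    ext d
    simp only [coe_filter, mem_Icc, Set.mem_ofPred_eq]
    rw [and_assoc]
    refine and_congr_right fun _ => and_congr_right fun _ => forall₂_congr fun t _ => ?_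
    constructor
    · rintro ⟨q, hq, hq2⟩
      exact ⟨q, (hA' q).2 hq, hq2⟩
    · rintro ⟨q, hq, hq2⟩
      exact ⟨q, (hA' q).1 hq, hq2⟩
  refine le_trans (le_of_eq ?_) h1
  rw [← Set.ncard_coe_finset]
  congr 2
  ext n
  simp only [coe_filter, Set.mem_ofPred_eq]
  rw [hA', hcop]

end Pool.Agent.Helper51.UG
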