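import Pool.Agent.Helper51.UG.ClsU

/-!
# Dilates of arbitrary bounded sets of shifts in dense sets of `n` with rough values of linear forms,
uniformly in the forms
-/

set_option autoImplicit false

open Finset

namespace Pool.Agent.Helper51.UG

open Pool.Agent.Helper51.UD
open Pool.Agent.Helper51.UL
open Pool.Agent.Y880.RS (log_ev)
open Pool.Agent.Y677.RSZ (rt pig)

theorem dil0U (κ CA C₀ k : ℕ) (hk : 1 ≤ k) (ε θ δ : ℝ) (hε : 0 < ε) (hε1 : ε < 1) (hθ : ε ≤ θ)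
    (hδ : 0 < δ) :
    ∃ X₀ : ℕ, ∀ X H u y : ℕ, X₀ ≤ X → u ≤ X ^ C₀ → (X : ℝ) ^ θ ≤ y → y ≤ X ^ C₀ →
      (H : ℝ) ≤ (X : ℝ) ^ (1 - ε) → ∀ α β : Fin κ → ℤ,
      (∀ i, α i ≠ 0 ∧ |α i| ≤ CA ∧ |β i| ≤ (X : ℤ) ^ C₀) →
      (∀ i j, i ≠ j → α j * β i ≠ α i * β j) →
      (∀ i, ∀ n : ℕ, u < n → n ≤ u + 2 * X → α i * n + β i ≠ 0) →
      ∀ P ⊆ Ioc u (u + X), P.Nonempty →
      (∀ n ∈ P, ∀ i, ∀ q : ℕ, q.Prime → (q : ℤ) ∣ α i * n + β i → y < q) →
      δ * (X * VV (FZ α β) y) ≤ P.card →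
      ∀ a : Fin k → ℕ, Function.Injective a → (∀ i, a i ≤ H) →
        ∃ d : ℕ, 1 ≤ d ∧ (d : ℝ) ≤ (X : ℝ) ^ ε ∧ (X : ℝ) ^ (1 - ε) ≤
          (((Ioc u (u + X)).filter (fun n => ∀ i, n + d * a i ∈ P)).card : ℝ) := by
  classical
  obtain ⟨r, hr⟩ : ∃ r, r = 2 * k + 1 := ⟨_, rfl⟩
  obtain ⟨E₀, hE₀⟩ : ∃ E₀ : ℝ, E₀ = ((2 * MM r * κ : ℕ) : ℝ) ^ 2 := ⟨_, rfl⟩
  have hE₀0 : 0 ≤ E₀ := by rw [hE₀]; positivity
  have hC₀r : (0 : ℝ) ≤ C₀ := Nat.cast_nonneg _
  obtain ⟨A, hA⟩ : ∃ A, A = ⌈(32 * (E₀ * (C₀ + 3)) + 16 * (C₀ + 3)) / ε⌉₊ := ⟨_, rfl⟩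
  have hA1 : (32 * (E₀ * (C₀ + 3)) + 16 * (C₀ + 3)) / ε ≤ A := by
    rw [hA]; exact Nat.le_ceil _
  rw [div_le_iff₀ hε] at hA1
  have hA0 : (0 : ℝ) < A := by
    by_contra h
    push Not at h
    have := mul_nonpos_of_nonpos_of_nonneg h hε.le
    have h2 : 0 ≤ E₀ * (C₀ + 3) := by positivity
    linarith
  obtain ⟨cS, hcS, hstar⟩ := starU κ
  obtain ⟨cV, hcV, y₀, hy₀3, hlow⟩ := lowV κ CA
  obtain ⟨C₁, hC₁⟩ : ∃ C₁ : ℝ, C₁ = C₀ + 1 := ⟨_, rfl⟩
  have hC₁1 : 1 ≤ C₁ := by rw [hC₁]; linarith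
  have hC₁0 : 0 < C₁ := by linarith
  obtain ⟨c, hc, B₁, s₀, har⟩ := arithU r κ (by omega) A (δ * cS / (2 * (C₁ * A) ^ κ))
    (by positivity)
  obtain ⟨m, hm⟩ : ∃ m, m = (B₁ + 1) * (r + 1) := ⟨_, rfl⟩
  have hm1 : B₁ + 1 ≤ m := by rw [hm]; exact Nat.le_mul_of_pos_right _ (Nat.succ_pos r)
  obtain ⟨A₂, hA₂⟩ : ∃ A₂, A₂ = 2 * ((B₁ + 1) * (2 * r) + 3) := ⟨_, rfl⟩
  obtain ⟨Z₀, har⟩ := har A₂
  obtain ⟨Z₁, hZ₁⟩ := log_ev (A : ℝ)
  obtain ⟨n₀, hn₀⟩ := exPr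
  obtain ⟨K₁, hK₁⟩ : ∃ K₁ : ℝ, K₁ = 3 * (κ ^ 2 * (C₀ + 1) + 2) := ⟨_, rfl⟩
  have hK₁1 : 1 ≤ K₁ := by
    rw [hK₁]
    have : 0 ≤ (κ : ℝ) ^ 2 * (C₀ + 1) := by positivity
    linarith
  obtain ⟨s₁, hs₁⟩ : ∃ s₁ : ℝ, s₁ = |s₀| + CA + 2 * κ := ⟨_, rfl⟩
  have hs₁0 : 0 ≤ s₁ := by rw [hs₁]; positivity
  obtain ⟨K, hK⟩ : ∃ K : ℝ, K = 4 + 1 / c + 7 * r + 32 * s₁ / ε + κ ^ 2 + 2 * C₁ ^ κ / (δ * cV) +
      3 * CA + CA ^ 2 + n₀ + y₀ + C₀ := ⟨_, rfl⟩
  obtain ⟨X₁, hX₁⟩ := log_ev K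
  obtain ⟨X₂, hX₂⟩ := ev_rpow (max (Z₀ : ℝ) Z₁) (ε / 8) (by positivity)
  obtain ⟨X₃, hX₃⟩ := ev_rpow 2 (ε / 16) (by positivity)
  obtain ⟨X₄, hX₄⟩ := ev_log 2 (ε / 2 / (κ + 1)) (by positivity)
  obtain ⟨X₅, hX₅⟩ := ev_log 2 (ε / 16 / (m + 1)) (by positivity)
  obtain ⟨X₆, hX₆⟩ := ev_log (K₁ + 1) (ε / 16) (by positivity)
  refine ⟨max (max X₁ X₂) (max (max X₃ X₄) (max X₅ X₆)), ?_⟩
  intro X H u y hX huX hyθ hyX hHX α β hαβ hnp hnz P hP hPne hPp hPc a ha haH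
  have hX1 := hX₁ X (((le_max_left _ _).trans (le_max_left _ _)).trans hX)
  have hX2 := hX₂ X (((le_max_right _ _).trans (le_max_left _ _)).trans hX)
  have hX3 := hX₃ X (((le_max_left _ _).trans ((le_max_left _ _).trans (le_max_right _ _))).trans hX)
  have hX4 := hX₄ X (((le_max_right _ _).trans ((le_max_left _ _).trans (le_max_right _ _))).trans hX)
  have hX5 := hX₅ X (((le_max_left _ _).trans ((le_max_right _ _).trans (le_max_right _ _))).trans hX)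
  have hX6 := hX₆ X (((le_max_right _ _).trans ((le_max_right _ _).trans (le_max_right _ _))).trans hX)
  -- the logarithm
  obtain ⟨l, hl⟩ : ∃ l, l = Real.log X := ⟨_, rfl⟩
  rw [← hl] at hX1 hX4 hX5 hX6
  obtain ⟨hl4, hlc, hlr, hls, hlκ, hlδ, hlCA, hlCA2, hln₀, hly₀, hlC₀⟩ : 4 ≤ l ∧ 1 / c ≤ l ∧
      7 * (r : ℝ) ≤ l ∧ 32 * s₁ / ε ≤ l ∧ (κ : ℝ) ^ 2 ≤ l ∧ 2 * C₁ ^ κ / (δ * cV) ≤ l ∧
      4 + 3 * (CA : ℝ) ≤ l ∧ 4 + (CA : ℝ) ^ 2 ≤ l ∧ (n₀ : ℝ) ≤ l ∧ (y₀ : ℝ) ≤ l ∧ 4 + (C₀ : ℝ) ≤ l := by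
    have e1 : 0 < 1 / c := by positivity
    have e2 : 0 ≤ 32 * s₁ / ε := by positivity
    have e3 : (0 : ℝ) ≤ 7 * r := by positivity
    have e4 : (0 : ℝ) ≤ (κ : ℝ) ^ 2 := by positivity
    have e5 : 0 < 2 * C₁ ^ κ / (δ * cV) := by positivity
    have e6 : (0 : ℝ) ≤ CA := Nat.cast_nonneg _
    have e7 : (0 : ℝ) ≤ (CA : ℝ) ^ 2 := by positivity
    have e8 : (0 : ℝ) ≤ n₀ := Nat.cast_nonneg _
    have e9 : (0 : ℝ) ≤ y₀ := Nat.cast_nonneg _
    rw [hK] at hX1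
    refine ⟨?_, ?_, ?_, ?_, ?_, ?_, ?_, ?_, ?_, ?_, ?_⟩ <;> linarith
  have hXpos : 0 < X := by
    rcases Nat.eq_zero_or_pos X with h | h
    · rw [h] at hl
      simp at hl
      linarith
    · exact h
  have hx0 : (0 : ℝ) < X := by exact_mod_cast hXpos
  obtain ⟨x, hx⟩ : ∃ x : ℝ, x = X := ⟨_, rfl⟩
  have hlx : l ≤ x := by
    rw [hl, hx]
    have := Real.log_le_sub_one_of_pos hx0
    linarith
  have hx1 : 1 ≤ x := by linarith
  rw [← hx] at hX2 hX3 hX4 hX5 hX6 hHX hPc hyθ ⊢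
  have hx0' : 0 < x := by linarith
  have hl0 : 0 < l := by linarith
  have hl1 : 1 ≤ l := by linarith
  -- powers
  have hpw : ∀ {a b : ℝ}, a ≤ b → x ^ a ≤ x ^ b := fun h =>
    Real.rpow_le_rpow_of_exponent_le hx1 h
  have hpadd : ∀ a b : ℝ, x ^ a * x ^ b = x ^ (a + b) := fun a b => (Real.rpow_add hx0' a b).symm
  have hppos : ∀ a : ℝ, 0 < x ^ a := fun a => Real.rpow_pos_of_pos hx0' a
  have hlm : l ^ (m + 1) ≤ x ^ (ε / 16) := by
    calc l ^ (m + 1) ≤ (x ^ (ε / 16 / (m + 1))) ^ (m + 1) := by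
          apply pow_le_pow_left₀ hl0.le
          linarith
      _ = x ^ (ε / 16) := by
          rw [← Real.rpow_natCast (x ^ (ε / 16 / (m + 1))) (m + 1), ← Real.rpow_mul hx0'.le]
          congr 1
          push_cast
          field_simp
  have hl16 : l ≤ x ^ (ε / 16) := (le_self_pow₀ hl1 (Nat.succ_ne_zero m)).trans hlm
  -- the number `y`
  have hyl : l ≤ y := by
    refine le_trans ?_ hyθ
    exact hl16.trans (hpw (by linarith))
  have hyX' : (y : ℝ) ≤ x ^ C₀ := by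
    rw [hx]
    exact_mod_cast hyX
  have hy0 : (0 : ℝ) < y := by linarith
  have hy3 : 3 ≤ y := by
    have : (3 : ℝ) ≤ y := by linarith
    exact_mod_cast this
  have hlogy0 : 0 < Real.log y := Real.log_pos (by linarith)
  have hlogy : Real.log y ≤ C₁ * l := by
    calc Real.log y ≤ Real.log (x ^ C₀) := Real.log_le_log hy0 hyX'
      _ = C₀ * l := by rw [Real.log_pow, hl, hx]
      _ ≤ C₁ * l := by
          apply mul_le_mul_of_nonneg_right _ hl0.le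
          rw [hC₁]
          linarith
  -- the parameters
  obtain ⟨s, hs⟩ : ∃ s, s = ε / 32 * l := ⟨_, rfl⟩
  have hs1 : s₁ ≤ s := by
    rw [div_le_iff₀ hε] at hls
    rw [hs]
    linarith
  have hs0 : s₀ ≤ s := by
    have h2 := le_abs_self s₀
    have h3 : (0 : ℝ) ≤ CA := Nat.cast_nonneg _
    have h4 : (0 : ℝ) ≤ κ := Nat.cast_nonneg _
    linarith
  have hCs : (CA : ℝ) ≤ s := by
    have h2 := abs_nonneg s₀
    have h4 : (0 : ℝ) ≤ κ := Nat.cast_nonneg _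
    linarith
  have hκs : 2 * (κ : ℝ) ≤ s := by
    have h2 := abs_nonneg s₀
    have h3 : (0 : ℝ) ≤ CA := Nat.cast_nonneg _
    linarith
  have hsnn : 0 ≤ s := by rw [hs]; positivity
  have hsl : s ≤ l := by
    have h1 : ε / 32 * l ≤ 1 * l := mul_le_mul_of_nonneg_right (by linarith) hl0.le
    rw [hs]
    linarith
  -- the exceptional prime
  have hXC : ∀ i, |α i| ≤ CA ∧ |β i| ≤ (X : ℤ) ^ C₀ := fun i => (hαβ i).2
  have hXCA : 3 * CA + 4 ≤ X := by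
    have h1 : ((3 * CA + 4 : ℕ) : ℝ) ≤ X := by
      push_cast
      rw [← hx]
      linarith
    exact_mod_cast h1
  have hXCA2 : CA ^ 2 + 4 ≤ X := by
    have h1 : ((CA ^ 2 + 4 : ℕ) : ℝ) ≤ X := by
      push_cast
      rw [← hx]
      linarith
    exact_mod_cast h1
  have hΔ : ∀ i j, |α j * β i - α i * β j| ≤ (X : ℤ) ^ (C₀ + 1) := by
    intro i j
    have e1 : |α j * β i| ≤ (CA : ℤ) * (X : ℤ) ^ C₀ := by
      rw [abs_mul]
      exact mul_le_mul (hXC j).1 (hXC i).2 (abs_nonneg _) (by positivity)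
    have e2 : |α i * β j| ≤ (CA : ℤ) * (X : ℤ) ^ C₀ := by
      rw [abs_mul]
      exact mul_le_mul (hXC i).1 (hXC j).2 (abs_nonneg _) (by positivity)
    have e3 := abs_sub (α j * β i) (α i * β j)
    have e4 : (2 * (CA : ℤ)) ≤ X := by
      have : 2 * CA ≤ X := by omega
      exact_mod_cast this
    calc |α j * β i - α i * β j| ≤ (2 * (CA : ℤ)) * (X : ℤ) ^ C₀ := by linarith
      _ ≤ (X : ℤ) * (X : ℤ) ^ C₀ := mul_le_mul_of_nonneg_right e4 (by positivity)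
      _ = (X : ℤ) ^ (C₀ + 1) := by ring
  obtain ⟨E, hE1, hEl, hEp⟩ := exP ((univ : Finset (Fin κ)).offDiag)
    (fun w => α w.2 * β w.1 - α w.1 * β w.2) (X ^ (C₀ + 1)) (by
      intro w hw
      rw [mem_offDiag] at hw
      refine ⟨sub_ne_zero.2 (hnp _ _ hw.2.2), ?_⟩
      push_cast
      exact hΔ _ _)
  obtain ⟨p₀, hp₀p, hp₀s, hp₀n, hp₀E⟩ := hn₀ ⌈K₁ * l⌉₊ E s (by
      have h1 : (n₀ : ℝ) ≤ K₁ * l := by nlinarith
      exact_mod_cast h1.trans (Nat.le_ceil _)) hsnn (by omega) (by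
      have h1 : Real.log E ≤ κ ^ 2 * ((C₀ + 1) * l) := by
        refine hEl.trans ?_
        rw [Nat.cast_pow, Real.log_pow, ← hl]
        push_cast
        apply mul_le_mul_of_nonneg_right _ (by positivity)
        have h2 : (univ : Finset (Fin κ)).offDiag.card ≤ κ ^ 2 := by
          rw [offDiag_card, card_univ, Fintype.card_fin, pow_two]
          omega
        exact_mod_cast h2
      have h2 : K₁ * l ≤ ⌈K₁ * l⌉₊ := Nat.le_ceil _
      rw [hK₁] at h2 ⊢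
      nlinarith)
  have hp₀x : (p₀ : ℝ) ≤ x ^ (ε / 16) := by
    have h1 : (p₀ : ℝ) ≤ ⌈K₁ * l⌉₊ := by exact_mod_cast hp₀n
    have h2 : (⌈K₁ * l⌉₊ : ℝ) < K₁ * l + 1 := Nat.ceil_lt_add_one (by positivity)
    have h3 : K₁ * l + 1 ≤ (K₁ + 1) * l := by linarith
    linarith
  have hdegp : ∀ i j, i ≠ j → ¬ (p₀ : ℤ) ∣ α j * β i - α i * β j := by
    intro i j hij hd
    exact hp₀E (hEp (i, j) (mem_offDiag.2 ⟨mem_univ _, mem_univ _, hij⟩) p₀ hd)
  obtain ⟨Q₀, hQ₀⟩ : ∃ Q₀, Q₀ = primorial ⌊s⌋₊ := ⟨_, rfl⟩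
  have hQ₀1 : 1 ≤ Q₀ := by rw [hQ₀]; exact primorial_pos _
  have hQ₀p : ∀ p : ℕ, p.Prime → (p ∣ Q₀ ↔ (p : ℝ) ≤ s) := by
    intro p hp
    have h1 : p ∈ Q₀.primeFactors ↔ p ∣ Q₀ := by
      rw [Nat.mem_primeFactors]
      exact ⟨fun h => h.2.1, fun h => ⟨hp, h, by omega⟩⟩
    rw [← h1, hQ₀, primeFactors_primorial, Nat.mem_primesLE, ← Nat.le_floor_iff hsnn]
    exact ⟨fun h => h.1, fun h => ⟨h, hp⟩⟩
  obtain ⟨Q, hQ⟩ : ∃ Q, Q = Q₀ * p₀ := ⟨_, rfl⟩
  have hp₀1 : 1 ≤ p₀ := hp₀p.one_lt.le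
  have hQ1 : 1 ≤ Q := by rw [hQ]; exact Nat.mul_pos hQ₀1 hp₀1
  have hQsq : Squarefree Q := by
    rw [hQ, Nat.squarefree_mul]
    · refine ⟨?_, hp₀p.squarefree⟩
      rw [hQ₀]
      exact squarefree_primorial _
    · rw [Nat.coprime_comm, Nat.Prime.coprime_iff_not_dvd hp₀p, hQ₀p p₀ hp₀p]
      exact not_le.2 hp₀s
  have hQs : ∀ p : ℕ, p.Prime → (p : ℝ) ≤ s → p ∣ Q := fun p hp hps => by
    rw [hQ]
    exact ((hQ₀p p hp).2 hps).mul_right _
  have hQy : ∀ p : ℕ, p.Prime → p ∣ Q → p ≤ y := by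
    intro p hp hpQ
    rw [hQ, Nat.Prime.dvd_mul hp] at hpQ
    rcases hpQ with h | h
    · have h1 := (hQ₀p p hp).1 h
      have h2 : (p : ℝ) ≤ y := by linarith
      exact_mod_cast h2
    · rw [(Nat.prime_dvd_prime_iff_eq hp hp₀p).1 h]
      have h2 : (p₀ : ℝ) ≤ y := hp₀x.trans ((hpw (by linarith)).trans hyθ)
      exact_mod_cast h2
  have hQx : (Q : ℝ) ≤ x ^ (ε / 8) := by
    have h1 : (Q₀ : ℝ) ≤ (4 : ℝ) ^ ⌊s⌋₊ := by
      rw [hQ₀]
      exact_mod_cast primorial_le_four_pow _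
    have h2 : (4 : ℝ) ^ ⌊s⌋₊ ≤ Real.exp (2 * s) := by
      have h3 : (4 : ℝ) ≤ Real.exp 2 := by
        have := Real.quadratic_le_exp_of_nonneg (show (0 : ℝ) ≤ 2 by norm_num)
        linarith
      calc (4 : ℝ) ^ ⌊s⌋₊ ≤ (Real.exp 2) ^ ⌊s⌋₊ := pow_le_pow_left₀ (by norm_num) h3 _
        _ = Real.exp (⌊s⌋₊ * 2) := (Real.exp_nat_mul 2 _).symm
        _ ≤ Real.exp (2 * s) := by
          apply Real.exp_le_exp.2
          have := Nat.floor_le hsnn
          linarith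
    have h3 : Real.exp (2 * s) = x ^ (ε / 16) := by
      rw [Real.rpow_def_of_pos hx0', hs, hl, hx]
      congr 1
      ring
    rw [hQ]
    push_cast
    calc (Q₀ : ℝ) * p₀ ≤ x ^ (ε / 16) * x ^ (ε / 16) :=
          mul_le_mul (h1.trans (h2.trans h3.le)) hp₀x (Nat.cast_nonneg _) (hppos _).le
      _ = x ^ (ε / 8) := by
          rw [hpadd]
          congr 1
          ring
  obtain ⟨Z, hZ⟩ : ∃ Z, Z = ⌊x ^ (ε / 8)⌋₊ := ⟨_, rfl⟩
  have hZx : (Z : ℝ) ≤ x ^ (ε / 8) := by rw [hZ]; exact Nat.floor_le (by positivity)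
  have hZ0 : Z₀ ≤ Z := by rw [hZ]; exact Nat.le_floor ((le_max_left _ _).trans hX2)
  have hZ1 : Z₁ ≤ Z := by rw [hZ]; exact Nat.le_floor ((le_max_right _ _).trans hX2)
  have hlogZ := hZ₁ Z hZ1
  have hZ16 : x ^ (ε / 16) ≤ Z := by
    have h1 : x ^ (ε / 8) = x ^ (ε / 16) * x ^ (ε / 16) := by
      rw [hpadd]
      congr 1
      ring
    have h2 : x ^ (ε / 8) < Z + 1 := by rw [hZ]; exact Nat.lt_floor_add_one _
    have h3 : 2 * x ^ (ε / 16) ≤ x ^ (ε / 16) * x ^ (ε / 16) :=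
      mul_le_mul_of_nonneg_right hX3 (hppos _).le
    linarith
  have hZpos : 0 < Z := by
    have : (0 : ℝ) < Z := lt_of_lt_of_le (by positivity) hZ16
    exact_mod_cast this
  have hZx' : (Z : ℝ) ≤ x := by
    refine hZx.trans ?_
    calc x ^ (ε / 8) ≤ x ^ (1 : ℝ) := hpw (by linarith)
      _ = x := Real.rpow_one x
  have hlogZl : Real.log Z ≤ l := by
    rw [hl, ← hx]
    exact Real.log_le_log (by exact_mod_cast hZpos) hZx'
  have hlogZ0 : 0 < Real.log Z := by linarith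
  have hXZA0 : x ^ (C₀ + 3) ≤ (Z : ℝ) ^ A := by
    calc x ^ (C₀ + 3) = x ^ ((C₀ + 3 : ℕ) : ℝ) := (Real.rpow_natCast _ _).symm
      _ ≤ x ^ (ε / 16 * A) := by
          apply hpw
          push_cast
          have : 0 ≤ E₀ * (C₀ + 3) := by positivity
          linarith
      _ = (x ^ (ε / 16)) ^ A := by rw [Real.rpow_mul hx0'.le, Real.rpow_natCast]
      _ ≤ (Z : ℝ) ^ A := pow_le_pow_left₀ (by positivity) hZ16 A
  have hXZA : X ^ (C₀ + 3) ≤ Z ^ A := by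
    rw [hx] at hXZA0
    exact_mod_cast hXZA0
  have hlA : l ≤ A * Real.log Z := by
    have h1 : x ≤ (Z : ℝ) ^ A := le_trans (le_self_pow₀ hx1 (by omega)) hXZA0
    calc l = Real.log x := by rw [hl, hx]
      _ ≤ Real.log ((Z : ℝ) ^ A) := Real.log_le_log hx0' h1
      _ = A * Real.log Z := Real.log_pow _ _
  obtain ⟨N, hN⟩ : ∃ N, N = ⌈l ^ B₁⌉₊ := ⟨_, rfl⟩
  have hNlo : l ^ B₁ ≤ N := by rw [hN]; exact Nat.le_ceil _
  have hNhi : (N : ℝ) ≤ l ^ (B₁ + 1) := by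
    have h1 : (N : ℝ) < l ^ B₁ + 1 := by rw [hN]; exact Nat.ceil_lt_add_one (by positivity)
    have h2 : 1 ≤ l ^ B₁ := one_le_pow₀ (by linarith)
    have h3 : l ^ B₁ * 4 ≤ l ^ B₁ * l := mul_le_mul_of_nonneg_left hl4 (by linarith)
    rw [pow_succ]
    linarith
  have hN1 : (1 : ℝ) ≤ N := (one_le_pow₀ (by linarith)).trans hNlo
  have hNpos : 0 < N := by
    have : (0 : ℝ) < N := by linarith
    exact_mod_cast this
  have hNne : NeZero N := ⟨hNpos.ne'⟩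
  have hNh : (N : ℝ) ≤ x ^ (ε / 16) :=
    hNhi.trans ((pow_le_pow_right₀ hl1 (by omega)).trans hlm)
  have hNrh : (N : ℝ) ^ (r + 1) ≤ x ^ (ε / 16) := by
    calc (N : ℝ) ^ (r + 1) ≤ (l ^ (B₁ + 1)) ^ (r + 1) := pow_le_pow_left₀ (by positivity) hNhi _
      _ = l ^ m := by rw [← pow_mul, hm]
      _ ≤ l ^ (m + 1) := pow_le_pow_right₀ hl1 (Nat.le_succ m)
      _ ≤ _ := hlm
  obtain ⟨R, hR⟩ : ∃ R, R = r * ((2 * H + 3) * N) + 2 := ⟨_, rfl⟩
  obtain ⟨g, hg⟩ : ∃ g, g = x ^ (1 - ε) := ⟨_, rfl⟩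
  have hg1 : 1 ≤ g := by rw [hg]; exact Real.one_le_rpow hx1 (by linarith)
  have hR1 : (R : ℝ) ≤ l * (g * N) := by
    have h1 : (R : ℝ) = r * ((2 * H + 3) * N) + 2 := by rw [hR]; push_cast; ring
    rw [h1]
    have h2 : (1 : ℝ) ≤ g * N := one_le_mul_of_one_le_of_one_le hg1 hN1
    have h3 : (1 : ℝ) ≤ r := by
      have : 1 ≤ r := by omega
      exact_mod_cast this
    have h4 : (2 * (H : ℝ) + 3) * N ≤ 5 * (g * N) := by
      have h5 : (2 * (H : ℝ) + 3) * N ≤ (5 * g) * N := by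
        apply mul_le_mul_of_nonneg_right _ (by linarith)
        rw [hg] at hg1 ⊢
        linarith
      linarith
    calc (r : ℝ) * ((2 * H + 3) * N) + 2 ≤ r * (5 * (g * N)) + 2 * (r * (g * N)) := by
          have h5 : (r : ℝ) * ((2 * H + 3) * N) ≤ r * (5 * (g * N)) :=
            mul_le_mul_of_nonneg_left h4 (by positivity)
          have h6 : 1 ≤ (r : ℝ) * (g * N) := one_le_mul_of_one_le_of_one_le h3 h2
          linarith
      _ = 7 * r * (g * N) := by ring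
      _ ≤ l * (g * N) := mul_le_mul_of_nonneg_right hlr (by positivity)
  have hRpos : (0 : ℝ) < R := by rw [hR]; positivity
  have hQR : (Q : ℝ) * R ≤ x ^ (1 - ε / 2) := by
    have h1 : (Q : ℝ) * R ≤ x ^ (ε / 8) * (x ^ (ε / 16) * (g * x ^ (ε / 16))) := by
      refine mul_le_mul hQx (hR1.trans ?_) hRpos.le (by positivity)
      exact mul_le_mul hl16 (mul_le_mul_of_nonneg_left hNh (by linarith)) (by positivity)
        (by positivity)
    have h2 : x ^ (ε / 8) * (x ^ (ε / 16) * (g * x ^ (ε / 16))) = x ^ (1 - 3 * ε / 4) := by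
      rw [hg, hpadd, hpadd, hpadd]
      congr 1
      ring
    rw [h2] at h1
    exact h1.trans (hpw (by linarith))
  obtain ⟨b, hb, hbH, hb1, hb2, hb3⟩ := pts k H a ha haH
  subst hr
  have hrn : ∀ z : Fin (2 * k + 1) → ZMod N, rn b z + 2 ≤ R := by
    intro z
    rw [hR]
    apply Nat.add_le_add_right
    unfold rn
    calc ∑ l, b l * (z l).val ≤ ∑ _l : Fin (2 * k + 1), (2 * H + 3) * N :=
          sum_le_sum fun l _ => Nat.mul_le_mul (hbH l) (ZMod.val_lt _).le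
      _ = (2 * k + 1) * ((2 * H + 3) * N) := by
          rw [sum_const, card_univ, Fintype.card_fin, smul_eq_mul]
  have hφ0 : (0 : ℝ) < Q.totient := by exact_mod_cast Nat.totient_pos.2 hQ1
  have hQ0 : (0 : ℝ) < Q := by exact_mod_cast hQ1
  have hQRX : Q * R ≤ X := by
    have h1 : ((Q * R : ℕ) : ℝ) ≤ x := by
      push_cast
      refine hQR.trans ?_
      calc x ^ (1 - ε / 2) ≤ x ^ (1 : ℝ) := hpw (by linarith)
        _ = x := Real.rpow_one x
    rw [hx] at h1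
    exact_mod_cast h1
  -- the sieve product
  have hV0 : cV / (C₁ * l) ^ κ ≤ VV (FZ α β) y := by
    obtain ⟨n, hn⟩ := hPne
    have h1 := hlow α β (fun i => ⟨(hαβ i).1, (hαβ i).2.1⟩) y (by
      have : (y₀ : ℝ) ≤ y := hly₀.trans hyl
      exact_mod_cast this) ⟨n, fun p hp hpy hd => by
        rw [FZ_dvd α β hp] at hd
        obtain ⟨i, hi⟩ := hd
        have := hPp n hn i p hp hi
        omega⟩
    refine le_trans ?_ h1
    apply div_le_div_of_nonneg_left hcV.le (by positivity)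
    exact pow_le_pow_left₀ hlogy0.le hlogy κ
  have hVpos : 0 < VV (FZ α β) y := lt_of_lt_of_le (by positivity) hV0
  -- the set
  obtain ⟨P₁, hP₁⟩ : ∃ P₁ : Finset ℕ, P₁ = P.filter (fun p : ℕ => u + x ^ (1 - ε / 2) < (p : ℝ)) :=
    ⟨_, rfl⟩
  have hP₁c : δ / 2 * (x * VV (FZ α β) y) ≤ P₁.card := by
    have h1 : P.card ≤ P₁.card + ⌊x ^ (1 - ε / 2)⌋₊ := by
      have h2 : P ⊆ P₁ ∪ Ioc u (u + ⌊x ^ (1 - ε / 2)⌋₊) := by
        intro p hp
        rw [mem_union, hP₁, mem_filter, mem_Ioc]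
        by_cases h3 : u + x ^ (1 - ε / 2) < (p : ℝ)
        · exact Or.inl ⟨hp, h3⟩
        · push Not at h3
          have h5 := (mem_Ioc.1 (hP hp)).1
          refine Or.inr ⟨h5, ?_⟩
          have h4 : p - u ≤ ⌊x ^ (1 - ε / 2)⌋₊ := by
            apply Nat.le_floor
            rw [Nat.cast_sub h5.le]
            linarith
          omega
      refine (card_le_card h2).trans ((card_union_le _ _).trans ?_)
      rw [Nat.card_Ioc]
      omega
    have h2 : (P.card : ℝ) ≤ P₁.card + x ^ (1 - ε / 2) := by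
      have h3 : (P.card : ℝ) ≤ P₁.card + ⌊x ^ (1 - ε / 2)⌋₊ := by exact_mod_cast h1
      have h4 := Nat.floor_le (show 0 ≤ x ^ (1 - ε / 2) by positivity)
      linarith
    have h3 : x ^ (1 - ε / 2) ≤ δ / 2 * (x * VV (FZ α β) y) := by
      have h6 : 2 * C₁ ^ κ / (δ * cV) * l ^ κ ≤ x ^ (ε / 2) := by
        calc 2 * C₁ ^ κ / (δ * cV) * l ^ κ ≤ l * l ^ κ :=
              mul_le_mul_of_nonneg_right hlδ (by positivity)
          _ = l ^ (κ + 1) := (pow_succ' l κ).symm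
          _ ≤ (x ^ (ε / 2 / (κ + 1))) ^ (κ + 1) := by
              apply pow_le_pow_left₀ hl0.le
              linarith
          _ = x ^ (ε / 2) := by
              rw [← Real.rpow_natCast (x ^ (ε / 2 / (κ + 1))) (κ + 1), ← Real.rpow_mul hx0'.le]
              congr 1
              push_cast
              field_simp
      have h7 : 1 ≤ δ / 2 * (x ^ (ε / 2) * VV (FZ α β) y) := by
        calc (1 : ℝ) = δ / 2 * ((2 * C₁ ^ κ / (δ * cV) * l ^ κ) * (cV / (C₁ * l) ^ κ)) := by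
              rw [mul_pow]
              field_simp
          _ ≤ _ := by
              apply mul_le_mul_of_nonneg_left _ (by positivity)
              exact mul_le_mul h6 hV0 (by positivity) (by positivity)
      calc x ^ (1 - ε / 2) = x ^ (1 - ε / 2) * 1 := (mul_one _).symm
        _ ≤ x ^ (1 - ε / 2) * (δ / 2 * (x ^ (ε / 2) * VV (FZ α β) y)) :=
            mul_le_mul_of_nonneg_left h7 (hppos _).le
        _ = δ / 2 * ((x ^ (1 - ε / 2) * x ^ (ε / 2)) * VV (FZ α β) y) := by ring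
        _ = δ / 2 * (x * VV (FZ α β) y) := by
            rw [hpadd]
            have : 1 - ε / 2 + ε / 2 = 1 := by ring
            rw [this, Real.rpow_one]
    have h4 : δ * (x * VV (FZ α β) y) = δ / 2 * (x * VV (FZ α β) y) +
      δ / 2 * (x * VV (FZ α β) y) := by ring
    linarith
  have hP₁ne : P₁.Nonempty := by
    rw [← card_pos]
    have h1 : (0 : ℝ) < P₁.card := lt_of_lt_of_le (by positivity) hP₁c
    exact_mod_cast h1
  have hP₁p : ∀ n ∈ P₁, n ∈ P ∧ u + Q * R < n := by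
    intro p hp
    rw [hP₁, mem_filter] at hp
    refine ⟨hp.1, ?_⟩
    have h1 : ((u + Q * R : ℕ) : ℝ) < p := by
      push_cast
      linarith [hp.2]
    exact_mod_cast h1
  obtain ⟨hprod0, a₀, ha₀⟩ := class_exU α β P₁ hP₁ne Q hQsq (by
    intro n hn i p hp hpQ hpn
    have h1 := hPp n (hP₁p n hn).1 i p hp hpn
    have h2 := hQy p hp hpQ
    omega)
  obtain ⟨P', hP'⟩ : ∃ P', P' = P₁.filter (fun p => p % Q = a₀ % Q) := ⟨_, rfl⟩
  rw [← hP'] at ha₀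
  have hP'P : P' ⊆ P := by
    intro p hp
    rw [hP', mem_filter] at hp
    exact (hP₁p p hp.1).1
  have hZQX : Z * Q ≤ X := by
    have h1 : ((Z * Q : ℕ) : ℝ) ≤ x := by
      push_cast
      calc (Z : ℝ) * Q ≤ x ^ (ε / 8) * x ^ (ε / 8) := mul_le_mul hZx hQx hQ0.le (by positivity)
        _ = x ^ (ε / 8 + ε / 8) := hpadd _ _
        _ ≤ x ^ (1 : ℝ) := hpw (by linarith)
        _ = x := Real.rpow_one x
    rw [hx] at h1
    exact_mod_cast h1
  have hlogV : Real.log ((X ^ (C₀ + 3) : ℕ) : ℝ) = (C₀ + 3) * l := by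
    rw [Nat.cast_pow, Real.log_pow, hl]
    push_cast
    ring
  have hcond1 : ((N : ℝ) ^ (2 * k + 1) * κ) ^ 2 * Real.log ((X ^ (C₀ + 3) : ℕ) : ℝ) ≤
      Real.log Z ^ A₂ := by
    rw [hlogV]
    calc ((N : ℝ) ^ (2 * k + 1) * κ) ^ 2 * ((C₀ + 3) * l)
        = (N : ℝ) ^ (2 * (2 * k + 1)) * ((κ : ℝ) ^ 2 * ((C₀ + 3) * l)) := by
          rw [mul_pow, ← pow_mul]
          ring
      _ ≤ (l ^ (B₁ + 1)) ^ (2 * (2 * k + 1)) * (l * (l * l)) := by
          refine mul_le_mul (pow_le_pow_left₀ (by positivity) hNhi _) ?_ (by positivity)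
            (by positivity)
          refine mul_le_mul hlκ ?_ (by positivity) hl0.le
          exact mul_le_mul_of_nonneg_right (by linarith) hl0.le
      _ = l ^ ((B₁ + 1) * (2 * (2 * k + 1)) + 3) := by rw [← pow_mul, pow_add]; ring
      _ ≤ (Real.log Z * Real.log Z) ^ ((B₁ + 1) * (2 * (2 * k + 1)) + 3) := by
          refine pow_le_pow_left₀ hl0.le (hlA.trans ?_) _
          exact mul_le_mul_of_nonneg_right hlogZ hlogZ0.le
      _ = Real.log Z ^ A₂ := by rw [hA₂, ← pow_two, ← pow_mul]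
  have hcond2 : ((2 * MM (2 * k + 1) * κ : ℕ) : ℝ) ^ 2 *
      Real.log ((X ^ (C₀ + 3) : ℕ) : ℝ) ≤ A * s := by
    rw [hlogV, ← hE₀]
    calc E₀ * ((C₀ + 3) * l) = (32 * (E₀ * (C₀ + 3))) / 32 * l := by ring
      _ ≤ (A * ε) / 32 * l := by
          apply mul_le_mul_of_nonneg_right _ hl0.le
          linarith
      _ = A * s := by rw [hs]; ring
  have hcond3 : δ * cS / (2 * (C₁ * A) ^ κ) * ((X / Q : ℝ) *
      ((Q : ℝ) / (Q.totient * Real.log Z)) ^ κ) ≤ P'.card := by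
    refine le_trans ?_ ha₀
    rw [← hx]
    obtain ⟨Wp, hWp⟩ : ∃ Wp, Wp = ∏ p ∈ Q.primeFactors, (1 - (rt (FZ α β) p : ℝ) / p) := ⟨_, rfl⟩
    rw [← hWp] at hprod0 ⊢
    have h0 := hstar (FZ α β) Q y hQ1 hy3 hQy (by
      intro p hp hpQ
      have h2 : s < p := by
        by_contra hcon
        exact hpQ (hQs p hp (not_lt.1 hcon))
      refine ⟨?_, rt_leZ α β p hp fun i hi => ?_⟩
      · have h3 : (2 : ℝ) * κ < p := by linarith
        have h4 : 2 * κ < p := by exact_mod_cast h3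
        omega
      · have h3 := Int.le_of_dvd (abs_pos.2 (hαβ i).1) ((dvd_abs _ _).2 hi)
        have h4 := h3.trans (hαβ i).2.1
        have h5 : (p : ℝ) ≤ CA := by exact_mod_cast h4
        linarith)
    rw [← hWp] at h0
    rw [le_div_iff₀ (mul_pos hQ0 hprod0)]
    refine le_trans ?_ hP₁c
    have h1 : δ * cS / (2 * (C₁ * A) ^ κ) * ((x / Q : ℝ) *
        ((Q : ℝ) / (Q.totient * Real.log Z)) ^ κ) * (Q * Wp) =
        δ / 2 * (x * (cS * Wp * ((Q : ℝ) / (Q.totient * (C₁ * (A * Real.log Z)))) ^ κ)) := by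
      rw [div_pow, div_pow, mul_pow, mul_pow, mul_pow, mul_pow, mul_pow]
      field_simp
    rw [h1]
    apply mul_le_mul_of_nonneg_left _ (by positivity)
    apply mul_le_mul_of_nonneg_left _ hx0'.le
    refine le_trans ?_ h0
    apply mul_le_mul_of_nonneg_left _ (by positivity)
    apply pow_le_pow_left₀ (by positivity)
    apply div_le_div_of_nonneg_left hQ0.le (by positivity)
    apply mul_le_mul_of_nonneg_left _ hφ0.le
    refine hlogy.trans ?_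
    exact mul_le_mul_of_nonneg_left hlA hC₁0.le
  have hQZA : Q ≤ Z ^ A := by
    have h1 : (Q : ℝ) ≤ (Z : ℝ) ^ A := by
      refine le_trans ?_ hXZA0
      refine le_trans ?_ (le_self_pow₀ hx1 (by omega))
      refine hQx.trans ?_
      calc x ^ (ε / 8) ≤ x ^ (1 : ℝ) := hpw (by linarith)
        _ = x := Real.rpow_one x
    exact_mod_cast h1
  have hXge2 : 2 ≤ X := by omega
  obtain ⟨D, hD, hDN, hcount⟩ := har Z Q N X R u CA (X ^ (C₀ + 3)) s hZ0 hQ1 hs0 hQs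
    ((pow_le_pow_left₀ hlogZ0.le hlogZl B₁).trans hNlo) hcond1 hcond2
    hZQX hQZA hQRX hCs b hb hrn α β (fun i => ⟨(hαβ i).1, (hαβ i).2.1⟩)
    (by
      intro i j hij m _ h0
      apply hdegp i j hij
      have h1 : α j * β i - α i * β j = -(α i * α j * (Q * m)) := by linarith
      rw [h1, hQ]
      refine (dvd_neg).2 ?_
      push_cast
      exact ⟨α i * α j * (Q₀ * m), by ring⟩)
    (by
      intro i j m hm'
      have e1 : |α i * α j * (Q * m)| ≤ (X : ℤ) ^ (C₀ + 2) := by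
        rw [abs_mul, abs_mul, abs_mul, abs_of_nonneg (show (0 : ℤ) ≤ (Q : ℤ) by positivity)]
        calc |α i| * |α j| * ((Q : ℤ) * |m|) ≤ ((CA : ℤ) * CA) * (Q * R) := by
              apply mul_le_mul
              · exact mul_le_mul (hXC i).1 (hXC j).1 (abs_nonneg _) (by positivity)
              · exact mul_le_mul_of_nonneg_left hm' (by positivity)
              · positivity
              · positivity
          _ ≤ (X : ℤ) * X := by
              apply mul_le_mul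
              · have : CA * CA ≤ X := by
                  have := pow_two CA
                  omega
                exact_mod_cast this
              · exact_mod_cast hQRX
              · positivity
              · positivity
          _ = (X : ℤ) ^ 2 := by ring
          _ ≤ (X : ℤ) ^ (C₀ + 2) := by
              have : X ^ 2 ≤ X ^ (C₀ + 2) := Nat.pow_le_pow_right hXpos (by omega)
              exact_mod_cast this
      have e2 : (X : ℤ) ^ (C₀ + 1) ≤ (X : ℤ) ^ (C₀ + 2) := by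
        have : X ^ (C₀ + 1) ≤ X ^ (C₀ + 2) := Nat.pow_le_pow_right hXpos (by omega)
        exact_mod_cast this
      have e3 : 2 * (X : ℤ) ^ (C₀ + 2) ≤ (X : ℤ) ^ (C₀ + 3) := by
        have : 2 * X ^ (C₀ + 2) ≤ X ^ (C₀ + 3) := by
          rw [pow_succ X (C₀ + 2), mul_comm]
          exact Nat.mul_le_mul_left _ hXge2
        exact_mod_cast this
      have e4 := abs_add_le (α i * α j * (Q * m)) (α j * β i - α i * β j)
      have e5 := hΔ i j
      push_cast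
      linarith)
    (by
      intro i n hn1 hn2
      refine ⟨hnz i n hn1 hn2, ?_⟩
      refine le_trans ?_ hXZA
      have e1 : |α i * n + β i| ≤ (X : ℤ) ^ (C₀ + 2) := by
        refine (abs_add_le _ _).trans ?_
        rw [abs_mul, abs_of_nonneg (show (0 : ℤ) ≤ (n : ℤ) by positivity)]
        have f1 : n ≤ 3 * X ^ (C₀ + 1) := by
          have g1 : X ^ C₀ ≤ X ^ (C₀ + 1) := Nat.pow_le_pow_right hXpos (by omega)
          have g2 : X ≤ X ^ (C₀ + 1) := Nat.le_self_pow (by omega) X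
          omega
        have f2 : |α i| * (n : ℤ) ≤ CA * (3 * (X : ℤ) ^ (C₀ + 1)) := by
          apply mul_le_mul (hXC i).1 (by exact_mod_cast f1) (by positivity) (by positivity)
        have f3 : |β i| ≤ (X : ℤ) ^ (C₀ + 1) := by
          refine (hXC i).2.trans ?_
          have : X ^ C₀ ≤ X ^ (C₀ + 1) := Nat.pow_le_pow_right hXpos (by omega)
          exact_mod_cast this
        have f4 : (3 * (CA : ℤ) + 1) * (X : ℤ) ^ (C₀ + 1) ≤ (X : ℤ) * (X : ℤ) ^ (C₀ + 1) := by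
          apply mul_le_mul_of_nonneg_right _ (by positivity)
          have : 3 * CA + 1 ≤ X := by omega
          exact_mod_cast this
        calc |α i| * (n : ℤ) + |β i| ≤ (3 * (CA : ℤ) + 1) * (X : ℤ) ^ (C₀ + 1) := by linarith
          _ ≤ (X : ℤ) * (X : ℤ) ^ (C₀ + 1) := f4
          _ = (X : ℤ) ^ (C₀ + 2) := by ring
      have e2 : va (α i) (β i) n ≤ X ^ (C₀ + 2) := by
        have h2 : ((va (α i) (β i) n : ℕ) : ℤ) ≤ ((X ^ (C₀ + 2) : ℕ) : ℤ) := by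
          unfold va
          rw [Int.natCast_natAbs]
          push_cast
          exact e1
        exact_mod_cast h2
      exact e2.trans (Nat.pow_le_pow_right hXpos (by omega)))
    a₀ P'
    (by
      intro p hp
      rw [hP', mem_filter] at hp
      obtain ⟨h1, h3⟩ := hP₁p p hp.1
      refine ⟨(mem_Ioc.1 (hP h1)).2, h3, hp.2, fun i q hq hqp => ?_⟩
      have h4 := hPp p h1 i q hq hqp
      have h5 : (Z : ℝ) ≤ y := hZx.trans ((hpw (by linarith)).trans hyθ)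
      have h6 : Z ≤ y := by exact_mod_cast h5
      omega)
    hcond3
  obtain ⟨d, hd1, hd2, hd3⟩ := signW k H u (u + X) Q hk hQ1 a haH P hP b hb1 hb2 hb3 D hD P' hP'P
  refine ⟨d, hd1, ?_, ?_⟩
  · have h1 : (d : ℝ) ≤ Q * N := by
      have h2 : (d : ℤ) ≤ Q * N := by
        rw [hd2]
        exact mul_le_mul_of_nonneg_left hDN.le (by positivity)
      have h3 : d ≤ Q * N := by exact_mod_cast h2
      exact_mod_cast h3
    calc (d : ℝ) ≤ Q * N := h1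
      _ ≤ x ^ (ε / 8) * x ^ (ε / 16) := mul_le_mul hQx hNh (by positivity) (by positivity)
      _ = x ^ (ε / 8 + ε / 16) := hpadd _ _
      _ ≤ x ^ ε := hpw (by linarith)
  · refine le_trans ?_ (by exact_mod_cast hd3 :
      ((P'.filter (fun n : ℕ => ∀ l, ∃ p ∈ P', (p : ℤ) = (n : ℤ) + Q * D * b l)).card : ℝ) ≤ _)
    refine le_trans ?_ hcount
    rw [← hx, div_div, ← mul_div_assoc, le_div_iff₀ (by positivity)]
    have h1 : (Q : ℝ) * (N : ℝ) ^ (2 * k + 1 + 1) ≤ x ^ (ε / 8) * x ^ (ε / 16) :=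
      mul_le_mul hQx hNrh (by positivity) (by positivity)
    have h2 : 1 ≤ c * x ^ (ε / 16) := by
      have h3 : 1 / c ≤ x ^ (ε / 16) := hlc.trans hl16
      rw [div_le_iff₀ hc] at h3
      linarith
    calc x ^ (1 - ε) * ((Q : ℝ) * (N : ℝ) ^ (2 * k + 1 + 1))
        ≤ x ^ (1 - ε) * (x ^ (ε / 8) * x ^ (ε / 16)) :=
          mul_le_mul_of_nonneg_left h1 (hppos _).le
      _ ≤ (c * x ^ (ε / 16)) * (x ^ (1 - ε) * (x ^ (ε / 8) * x ^ (ε / 16))) :=
          le_mul_of_one_le_left (by positivity) h2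
      _ = c * (x ^ (ε / 16) * (x ^ (1 - ε) * (x ^ (ε / 8) * x ^ (ε / 16)))) := by ring
      _ = c * x ^ (1 - 3 * ε / 4) := by
          rw [hpadd, hpadd, hpadd]
          congr 2
          ring
      _ ≤ c * x ^ (1 : ℝ) := mul_le_mul_of_nonneg_left (hpw (by linarith)) hc.le
      _ = c * x := by rw [Real.rpow_one]

end Pool.Agent.Helper51.UG
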