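import Pool.Agent.Helper51.UG.Fam

set_option autoImplicit false

/-!
Two forms `n`, `± n + β`.
-/

namespace Pool.Agent.Helper51.UG

open Finset Filter
open Pool.Agent.TH935.TF (Gz om Adm Dist cn consA consB loc_of Gz_low)

/-- the primes `n` of the window `(u, u + X]` for which all `|α_i n + β_i|` are primes -/
def PV {k : ℕ} (α β : Fin k → ℤ) (u X : ℕ) : Set ℕ :=
  {n | u < n ∧ n ≤ u + X ∧ n.Prime ∧ ∀ i, (α i * (n : ℤ) + β i).natAbs.Prime}

theorem cn_eq {k : ℕ} (α β : Fin k → ℤ) (u X : ℕ) : cn (consA α) (consB β) u (u + X) = (PV α β u X).ncard := by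
  classical
  unfold cn PV
  rw [← Set.ncard_coe_finset]
  congr 1
  ext n
  simp only [Set.mem_setOf_eq, Finset.coe_filter, mem_Ioc]
  unfold consA consB
  rw [Fin.forall_fin_succ]
  simp only [Fin.cons_zero, Fin.cons_succ, one_mul, add_zero, Int.natAbs_natCast]
  tauto

theorem PV_fin {k : ℕ} (α β : Fin k → ℤ) (u X : ℕ) : (PV α β u X).Finite :=
  (Set.finite_Icc 0 (u + X)).subset fun _ hn => ⟨Nat.zero_le _, hn.2.1⟩

/-- for an even number and every prime there is a class without zeros -/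
theorem adm_pair (α β : Fin 1 → ℤ) (hα : α 0 = 1 ∨ α 0 = -1) (hβ : Even (β 0)) : Adm (consA α) (consB β) := by
  intro p hp
  have key : ∃ r : ℤ, ¬ (p : ℤ) ∣ r ∧ ¬ (p : ℤ) ∣ α 0 * r + β 0 := by
    rcases hp.eq_two_or_odd with h2 | h2
    · refine ⟨1, ?_, ?_⟩
      · rw [h2]
        norm_num
      · rw [h2]
        intro hd
        obtain ⟨b, hb⟩ := hβ
        rcases hα with h | h
        · rw [h] at hd
          push_cast at hd
          omega
        · rw [h] at hd
          push_cast at hd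
          omega
    · have hp3 : 3 ≤ p := by
        have := hp.two_le
        omega
      by_contra hcon
      push Not at hcon
      have h1 := hcon 1 (by
        intro hd
        have := Int.le_of_dvd one_pos hd
        omega)
      have h3 := hcon (-1) (by
        intro hd
        rw [Int.dvd_neg] at hd
        have := Int.le_of_dvd one_pos hd
        omega)
      have h4 := dvd_sub h1 h3
      have e : α 0 * 1 + β 0 - (α 0 * -1 + β 0) = 2 * α 0 := by ring
      rw [e] at h4
      have h5 : (p : ℤ) ∣ 2 := by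
        rcases hα with h | h
        · rw [h] at h4
          simpa using h4
        · rw [h] at h4
          have : (2 : ℤ) * -1 = -2 := by ring
          rw [this, Int.dvd_neg] at h4
          exact h4
      have := Int.le_of_dvd (by norm_num) h5
      omega
  obtain ⟨r, h1, h2⟩ := key
  refine ⟨r, fun i => ?_⟩
  refine Fin.cases ?_ (fun j => ?_) i
  · unfold consA consB
    rw [Fin.cons_zero, Fin.cons_zero, one_mul, add_zero]
    exact h1
  · unfold consA consB
    rw [Fin.cons_succ, Fin.cons_succ, Subsingleton.elim j 0]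
    exact h2

theorem dist_pair (α β : Fin 1 → ℤ) (hβ : β 0 ≠ 0) : Dist (consA α) (consB β) := by
  intro i j
  refine Fin.cases ?_ (fun i' => ?_) i
  · refine Fin.cases ?_ (fun j' => ?_) j
    · intro h
      exact absurd rfl h
    · intro _
      unfold consB
      rw [Fin.cons_zero, Fin.cons_succ, Subsingleton.elim j' 0]
      refine ⟨fun h => hβ h.2.symm, fun h => hβ ?_⟩
      have := h.2
      omega
  · refine Fin.cases ?_ (fun j' => ?_) j
    · intro _
      unfold consB
      rw [Fin.cons_zero, Fin.cons_succ, Subsingleton.elim i' 0]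
      refine ⟨fun h => hβ h.2, fun h => hβ ?_⟩
      have := h.2
      omega
    · intro h
      exact absurd (by rw [Subsingleton.elim i' j']) h

/-- **Pairs.** -/
theorem pair : ∃ c : ℝ, 0 < c ∧ ∀ (K B A m : ℕ) (ε δ : ℝ), 1 ≤ K → 0 < ε → ε ≤ 1 / 2 → ∀ N : ℕ, 3 ≤ N →
    ∀ β : Fin 1 → ℤ, Rich K B A m ε δ N β → ∀ α : Fin 1 → ℤ, (α 0 = 1 ∨ α 0 = -1) → Even (β 0) → β 0 ≠ 0 →
    ∀ u X : ℕ, u + X ≤ B * N → (N : ℝ) / Real.log N ^ A ≤ X →
      c * (X / Real.log N ^ 2) ≤ ((PV α β u X).ncard : ℝ) ∧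
      ((∀ n : ℕ, u < n → n ≤ u + 2 * X → α 0 * n + β 0 ≠ 0) →
       ∀ H D : ℕ, 1 ≤ H → (X : ℝ) ^ ε ≤ D → (D : ℝ) * H ≤ (X : ℝ) ^ (1 - ε) →
       ∀ P ⊆ PV α β u X, ∀ T : Finset ℤ, T.card ≤ m → (∀ t ∈ T, |t| ≤ H) →
        ({n : ℕ | n ∈ P ∧ (cps P T D n : ℝ) < (D : ℝ) ^ (1 - ε)}.ncard : ℝ) ≤
          δ * ((PV α β u X).ncard : ℝ)) := by
  obtain ⟨c, hc, hlow⟩ := Gz_low 2 (by norm_num)
  refine ⟨c / 2, by positivity, fun K B A m ε δ hK hε hε1 N hN β hR α hα hβ hβ0 u X huX hX => ?_⟩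
  have hN3 : (3 : ℝ) ≤ N := by exact_mod_cast hN
  have hL : 0 < Real.log N := Real.log_pos (by linarith)
  have hα' : ∀ i, α i ≠ 0 ∧ |α i| ≤ (K : ℤ) := by
    intro i
    rw [Subsingleton.elim i 0]
    have hK' : (1 : ℤ) ≤ K := by exact_mod_cast hK
    rcases hα with h | h
    · rw [h]
      exact ⟨one_ne_zero, by rw [abs_one]; exact hK'⟩
    · rw [h]
      exact ⟨by norm_num, by rw [abs_neg, abs_one]; exact hK'⟩
  have hadm := adm_pair α β hα hβ
  have hdist := dist_pair α β hβ0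
  obtain ⟨S, hS0, hS, hw⟩ := hR α hα' hadm hdist
  obtain ⟨h1, h2⟩ := hw u X huX hX
  rw [cn_eq] at h1 h2
  have hcS : c ≤ S := by
    refine ge_of_tendsto' hS fun z => ?_
    exact hlow _ _ (loc_of hadm hdist (fun i => by
      refine Fin.cases ?_ (fun j => ?_) i
      · exact one_ne_zero
      · exact (hα' j).1)) z
  refine ⟨?_, fun hne H D hH hD hDH P hP T hTm hT => h2 (fun i => ?_) H D hH hD hDH P
    (fun n hn => hP hn) T hTm hT⟩
  · have h3 := (abs_le.1 h1).1
    have h4 : c * (X / Real.log N ^ 2) ≤ S * X / Real.log N ^ (1 + 1) := by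
      rw [mul_div_assoc]
      exact mul_le_mul_of_nonneg_right hcS (by positivity)
    have h5 : 0 ≤ S * X / Real.log N ^ (1 + 1) := by positivity
    nlinarith
  · rw [Subsingleton.elim i 0]
    exact hne

end Pool.Agent.Helper51.UG
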