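import Pool.Agent.Helper51.UG.Typ
import Pool.Graph.R_seed8.TH935.TF8

set_option autoImplicit false

/-!
Systems of linear forms whose number of prime values in a window has the expected order of magnitude: almost all elements
of arbitrary sets of arguments with prime values have homothetic copies.
-/

namespace Pool.Agent.Helper51.UG

open Finset Filter
open Pool.Agent.Y677.RSZ (rt)
open Pool.Agent.TH935.TF (Gz Fq Loc om Adm Dist cn loc_of Gz_low Fq_bounds Fq_pos det_ne om_le om_lt)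
open Pool.Agent.H373R2.T7 (pz mem_pz)

theorem rt_om {κ : ℕ} (α β : Fin κ → ℤ) {p : ℕ} (hp : p.Prime) : rt (FZ α β) p = om α β p := by
  unfold rt om
  congr 1
  apply filter_congr
  intro c _
  rw [FZ_dvd _ _ hp]

theorem VV_om {κ : ℕ} (α β : Fin κ → ℤ) (y : ℕ) :
    VV (FZ α β) y = Gz (om α β) κ y * (∏ p ∈ (Icc 1 y).filter Nat.Prime, (1 - 1 / (p : ℝ))) ^ κ := by
  have hpz : pz y = (Icc 1 y).filter Nat.Prime := by
    ext p
    rw [mem_pz, mem_filter, mem_Icc]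
    constructor
    · rintro ⟨h1, h2⟩
      exact ⟨⟨h2.pos, h1⟩, h2⟩
    · rintro ⟨⟨h0, h1⟩, h2⟩
      exact ⟨h1, h2⟩
  unfold VV Gz
  rw [hpz, ← prod_pow, ← prod_mul_distrib]
  refine prod_congr rfl fun p hp => ?_
  rw [mem_filter] at hp
  have h2 : (2 : ℝ) ≤ p := by exact_mod_cast hp.2.two_le
  have h3 : (1 - 1 / (p : ℝ)) ^ κ ≠ 0 := by
    apply pow_ne_zero
    have : 1 / (p : ℝ) ≤ 1 / 2 := one_div_le_one_div_of_le (by norm_num) h2
    linarith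
  unfold Fq
  rw [rt_om α β hp.2, div_mul_cancel₀ _ h3]

/-- the tail of the product is not small -/
theorem gz_tail (m : ℕ) (hm : 1 ≤ m) : ∃ y₀ : ℕ, ∀ (ν : ℕ → ℕ) (bad : Finset ℕ), Loc ν m bad → ∀ y z : ℕ, y₀ ≤ y → y ≤ z →
    Gz ν m y ≤ 2 * Gz ν m z := by
  refine ⟨max (3 * m) (2 * m ^ 2), fun ν bad h y z hy hyz => ?_⟩
  have hy1 : 3 * m ≤ y := (le_max_left _ _).trans hy
  have hy2 : 2 * m ^ 2 ≤ y := (le_max_right _ _).trans hy
  have hy0 : 0 < y := by omega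
  have hyR : (0 : ℝ) < y := by exact_mod_cast hy0
  have hsplit : Gz ν m z = Gz ν m y * ∏ p ∈ (Ioc y z).filter Nat.Prime, Fq ν m p := by
    unfold Gz
    rw [← prod_union]
    · congr 1
      ext p
      simp only [mem_pz, mem_filter, mem_union, mem_Ioc]
      constructor
      · rintro ⟨h1, h3⟩
        rcases le_or_gt p y with h | h
        · exact Or.inl ⟨h, h3⟩
        · exact Or.inr ⟨⟨h, h1⟩, h3⟩
      · rintro (⟨h1, h3⟩ | ⟨⟨h1, h2⟩, h3⟩)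
        · exact ⟨h1.trans hyz, h3⟩
        · exact ⟨h2, h3⟩
    · rw [disjoint_left]
      intro p h1 h2
      rw [mem_pz] at h1
      rw [mem_filter, mem_Ioc] at h2
      omega
  have htail : (1 / 2 : ℝ) ≤ ∏ p ∈ (Ioc y z).filter Nat.Prime, Fq ν m p := by
    refine le_trans ?_ (prod_le_prod (fun p _ => (Real.exp_pos _).le) (fun p hp => by
      rw [mem_filter, mem_Ioc] at hp
      exact (Fq_bounds h hm p hp.2 (by omega)).1))
    rw [← Real.exp_sum, sum_neg_distrib, ← mul_sum]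
    have h1 : ∑ p ∈ (Ioc y z).filter Nat.Prime, (1 / (p : ℝ) ^ 2) ≤ (y : ℝ)⁻¹ := by
      calc ∑ p ∈ (Ioc y z).filter Nat.Prime, (1 / (p : ℝ) ^ 2)
          ≤ ∑ p ∈ Ioc y z, ((p : ℝ) ^ 2)⁻¹ := by
            rw [show (∑ p ∈ (Ioc y z).filter Nat.Prime, (1 / (p : ℝ) ^ 2)) =
              ∑ p ∈ (Ioc y z).filter Nat.Prime, ((p : ℝ) ^ 2)⁻¹ from
                sum_congr rfl fun p _ => one_div _]
            exact sum_le_sum_of_subset_of_nonneg (filter_subset _ _) (fun _ _ _ => by positivity)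
        _ ≤ (y : ℝ)⁻¹ - (z : ℝ)⁻¹ := sum_Ioc_inv_sq_le_sub hy0.ne' hyz
        _ ≤ (y : ℝ)⁻¹ := by
            have : (0 : ℝ) ≤ (z : ℝ)⁻¹ := by positivity
            linarith
    have h2 : ((m : ℝ)) ^ 2 * (y : ℝ)⁻¹ ≤ 1 / 2 := by
      rw [← div_eq_mul_inv, div_le_iff₀ hyR]
      have : (2 : ℝ) * (m : ℝ) ^ 2 ≤ y := by exact_mod_cast hy2
      linarith
    have h3 : ((m : ℝ)) ^ 2 * ∑ p ∈ (Ioc y z).filter Nat.Prime, (1 / (p : ℝ) ^ 2) ≤ 1 / 2 :=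
      (mul_le_mul_of_nonneg_left h1 (by positivity)).trans h2
    have h4 := Real.add_one_le_exp (-(((m : ℝ)) ^ 2 *
      ∑ p ∈ (Ioc y z).filter Nat.Prime, (1 / (p : ℝ) ^ 2)))
    linarith
  have hpos : 0 ≤ Gz ν m y := (Pool.Agent.TH935.TF.Gz_pos h y).le
  rw [hsplit]
  nlinarith

/-- few arguments with small values -/
theorem few_small {κ : ℕ} (α β : Fin κ → ℤ) (hα : ∀ i, α i ≠ 0) (y : ℕ) (P : Set ℕ)
    (hP : ∀ n ∈ P, ∃ i, (α i * (n : ℤ) + β i).natAbs ≤ y) : P.Finite ∧ P.ncard ≤ κ * (2 * y + 1) := by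
  classical
  have h1 : P ⊆ ⋃ i : Fin κ, {n : ℕ | (α i * (n : ℤ) + β i).natAbs ≤ y} := by
    intro n hn
    obtain ⟨i, hi⟩ := hP n hn
    exact Set.mem_iUnion.2 ⟨i, hi⟩
  have h2 : ∀ i : Fin κ, {n : ℕ | (α i * (n : ℤ) + β i).natAbs ≤ y}.Finite ∧
      {n : ℕ | (α i * (n : ℤ) + β i).natAbs ≤ y}.ncard ≤ 2 * y + 1 := by
    intro i
    have hinj : Set.InjOn (fun n : ℕ => α i * (n : ℤ) + β i) {n : ℕ | (α i * (n : ℤ) + β i).natAbs ≤ y} := by
      intro a _ b _ hab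
      have h3 : α i * (a : ℤ) = α i * (b : ℤ) := by
        have : α i * (a : ℤ) + β i = α i * (b : ℤ) + β i := hab
        linarith
      exact_mod_cast mul_left_cancel₀ (hα i) h3
    have hmaps : Set.MapsTo (fun n : ℕ => α i * (n : ℤ) + β i) {n : ℕ | (α i * (n : ℤ) + β i).natAbs ≤ y}
        (Set.Icc (-(y : ℤ)) y) := by
      intro n hn
      have h3 : (α i * (n : ℤ) + β i).natAbs ≤ y := hn
      rw [Set.mem_Icc]
      show -(y : ℤ) ≤ α i * (n : ℤ) + β i ∧ α i * (n : ℤ) + β i ≤ y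
      constructor <;> omega
    refine ⟨Set.Finite.of_injOn hmaps hinj (Set.finite_Icc _ _), ?_⟩
    have h3 := Set.ncard_le_ncard_of_injOn _ hmaps hinj (Set.finite_Icc _ _)
    have h4 : (Set.Icc (-(y : ℤ)) y).ncard = 2 * y + 1 := by
      rw [← Finset.coe_Icc, Set.ncard_coe_finset, Int.card_Icc]
      omega
    omega
  have h3 : (⋃ i : Fin κ, {n : ℕ | (α i * (n : ℤ) + β i).natAbs ≤ y}).Finite :=
    Set.finite_iUnion fun i => (h2 i).1
  refine ⟨h3.subset h1, (Set.ncard_le_ncard h1 h3).trans ?_⟩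
  refine (Set.ncard_iUnion_le_of_fintype _).trans ?_
  calc ∑ i : Fin κ, {n : ℕ | (α i * (n : ℤ) + β i).natAbs ≤ y}.ncard ≤ ∑ _i : Fin κ, (2 * y + 1) :=
        sum_le_sum fun i _ => (h2 i).2
    _ = κ * (2 * y + 1) := by simp

/-- **Systems with the expected number of prime values in a window.** -/
theorem typW (κ K B A m : ℕ) (ε η δ : ℝ) (hκ : 1 ≤ κ) (hε : 0 < ε) (hε1 : ε < 1) (hη : 0 < η) (hδ : 0 < δ) :
    ∃ N₀ : ℕ, ∀ N : ℕ, N₀ ≤ N → ∀ α β : Fin κ → ℤ, (∀ i, α i ≠ 0 ∧ |α i| ≤ K ∧ |β i| ≤ B * N) →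
      Adm α β → Dist α β → ∀ S : ℝ, Tendsto (fun z => Gz (om α β) κ z) atTop (nhds S) →
      ∀ u X : ℕ, u + X ≤ B * N → (N : ℝ) / Real.log N ^ A ≤ X →
      (∀ i, ∀ n : ℕ, u < n → n ≤ u + 2 * X → α i * n + β i ≠ 0) →
      η * (S * X / Real.log N ^ κ) ≤ (cn α β u (u + X) : ℝ) →
      ∀ H D : ℕ, 1 ≤ H → (X : ℝ) ^ ε ≤ D → (D : ℝ) * H ≤ (X : ℝ) ^ (1 - ε) →
      ∀ P : Set ℕ, (∀ n ∈ P, u < n ∧ n ≤ u + X ∧ ∀ i, (α i * (n : ℤ) + β i).natAbs.Prime) →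
      ∀ T : Finset ℤ, T.card ≤ m → (∀ t ∈ T, |t| ≤ H) →
        ({n : ℕ | n ∈ P ∧ (cps P T D n : ℝ) < (D : ℝ) ^ (1 - ε)}.ncard : ℝ) ≤
          δ * (cn α β u (u + X) : ℝ) := by
  classical
  obtain ⟨CM, hCM, hM⟩ := mert_up
  obtain ⟨y₀, htail⟩ := gz_tail κ hκ
  obtain ⟨c, hc, hlow⟩ := Gz_low κ hκ
  set Q : ℝ := 2 * (8 * CM) ^ κ / η with hQ
  have hQ0 : 0 < Q := by positivity
  obtain ⟨X₁, h1⟩ := ptSetU κ K 3 m ε (1 / 4) (δ / (2 * Q)) hε hε1 (by norm_num)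
    (by positivity)
  obtain ⟨X₂, h2⟩ := Pool.Agent.Helper51.UD.ev_rpow (max 3 y₀) (1 / 4) (by norm_num)
  obtain ⟨N₃, h3⟩ := ev_logpow (2 * (3 * κ) / (δ * (η * c))) κ (1 / 4) (by norm_num)
  obtain ⟨N₄, h4⟩ := ev_logpow 1 A (1 / 2) (by norm_num)
  refine ⟨max (max ((max X₁ X₂) ^ 2) ((max 3 B) ^ 2)) (max N₃ N₄), fun N hN α β hαβ hadm hdist S hS u X huX hXN
    hne hcn H D hH hD hDH P hP T hTm hT => ?_⟩
  have g1 : (max X₁ X₂) ^ 2 ≤ N := ((le_max_left _ _).trans (le_max_left _ _)).trans hN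
  have g1' : (max 3 B) ^ 2 ≤ N := ((le_max_right _ _).trans (le_max_left _ _)).trans hN
  have g3 := h3 N (((le_max_left _ _).trans (le_max_right _ _)).trans hN)
  have g4 := h4 N (((le_max_right _ _).trans (le_max_right _ _)).trans hN)
  have g5 : 9 ≤ N := le_trans (by
    have : 3 ≤ max 3 B := le_max_left _ _
    nlinarith) g1'
  have hN9 : (9 : ℝ) ≤ N := by exact_mod_cast g5
  have hN0 : (0 : ℝ) < N := by linarith
  have hL : 0 < Real.log N := Real.log_pos (by linarith)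
  have hhalf : (N : ℝ) = (N : ℝ) ^ (1 / 2 : ℝ) * (N : ℝ) ^ (1 / 2 : ℝ) := by
    rw [← Real.rpow_add hN0]
    norm_num
  have hNh : 0 < (N : ℝ) ^ (1 / 2 : ℝ) := by positivity
  -- `X ≥ N ^ (1 / 2)`
  have hXh : (N : ℝ) ^ (1 / 2 : ℝ) ≤ X := by
    refine le_trans ?_ hXN
    rw [le_div_iff₀ (by positivity)]
    calc (N : ℝ) ^ (1 / 2 : ℝ) * Real.log N ^ A ≤ (N : ℝ) ^ (1 / 2 : ℝ) * (N : ℝ) ^ (1 / 2 : ℝ) :=
          mul_le_mul_of_nonneg_left (by linarith) hNh.le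
      _ = N := hhalf.symm
  have hbig : ∀ M : ℕ, M ^ 2 ≤ N → M ≤ X := by
    intro M hM2
    have e1 : ((M : ℝ)) ≤ (N : ℝ) ^ (1 / 2 : ℝ) := by
      rw [← Real.sqrt_eq_rpow]
      apply Real.le_sqrt_of_sq_le
      exact_mod_cast hM2
    have e2 : (M : ℝ) ≤ X := e1.trans hXh
    exact_mod_cast e2
  have gX := hbig _ g1
  have gX1 : X₁ ≤ X := (le_max_left _ _).trans gX
  have g2 := h2 X ((le_max_right _ _).trans gX)
  have gX3 := hbig _ g1'
  have hX3n : 3 ≤ X := (le_max_left _ _).trans gX3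
  have hXB : B ≤ X := (le_max_right _ _).trans gX3
  have hX3 : (3 : ℝ) ≤ X := by exact_mod_cast hX3n
  have hX0 : (0 : ℝ) < X := by linarith
  have hNX2 : N ≤ X ^ 2 := by
    have e1 : (N : ℝ) ≤ (X : ℝ) ^ 2 := by
      rw [hhalf, sq]
      exact mul_le_mul hXh hXh hNh.le hX0.le
    exact_mod_cast e1
  have hBN : B * N ≤ X ^ 3 := by
    calc B * N ≤ X * X ^ 2 := Nat.mul_le_mul hXB hNX2
      _ = X ^ 3 := by ring
  have hr3 : (3 : ℝ) ≤ (X : ℝ) ^ (1 / 4 : ℝ) := (le_max_left _ _).trans g2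
  have hry : (y₀ : ℝ) ≤ (X : ℝ) ^ (1 / 4 : ℝ) := (le_max_right _ _).trans g2
  have hhalfX : (X : ℝ) ^ (1 / 2 : ℝ) = (X : ℝ) ^ (1 / 4 : ℝ) * (X : ℝ) ^ (1 / 4 : ℝ) := by
    rw [← Real.rpow_add hX0]
    norm_num
  set y : ℕ := ⌊(X : ℝ) ^ (1 / 2 : ℝ)⌋₊ with hy
  have hyfl : (X : ℝ) ^ (1 / 2 : ℝ) < (y : ℝ) + 1 := Nat.lt_floor_add_one _
  have hyle : (y : ℝ) ≤ (X : ℝ) ^ (1 / 2 : ℝ) := Nat.floor_le (by positivity)
  have hyq : (X : ℝ) ^ (1 / 4 : ℝ) ≤ y := by nlinarith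
  have hy3 : 3 ≤ y := by
    have : (3 : ℝ) ≤ y := hr3.trans hyq
    exact_mod_cast this
  have hyy : y₀ ≤ y := by
    have : (y₀ : ℝ) ≤ y := hry.trans hyq
    exact_mod_cast this
  have hyX1 : y ≤ X := by
    have h4 : (y : ℝ) ≤ X := by
      refine hyle.trans ?_
      calc (X : ℝ) ^ (1 / 2 : ℝ) ≤ (X : ℝ) ^ (1 : ℝ) :=
            Real.rpow_le_rpow_of_exponent_le (by linarith) (by norm_num)
        _ = X := Real.rpow_one _
    exact_mod_cast h4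
  have hyN : y ≤ X ^ 3 := hyX1.trans (Nat.le_self_pow (by norm_num) X)
  have hα : ∀ i, α i ≠ 0 := fun i => (hαβ i).1
  have hloc : Loc (om α β) κ (Pool.Agent.TH935.TF.badF α β) := loc_of hadm hdist hα
  -- the elements of `P` with large values
  set P' : Set ℕ := {n | n ∈ P ∧ ∀ i, y < (α i * (n : ℤ) + β i).natAbs} with hP'
  have hf : FormsOK K 3 X u α β := by
    refine ⟨fun j => ⟨(hαβ j).1, (hαβ j).2.1, ?_⟩, fun i j hij h0 => ?_, hne⟩
    · refine (hαβ j).2.2.trans ?_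
      exact_mod_cast hBN
    · apply det_ne hadm hdist i j hij
      linarith
  have h5 := h1 X H D u y gX1 ((Nat.le_add_right _ _).trans (huX.trans hBN)) hyq hyN hH hD hDH _ _ hf P' (by
    rintro p ⟨hpA, hyp⟩
    obtain ⟨hpu, hpX, hpi⟩ := hP p hpA
    refine ⟨hpu, hpX, fun i q hq hqd => ?_⟩
    have h6 : q ∣ (α i * (p : ℤ) + β i).natAbs := Int.natCast_dvd.1 hqd
    rw [(Nat.prime_dvd_prime_iff_eq hq (hpi i)).1 h6]
    exact hyp i) T hTm hT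
  -- the sieve product
  have hV : (X : ℝ) * VV (FZ α β) y ≤ Q * (cn α β u (u + X) : ℝ) := by
    have hP0 : 0 ≤ ∏ p ∈ (Icc 1 y).filter Nat.Prime, (1 - 1 / (p : ℝ)) := by
      apply prod_nonneg
      intro p hp
      rw [mem_filter] at hp
      have h6 : (2 : ℝ) ≤ p := by exact_mod_cast hp.2.two_le
      have : 1 / (p : ℝ) ≤ 1 / 2 := one_div_le_one_div_of_le (by norm_num) h6
      linarith
    have hlogy : Real.log N / 8 ≤ Real.log y := by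
      have h6 := Real.log_le_log (by positivity) hyq
      rw [Real.log_rpow hX0] at h6
      have h7 := Real.log_le_log (by positivity) hXh
      rw [Real.log_rpow hN0] at h7
      linarith
    have h6 : ∏ p ∈ (Icc 1 y).filter Nat.Prime, (1 - 1 / (p : ℝ)) ≤ 8 * CM / Real.log N := by
      refine (hM y hy3).trans ?_
      calc CM / Real.log y ≤ CM / (Real.log N / 8) :=
            div_le_div_of_nonneg_left hCM.le (by positivity) hlogy
        _ = 8 * CM / Real.log N := by field_simp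
    have h7 : Gz (om α β) κ y ≤ 2 * S := by
      have h8 : Tendsto (fun z => 2 * Gz (om α β) κ z) atTop (nhds (2 * S)) :=
        hS.const_mul 2
      refine ge_of_tendsto h8 ?_
      filter_upwards [eventually_ge_atTop y] with z hz
      exact htail _ _ hloc y z hyy hz
    have h8 : 0 ≤ Gz (om α β) κ y := (Pool.Agent.TH935.TF.Gz_pos hloc y).le
    rw [VV_om]
    calc (X : ℝ) * (Gz (om α β) κ y *
          (∏ p ∈ (Icc 1 y).filter Nat.Prime, (1 - 1 / (p : ℝ))) ^ κ)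
        ≤ (X : ℝ) * ((2 * S) * (8 * CM / Real.log N) ^ κ) := by
          apply mul_le_mul_of_nonneg_left _ hX0.le
          exact mul_le_mul h7 (pow_le_pow_left₀ hP0 h6 _) (by positivity) (h8.trans h7)
      _ = Q * (η * (S * X / Real.log N ^ κ)) := by
          rw [hQ, div_pow]
          field_simp
      _ ≤ Q * (cn α β u (u + X) : ℝ) := mul_le_mul_of_nonneg_left hcn hQ0.le
  have h6 : (({n : ℕ | n ∈ P' ∧ (cps P' T D n : ℝ) < (D : ℝ) ^ (1 - ε)}.ncard : ℕ) : ℝ) ≤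
      δ / 2 * (cn α β u (u + X) : ℝ) := by
    refine h5.trans ?_
    calc δ / (2 * Q) * ((X : ℝ) * VV (FZ α β) y)
        ≤ δ / (2 * Q) * (Q * (cn α β u (u + X) : ℝ)) := mul_le_mul_of_nonneg_left hV (by positivity)
      _ = δ / 2 * (cn α β u (u + X) : ℝ) := by field_simp
  -- the elements with small values
  obtain ⟨hsf, hsc⟩ := few_small α β hα y {n | n ∈ P ∧ ∃ i, (α i * (n : ℤ) + β i).natAbs ≤ y}
    (fun n hn => hn.2)
  have h7 : ((κ * (2 * y + 1) : ℕ) : ℝ) ≤ δ / 2 * (cn α β u (u + X) : ℝ) := by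
    have hcS : c ≤ S := ge_of_tendsto' hS (hlow _ _ hloc)
    have hXlow : η * c * (X / Real.log N ^ κ) ≤ (cn α β u (u + X) : ℝ) := by
      refine le_trans ?_ hcn
      rw [mul_assoc]
      apply mul_le_mul_of_nonneg_left _ hη.le
      rw [mul_div_assoc]
      exact mul_le_mul_of_nonneg_right hcS (by positivity)
    have hXX : (X : ℝ) = (X : ℝ) ^ (1 / 2 : ℝ) * (X : ℝ) ^ (1 / 2 : ℝ) := by
      rw [← Real.rpow_add hX0]
      norm_num
    have hXp : 0 < (X : ℝ) ^ (1 / 2 : ℝ) := by positivity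
    have hNX : (N : ℝ) ^ (1 / 4 : ℝ) ≤ (X : ℝ) ^ (1 / 2 : ℝ) := by
      calc (N : ℝ) ^ (1 / 4 : ℝ) = ((N : ℝ) ^ (1 / 2 : ℝ)) ^ (1 / 2 : ℝ) := by
            rw [← Real.rpow_mul hN0.le]
            norm_num
        _ ≤ (X : ℝ) ^ (1 / 2 : ℝ) := Real.rpow_le_rpow hNh.le hXh (by norm_num)
    have h13 : 0 < Real.log N ^ κ := by positivity
    have hy1 : ((κ * (2 * y + 1) : ℕ) : ℝ) ≤ 3 * κ * (X : ℝ) ^ (1 / 2 : ℝ) := by
      push_cast
      have e1 : (1 : ℝ) ≤ y := by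
        have : (3 : ℝ) ≤ y := by exact_mod_cast hy3
        linarith
      have e2 : (0 : ℝ) ≤ κ := Nat.cast_nonneg _
      nlinarith
    refine hy1.trans (le_trans ?_ (mul_le_mul_of_nonneg_left hXlow (by positivity)))
    have h12 : (X : ℝ) ^ (1 / 2 : ℝ) * (2 * (3 * κ) / (δ * (η * c)) * Real.log N ^ κ) ≤ X := by
      calc _ ≤ (X : ℝ) ^ (1 / 2 : ℝ) * (X : ℝ) ^ (1 / 2 : ℝ) :=
            mul_le_mul_of_nonneg_left (g3.trans hNX) hXp.le
        _ = X := hXX.symm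
    calc 3 * κ * (X : ℝ) ^ (1 / 2 : ℝ)
        = δ / 2 * (η * c * (((X : ℝ) ^ (1 / 2 : ℝ) * (2 * (3 * κ) / (δ * (η * c)) *
            Real.log N ^ κ)) / Real.log N ^ κ)) := by
          field_simp
      _ ≤ δ / 2 * (η * c * (X / Real.log N ^ κ)) := by
          apply mul_le_mul_of_nonneg_left _ (by positivity)
          apply mul_le_mul_of_nonneg_left _ (by positivity)
          exact div_le_div_of_nonneg_right h12 h13.le
  have hfin : ∀ n : ℕ, {d : ℕ | 1 ≤ d ∧ d ≤ D ∧ ∀ t ∈ T, ∃ m ∈ P, (m : ℤ) = n + d * t}.Finite :=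
    fun n => (Set.finite_Icc 1 D).subset fun d hd => ⟨hd.1, hd.2.1⟩
  have hcp : ∀ n : ℕ, cps P' T D n ≤ cps P T D n := by
    intro n
    unfold cps
    apply Set.ncard_le_ncard _ (hfin n)
    rintro d ⟨h8, h9, h10⟩
    exact ⟨h8, h9, fun t ht => by
      obtain ⟨m', hm', h11⟩ := h10 t ht
      exact ⟨m', hm'.1, h11⟩⟩
  have hsub : {n : ℕ | n ∈ P ∧ (cps P T D n : ℝ) < (D : ℝ) ^ (1 - ε)} ⊆
      {n : ℕ | n ∈ P' ∧ (cps P' T D n : ℝ) < (D : ℝ) ^ (1 - ε)} ∪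
        {n | n ∈ P ∧ ∃ i, (α i * (n : ℤ) + β i).natAbs ≤ y} := by
    rintro n ⟨h8, h9⟩
    by_cases hn : ∀ i, y < (α i * (n : ℤ) + β i).natAbs
    · left
      refine ⟨⟨h8, hn⟩, lt_of_le_of_lt ?_ h9⟩
      exact_mod_cast hcp n
    · right
      push Not at hn
      exact ⟨h8, hn⟩
  have hfin2 : ({n : ℕ | n ∈ P' ∧ (cps P' T D n : ℝ) < (D : ℝ) ^ (1 - ε)} ∪
      {n | n ∈ P ∧ ∃ i, (α i * (n : ℤ) + β i).natAbs ≤ y}).Finite := by
    apply Set.Finite.union _ hsf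
    exact (Set.finite_Icc 0 (u + X)).subset fun n hn => ⟨Nat.zero_le _, (hP n hn.1.1).2.1⟩
  have h8 := (Set.ncard_le_ncard hsub hfin2).trans (Set.ncard_union_le _ _)
  have h10 : (({n : ℕ | n ∈ P ∧ (cps P T D n : ℝ) < (D : ℝ) ^ (1 - ε)}.ncard : ℕ) : ℝ) ≤
      (({n : ℕ | n ∈ P' ∧ (cps P' T D n : ℝ) < (D : ℝ) ^ (1 - ε)}.ncard : ℕ) : ℝ) +
        ((κ * (2 * y + 1) : ℕ) : ℝ) := by
    have h11 := h8.trans (Nat.add_le_add_left hsc _)
    exact_mod_cast h11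
  linarith

end Pool.Agent.Helper51.UG
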